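import Mathlib

open AlgebraicGeometry CategoryTheory TopologicalSpace Opposite Limits

universe u

namespace Pool.Agent.Helper72

variable {X : TopCat.{u}} {F G : Sheaf (Opens.grothendieckTopology X) AddCommGrpCat.{u}}

/-- sections over `A`, as a functor -/
noncomputable abbrev secFunctor (A : Opens X) :
    Sheaf (Opens.grothendieckTopology X) AddCommGrpCat.{u} ⥤ AddCommGrpCat.{u} :=
  sheafToPresheaf (Opens.grothendieckTopology X) AddCommGrpCat.{u} ⋙
    (evaluation (Opens X)ᵒᵖ AddCommGrpCat.{u}).obj (op A)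

lemma section_exact {S : ShortComplex (Sheaf (Opens.grothendieckTopology X) AddCommGrpCat.{u})}
    (hS : S.ShortExact)
    (A : Opens X) (x : S.X₂.obj.obj (op A)) (hx : S.g.hom.app (op A) x = 0) :
    ∃ y : S.X₁.obj.obj (op A), S.f.hom.app (op A) y = x := by
  have : Mono S.f := hS.mono_f
  have := hS.exact.map_of_mono_of_preservesKernel (secFunctor A) inferInstance inferInstance
  rw [ShortComplex.ab_exact_iff] at this
  exact this x hx

lemma sheaf_map_map (Q : Sheaf (Opens.grothendieckTopology X) AddCommGrpCat.{u})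
    {U V W : Opens X} (h1 : U ≤ V) (h2 : V ≤ W) (x : Q.obj.obj (op W)) :
    Q.obj.map (homOfLE h1).op (Q.obj.map (homOfLE h2).op x) =
      Q.obj.map (homOfLE (h1.trans h2)).op x := by
  rw [← CategoryTheory.comp_apply, ← Functor.map_comp]
  rfl

theorem exists_global_of_H1_injective (ι : F ⟶ G) [Mono ι]
    (hinj : Function.Injective (Sheaf.H.map ι 1))
    (A B : Opens X) (hAB : A ⊔ B = ⊤) (a : G.obj.obj (op A)) (b : G.obj.obj (op B))
    (c : F.obj.obj (op (A ⊓ B)))
    (h : G.obj.map (homOfLE inf_le_left).op a - G.obj.map (homOfLE inf_le_right).op b =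
      ι.hom.app _ c) :
    ∃ (g : G.obj.obj (op ⊤)) (a' : F.obj.obj (op A)) (b' : F.obj.obj (op B)),
      G.obj.map (homOfLE le_top).op g = a + ι.hom.app _ a' ∧
      G.obj.map (homOfLE le_top).op g = b + ι.hom.app _ b' := by
  let S : ShortComplex (Sheaf (Opens.grothendieckTopology X) AddCommGrpCat.{u}) :=
    ShortComplex.mk ι (cokernel.π ι) (cokernel.condition ι)
  have hS : S.ShortExact := by
    refine ShortComplex.ShortExact.mk' ?_ inferInstance inferInstance
    exact ShortComplex.exact_of_g_is_cokernel _ (cokernelIsCokernel ι)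
  have key : ∀ s : S.X₃.obj.obj (op ⊤), ∃ g : S.X₂.obj.obj (op ⊤), S.g.hom.app (op ⊤) g = s := by
    intro s
    let hT : IsTerminal (⊤ : Opens X) := isTerminalTop
    let x₃ : S.X₃.H 0 := (Sheaf.H.equiv₀ S.X₃ hT).symm s
    have hx₃ : x₃.comp hS.extClass (zero_add 1) = 0 := by
      apply hinj
      rw [map_zero]
      rw [Sheaf.H.map_apply]
      change (x₃.comp hS.extClass (zero_add 1)).comp (Abelian.Ext.mk₀ S.f) _ = 0
      rw [Abelian.Ext.comp_assoc_of_third_deg_zero, hS.extClass_comp, Abelian.Ext.comp_zero]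
    obtain ⟨x₂, hx₂⟩ := Abelian.Ext.covariant_sequence_exact₃ _ hS x₃ (zero_add 1) hx₃
    refine ⟨Sheaf.H.equiv₀ S.X₂ hT x₂, ?_⟩
    rw [Sheaf.H.equiv₀_naturality]
    have : Sheaf.H.map S.g 0 x₂ = x₃ := hx₂
    rw [this]
    simp [x₃]
  -- glue the images of `a` and `b` in the quotient
  let U : ULift.{u} Bool → Opens X := fun t ↦ bif t.down then A else B
  let sA : S.X₃.obj.obj (op A) := S.g.hom.app (op A) a
  let sB : S.X₃.obj.obj (op B) := S.g.hom.app (op B) b
  have hA : S.X₃.obj.map (homOfLE (inf_le_left : A ⊓ B ≤ A)).op sA =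
      S.X₃.obj.map (homOfLE (inf_le_right : A ⊓ B ≤ B)).op sB := by
    have h1 : S.X₃.obj.map (homOfLE (inf_le_left : A ⊓ B ≤ A)).op sA =
        S.g.hom.app (op (A ⊓ B)) (S.X₂.obj.map (homOfLE (inf_le_left : A ⊓ B ≤ A)).op a) :=
      (NatTrans.naturality_apply S.g.hom (homOfLE (inf_le_left : A ⊓ B ≤ A)).op a).symm
    have h2 : S.X₃.obj.map (homOfLE (inf_le_right : A ⊓ B ≤ B)).op sB =
        S.g.hom.app (op (A ⊓ B)) (S.X₂.obj.map (homOfLE (inf_le_right : A ⊓ B ≤ B)).op b) :=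
      (NatTrans.naturality_apply S.g.hom (homOfLE (inf_le_right : A ⊓ B ≤ B)).op b).symm
    rw [h1, h2, ← sub_eq_zero, ← map_sub]
    have h3 : S.X₂.obj.map (homOfLE (inf_le_left : A ⊓ B ≤ A)).op a -
      S.X₂.obj.map (homOfLE (inf_le_right : A ⊓ B ≤ B)).op b = S.f.hom.app _ c := h
    rw [h3]
    have h4 : S.f ≫ S.g = 0 := S.zero
    have h5 : (S.f ≫ S.g).hom.app (op (A ⊓ B)) c = 0 := by rw [h4]; rfl
    exact h5
  obtain ⟨s, hs, -⟩ := TopCat.Sheaf.existsUnique_gluing' (F := S.X₃) U ⊤ (fun i ↦ homOfLE le_top)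
    (by
      rw [← hAB]
      apply sup_le
      · exact le_iSup U ⟨true⟩
      · exact le_iSup U ⟨false⟩)
    (fun i ↦ match i with
      | ⟨true⟩ => sA
      | ⟨false⟩ => sB)
    (by
      rintro ⟨i⟩ ⟨j⟩
      cases i <;> cases j
      · rfl
      · have := congr_arg (S.X₃.obj.map (homOfLE (le_inf inf_le_right inf_le_left : B ⊓ A ≤ A ⊓ B)).op) hA
        rw [sheaf_map_map, sheaf_map_map] at this
        exact this.symm
      · exact hA
      · rfl)
  obtain ⟨g, hg⟩ := key s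
  have hsA : S.X₃.obj.map (homOfLE (le_top : A ≤ ⊤)).op s = sA := hs ⟨true⟩
  have hsB : S.X₃.obj.map (homOfLE (le_top : B ≤ ⊤)).op s = sB := hs ⟨false⟩
  have hgA : S.g.hom.app (op A) (S.X₂.obj.map (homOfLE (le_top : A ≤ ⊤)).op g) = sA := by
    rw [← hsA, ← hg]
    exact NatTrans.naturality_apply S.g.hom (homOfLE (le_top : A ≤ ⊤)).op g
  have hgB : S.g.hom.app (op B) (S.X₂.obj.map (homOfLE (le_top : B ≤ ⊤)).op g) = sB := by
    rw [← hsB, ← hg]
    exact NatTrans.naturality_apply S.g.hom (homOfLE (le_top : B ≤ ⊤)).op g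
  obtain ⟨a', ha'⟩ := section_exact hS A (S.X₂.obj.map (homOfLE (le_top : A ≤ ⊤)).op g - a) (by
    rw [map_sub, hgA, sub_self])
  obtain ⟨b', hb'⟩ := section_exact hS B (S.X₂.obj.map (homOfLE (le_top : B ≤ ⊤)).op g - b) (by
    rw [map_sub, hgB, sub_self])
  refine ⟨g, a', b', ?_, ?_⟩
  · change _ = a + S.f.hom.app _ a'
    rw [ha']
    abel
  · change _ = b + S.f.hom.app _ b'
    rw [hb']
    abel

end Pool.Agent.Helper72
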