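import Mathlib

open AlgebraicGeometry CategoryTheory TopologicalSpace Opposite

universe u

namespace Pool.Agent.Helper72

variable (X : Scheme.{u}) (q : ℕ)

/-- `DOp X q U`: the additive endomorphisms of the sheaf of abelian groups `𝒪_X|_U` (families of
additive maps `Γ(X, V) → Γ(X, V)`, for `V ≤ U` open, commuting with restriction) that are linear
over the `q`-th powers of sections of `𝒪_X`. -/
def DOp (U : X.Opens) : AddSubgroup (∀ V : {V : X.Opens // V ≤ U}, Γ(X, V.1) →+ Γ(X, V.1)) where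
  carrier := {φ |
    (∀ (V W : {V : X.Opens // V ≤ U}) (h : V.1 ≤ W.1) (a : Γ(X, W.1)),
      X.presheaf.map (homOfLE h).op (φ W a) = φ V (X.presheaf.map (homOfLE h).op a)) ∧
    (∀ (V : {V : X.Opens // V ≤ U}) (a b : Γ(X, V.1)), φ V (a ^ q * b) = a ^ q * φ V b)}
  zero_mem' := by
    constructor
    · intro V W h a
      simp
    · intro V a b
      simp
  add_mem' := by
    rintro φ ψ ⟨h1, h2⟩ ⟨h3, h4⟩
    constructor
    · intro V W h a
      simp [h1, h3]
    · intro V a b
      simp [h2, h4, mul_add]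
  neg_mem' := by
    rintro φ ⟨h1, h2⟩
    constructor
    · intro V W h a
      simp [h1]
    · intro V a b
      simp [h2]

/-- Restriction of endomorphisms to a smaller open set. -/
def DOp.res {U U' : X.Opens} (h : U' ≤ U) : DOp X q U →+ DOp X q U' where
  toFun φ := ⟨fun V ↦ φ.1 ⟨V.1, V.2.trans h⟩,
    fun V W hVW a ↦ φ.2.1 ⟨V.1, V.2.trans h⟩ ⟨W.1, W.2.trans h⟩ hVW a,
    fun V a b ↦ φ.2.2 ⟨V.1, V.2.trans h⟩ a b⟩
  map_zero' := rfl
  map_add' _ _ := rfl

/-- The presheaf `U ↦ DOp X q U`. -/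
def DPresheaf : TopCat.Presheaf AddCommGrpCat.{u} X.toTopCat where
  obj U := AddCommGrpCat.of (DOp X q U.unop)
  map f := AddCommGrpCat.ofHom (DOp.res X q f.unop.le)
  map_id _ := rfl
  map_comp _ _ := rfl

end Pool.Agent.Helper72
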