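import Mathlib
import Pool.Agent.Helper72.DOpDefs

open AlgebraicGeometry CategoryTheory TopologicalSpace Opposite

universe u

namespace Pool.Agent.Helper72

variable {X : Scheme.{u}} {q : ℕ}

lemma res_res {U V W : X.Opens} (h : U ≤ V) (h' : V ≤ W) (a : Γ(X, W)) :
    X.presheaf.map (homOfLE h).op (X.presheaf.map (homOfLE h').op a) =
      X.presheaf.map (homOfLE (h.trans h')).op a := by
  rw [← CategoryTheory.comp_apply, ← X.presheaf.map_comp]
  rfl

lemma section_ext {ι : Type*} {V : X.Opens} (W : ι → X.Opens) (h : ∀ i, W i ≤ V)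
    (hV : V ≤ iSup W) (s t : Γ(X, V))
    (H : ∀ i, X.presheaf.map (homOfLE (h i)).op s = X.presheaf.map (homOfLE (h i)).op t) :
    s = t :=
  X.sheaf.eq_of_locally_eq' W V (fun i ↦ homOfLE (h i)) hV s t H

section glue

variable {ι : Type u} (U : ι → X.Opens) (sf : ∀ i, DOp X q (U i))
  (hsf : ∀ i j (V : X.Opens) (hi : V ≤ U i) (hj : V ≤ U j), (sf i).1 ⟨V, hi⟩ = (sf j).1 ⟨V, hj⟩)

include hsf in
lemma exists_glue_aux (V : X.Opens) (hV : V ≤ iSup U) (a : Γ(X, V)) :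
    ∃! s : Γ(X, V), ∀ i, X.presheaf.map (homOfLE (inf_le_left : V ⊓ U i ≤ V)).op s =
      (sf i).1 ⟨V ⊓ U i, inf_le_right⟩ (X.presheaf.map (homOfLE (inf_le_left)).op a) := by
  have hcover : V ≤ iSup fun i ↦ V ⊓ U i := by
    rw [← inf_iSup_eq]
    exact le_inf le_rfl hV
  refine X.sheaf.existsUnique_gluing' (fun i ↦ V ⊓ U i) V (fun i ↦ homOfLE inf_le_left) hcover
    (fun i ↦ (sf i).1 ⟨V ⊓ U i, inf_le_right⟩ (X.presheaf.map (homOfLE (inf_le_left)).op a)) ?_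
  intro i j
  have h1 := (sf i).2.1 ⟨(V ⊓ U i) ⊓ (V ⊓ U j), inf_le_left.trans inf_le_right⟩
    ⟨V ⊓ U i, inf_le_right⟩ inf_le_left (X.presheaf.map (homOfLE (inf_le_left)).op a)
  have h2 := (sf j).2.1 ⟨(V ⊓ U i) ⊓ (V ⊓ U j), inf_le_right.trans inf_le_right⟩
    ⟨V ⊓ U j, inf_le_right⟩ inf_le_right (X.presheaf.map (homOfLE (inf_le_left)).op a)
  refine h1.trans (Eq.trans ?_ h2.symm)
  rw [res_res, res_res, hsf i j]

/-- the glued endomorphism, on sections -/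
noncomputable def glueFun (V : X.Opens) (hV : V ≤ iSup U) (a : Γ(X, V)) : Γ(X, V) :=
  (exists_glue_aux U sf hsf V hV a).choose

lemma glueFun_spec (V : X.Opens) (hV : V ≤ iSup U) (a : Γ(X, V)) (i : ι) :
    X.presheaf.map (homOfLE (inf_le_left : V ⊓ U i ≤ V)).op (glueFun U sf hsf V hV a) =
      (sf i).1 ⟨V ⊓ U i, inf_le_right⟩ (X.presheaf.map (homOfLE (inf_le_left)).op a) :=
  (exists_glue_aux U sf hsf V hV a).choose_spec.1 i

lemma glueFun_ext (V : X.Opens) (hV : V ≤ iSup U) (s t : Γ(X, V))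
    (H : ∀ i, X.presheaf.map (homOfLE (inf_le_left : V ⊓ U i ≤ V)).op s =
      X.presheaf.map (homOfLE (inf_le_left : V ⊓ U i ≤ V)).op t) : s = t := by
  refine section_ext (fun i ↦ V ⊓ U i) (fun i ↦ inf_le_left) ?_ s t H
  rw [← inf_iSup_eq]
  exact le_inf le_rfl hV

lemma glueFun_map (V W : X.Opens) (hW : W ≤ iSup U) (h : V ≤ W) (a : Γ(X, W)) :
    X.presheaf.map (homOfLE h).op (glueFun U sf hsf W hW a) =
      glueFun U sf hsf V (h.trans hW) (X.presheaf.map (homOfLE h).op a) := by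
  apply glueFun_ext U V (h.trans hW)
  intro i
  rw [glueFun_spec, res_res, res_res]
  have h1 := (sf i).2.1 ⟨V ⊓ U i, inf_le_right⟩ ⟨W ⊓ U i, inf_le_right⟩
    (inf_le_inf_right _ h) (X.presheaf.map (homOfLE (inf_le_left)).op a)
  rw [← glueFun_spec U sf hsf W hW a i, res_res, res_res] at h1
  exact h1

/-- gluing of a compatible family of endomorphisms -/
noncomputable def glueDOp : DOp X q (iSup U) := by
  refine ⟨fun V ↦ ⟨⟨glueFun U sf hsf V.1 V.2, ?_⟩, ?_⟩, ?_, ?_⟩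
  · apply glueFun_ext U V.1 V.2
    intro i
    rw [glueFun_spec]
    simp
  · intro a b
    apply glueFun_ext U V.1 V.2
    intro i
    simp only
    rw [map_add, glueFun_spec, glueFun_spec, glueFun_spec, map_add, map_add]
  · intro V W h a
    exact glueFun_map U sf hsf V.1 W.1 W.2 h a
  · intro V a b
    apply glueFun_ext U V.1 V.2
    intro i
    simp only [AddMonoidHom.coe_mk, ZeroHom.coe_mk]
    rw [map_mul, glueFun_spec, glueFun_spec, map_mul, map_pow]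
    exact (sf i).2.2 _ _ _

lemma glueDOp_spec (i : ι) (V : X.Opens) (hV : V ≤ U i) :
    (glueDOp U sf hsf).1 ⟨V, hV.trans (le_iSup U i)⟩ = (sf i).1 ⟨V, hV⟩ := by
  ext a
  change glueFun U sf hsf V (hV.trans (le_iSup U i)) a = _
  have e : V ⊓ U i = V := inf_eq_left.mpr hV
  apply glueFun_ext U V (hV.trans (le_iSup U i))
  intro j
  rw [glueFun_spec, hsf j i (V ⊓ U j) inf_le_right (inf_le_left.trans hV)]
  exact ((sf i).2.1 ⟨V ⊓ U j, inf_le_left.trans hV⟩ ⟨V, hV⟩ inf_le_left a).symm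

end glue

variable (X q)

theorem isSheaf_DPresheaf : (DPresheaf X q).IsSheaf := by
  rw [TopCat.Presheaf.isSheaf_iff_isSheafUniqueGluing]
  intro ι U sf hsf
  have hsf' : ∀ i j (V : X.Opens) (hi : V ≤ U i) (hj : V ≤ U j),
      (sf i).1 ⟨V, hi⟩ = (sf j).1 ⟨V, hj⟩ := by
    intro i j V hi hj
    have := congr_arg (fun z ↦ z.1 ⟨V, le_inf hi hj⟩) (hsf i j)
    exact this
  refine ⟨glueDOp U sf hsf', ?_, ?_⟩
  · intro i
    apply Subtype.ext
    funext V
    exact glueDOp_spec U sf hsf' i V.1 V.2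
  · intro t ht
    apply Subtype.ext
    funext V
    ext a
    apply glueFun_ext U V.1 V.2
    intro i
    have h1 := congr_arg (fun z ↦ z.1 ⟨V.1 ⊓ U i, inf_le_right⟩) (ht i)
    have h2 := glueDOp_spec U sf hsf' i (V.1 ⊓ U i) inf_le_right
    have h3 := (glueDOp U sf hsf').2.1 ⟨V.1 ⊓ U i, inf_le_right.trans (le_iSup U i)⟩ V inf_le_left a
    have h4 := t.2.1 ⟨V.1 ⊓ U i, inf_le_right.trans (le_iSup U i)⟩ V inf_le_left a
    rw [h3, h4, h2]
    change t.1 ⟨V.1 ⊓ U i, _⟩ _ = _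
    exact congr_arg (fun z : Γ(X, V.1 ⊓ U i) →+ Γ(X, V.1 ⊓ U i) ↦
      z (X.presheaf.map (homOfLE inf_le_left).op a)) h1

end Pool.Agent.Helper72
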