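import Mathlib
import Pool.Agent.Helper72.DOpGlue

open AlgebraicGeometry CategoryTheory TopologicalSpace Opposite

universe u

namespace Pool.Agent.Helper72

variable (X : Scheme.{u}) (q : ℕ)

/-- The sheaf of abelian groups on `X` whose sections over `U` are the additive endomorphisms of
`𝒪_X|_U` that are linear over `q`-th powers. -/
def DSheaf : Sheaf (Opens.grothendieckTopology X) AddCommGrpCat.{u} :=
  ⟨DPresheaf X q, isSheaf_DPresheaf X q⟩

variable {X q}

/-- An endomorphism linear over `q`-th powers is linear over `q'`-th powers if `q ∣ q'`. -/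
def DOp.incl {q' : ℕ} (h : q ∣ q') (U : X.Opens) : DOp X q U →+ DOp X q' U where
  toFun φ := ⟨φ.1, φ.2.1, fun V a b ↦ by
    obtain ⟨t, rfl⟩ := h
    rw [mul_comm q t, pow_mul]
    exact φ.2.2 V (a ^ t) b⟩
  map_zero' := rfl
  map_add' _ _ := rfl

/-- The inclusion of sheaves. -/
def DSheaf.incl {q' : ℕ} (h : q ∣ q') : DSheaf X q ⟶ DSheaf X q' where
  hom :=
    { app U := AddCommGrpCat.ofHom (DOp.incl h U.unop)
      naturality _ _ _ := rfl }

/-- A scheme `X` (of characteristic `p`) is globally `F`-split: the map `𝒪_X → F_* 𝒪_X` has an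
`𝒪_X`-linear splitting `φ : F_* 𝒪_X → 𝒪_X`.  As `F` is the identity on the underlying space and
raises functions to the `p`-th power, `φ` is a family of additive maps `Γ(X, V) → Γ(X, V)`,
compatible with restriction, such that `φ (a ^ p * b) = a * φ b` and `φ 1 = 1`. -/
def IsFSplit (X : Scheme.{u}) (p : ℕ) : Prop :=
  ∃ φ : ∀ V : X.Opens, Γ(X, V) →+ Γ(X, V),
    (∀ (V W : X.Opens) (h : V ≤ W) (a : Γ(X, W)),
      X.presheaf.map (homOfLE h).op (φ W a) = φ V (X.presheaf.map (homOfLE h).op a)) ∧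
    (∀ (V : X.Opens) (a b : Γ(X, V)), φ V (a ^ p * b) = a * φ V b) ∧
    (∀ V : X.Opens, φ V 1 = 1)

end Pool.Agent.Helper72
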