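import Mathlib
import Pool.Agent.Helper72.DDefs

open AlgebraicGeometry CategoryTheory TopologicalSpace Opposite

universe u

namespace Pool.Agent.Helper72

variable {X : Scheme.{u}} {q : ℕ}

lemma DSheaf.incl_comp {q' q'' : ℕ} (h : q ∣ q') (h' : q' ∣ q'') :
    DSheaf.incl (X := X) (h.trans h') = DSheaf.incl h ≫ DSheaf.incl h' := rfl

instance {q' : ℕ} (h : q ∣ q') : Mono (DSheaf.incl (X := X) h) := by
  have : Mono ((sheafToPresheaf _ _).map (DSheaf.incl (X := X) h)) := by
    rw [NatTrans.mono_iff_mono_app]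
    intro U
    rw [AddCommGrpCat.mono_iff_injective]
    intro a b hab
    exact Subtype.ext (congr_arg (fun z ↦ z.1) hab)
  exact (sheafToPresheaf _ _).mono_of_mono_map this

end Pool.Agent.Helper72
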