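import Mathlib

universe u

namespace Pool.Agent.Helper72

section

variable {Λ L : Type*} [CommRing Λ] [Field L] [Algebra Λ L] [IsFractionRing Λ L]
  (T : Λ →+ Λ) {q r : ℕ} (hq : 0 < q) (hT : ∀ a b, T (a ^ q * b) = a ^ r * T b)

/-- extension of a power-linear operator to the field of fractions (function) -/
noncomputable def extFun (q r : ℕ) (z : L) : L :=
  algebraMap Λ L (T ((IsLocalization.sec (nonZeroDivisors Λ) z).1 *
    ((IsLocalization.sec (nonZeroDivisors Λ) z).2 : Λ) ^ (q - 1))) /
    (algebraMap Λ L (IsLocalization.sec (nonZeroDivisors Λ) z).2) ^ r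

include hq hT in
lemma extFun_eq (a b : Λ) (hb : b ≠ 0) (z : L) (hz : z * algebraMap Λ L b = algebraMap Λ L a) :
    extFun T q r z = algebraMap Λ L (T (a * b ^ (q - 1))) / (algebraMap Λ L b) ^ r := by
  have hΛ : IsDomain Λ := (IsFractionRing.injective Λ L).isDomain (algebraMap Λ L)
  have inj := IsFractionRing.injective Λ L
  set c := (IsLocalization.sec (nonZeroDivisors Λ) z).1 with hc
  set d := ((IsLocalization.sec (nonZeroDivisors Λ) z).2 : Λ) with hd
  have hd0 : d ≠ 0 := nonZeroDivisors.coe_ne_zero _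
  have hz2 : z * algebraMap Λ L d = algebraMap Λ L c := IsLocalization.sec_spec _ z
  have hb' : algebraMap Λ L b ≠ 0 := (map_ne_zero_iff _ inj).mpr hb
  have hd' : algebraMap Λ L d ≠ 0 := (map_ne_zero_iff _ inj).mpr hd0
  have key : a * d = b * c := by
    apply inj
    rw [map_mul, map_mul, ← hz, ← hz2]
    ring
  change algebraMap Λ L (T (c * d ^ (q - 1))) / (algebraMap Λ L d) ^ r = _
  rw [div_eq_div_iff (pow_ne_zero _ hd') (pow_ne_zero _ hb'), ← map_pow, ← map_pow, ← map_mul,
    ← map_mul, mul_comm _ (b ^ r), mul_comm _ (d ^ r), ← hT, ← hT]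
  congr 2
  obtain ⟨n, rfl⟩ : ∃ n, q = n + 1 := ⟨q - 1, by omega⟩
  simp only [Nat.add_sub_cancel]
  calc b ^ (n + 1) * (c * d ^ n) = b ^ n * (b * c) * d ^ n := by ring
    _ = b ^ n * (a * d) * d ^ n := by rw [key]
    _ = d ^ (n + 1) * (a * b ^ n) := by ring

/-- extension of a power-linear operator to the field of fractions -/
noncomputable def extHom : L →+ L where
  toFun := extFun T q r
  map_zero' := by
    have hΛ : IsDomain Λ := (IsFractionRing.injective Λ L).isDomain (algebraMap Λ L)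
    rw [extFun_eq T hq hT 0 1 one_ne_zero 0 (by simp)]
    simp
  map_add' z w := by
    have hΛ : IsDomain Λ := (IsFractionRing.injective Λ L).isDomain (algebraMap Λ L)
    have inj := IsFractionRing.injective Λ L
    obtain ⟨a, b, hb, rfl⟩ := IsFractionRing.div_surjective (A := Λ) z
    obtain ⟨c, d, hd, rfl⟩ := IsFractionRing.div_surjective (A := Λ) w
    have hb0 : b ≠ 0 := nonZeroDivisors.ne_zero hb
    have hd0 : d ≠ 0 := nonZeroDivisors.ne_zero hd
    have hb' : algebraMap Λ L b ≠ 0 := (map_ne_zero_iff _ inj).mpr hb0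
    have hd' : algebraMap Λ L d ≠ 0 := (map_ne_zero_iff _ inj).mpr hd0
    rw [extFun_eq T hq hT (a * d + b * c) (b * d) (mul_ne_zero hb0 hd0) _ (by
        rw [map_add, map_mul, map_mul, map_mul]
        field_simp),
      extFun_eq T hq hT (a * d) (b * d) (mul_ne_zero hb0 hd0) (algebraMap Λ L a / algebraMap Λ L b)
        (by
        rw [map_mul, map_mul]
        field_simp),
      extFun_eq T hq hT (b * c) (b * d) (mul_ne_zero hb0 hd0) (algebraMap Λ L c / algebraMap Λ L d)
        (by
        rw [map_mul, map_mul]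
        field_simp), ← add_div, ← map_add, ← map_add, add_mul]

lemma extHom_algebraMap (a : Λ) :
    extHom (L := L) T hq hT (algebraMap Λ L a) = algebraMap Λ L (T a) := by
  have hΛ : IsDomain Λ := (IsFractionRing.injective Λ L).isDomain (algebraMap Λ L)
  change extFun T q r _ = _
  rw [extFun_eq T hq hT a 1 one_ne_zero _ (by simp)]
  simp

lemma extHom_linear (x y : L) :
    extHom (L := L) T hq hT (x ^ q * y) = x ^ r * extHom (L := L) T hq hT y := by
  have hΛ : IsDomain Λ := (IsFractionRing.injective Λ L).isDomain (algebraMap Λ L)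
  have inj := IsFractionRing.injective Λ L
  obtain ⟨c, d, hd, rfl⟩ := IsFractionRing.div_surjective (A := Λ) x
  obtain ⟨a, b, hb, rfl⟩ := IsFractionRing.div_surjective (A := Λ) y
  have hb0 : b ≠ 0 := nonZeroDivisors.ne_zero hb
  have hd0 : d ≠ 0 := nonZeroDivisors.ne_zero hd
  have hb' : algebraMap Λ L b ≠ 0 := (map_ne_zero_iff _ inj).mpr hb0
  have hd' : algebraMap Λ L d ≠ 0 := (map_ne_zero_iff _ inj).mpr hd0
  change extFun T q r _ = _ * extFun T q r _
  rw [extFun_eq T hq hT (c ^ q * a) (d ^ q * b) (mul_ne_zero (pow_ne_zero _ hd0) hb0) _ (by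
      simp only [map_mul, map_pow, div_pow]
      field_simp),
    extFun_eq T hq hT a b hb0 _ (by field_simp)]
  have e : c ^ q * a * (d ^ q * b) ^ (q - 1) = c ^ q * ((d ^ (q - 1)) ^ q * (a * b ^ (q - 1))) := by
    rw [mul_pow, ← pow_mul, ← pow_mul, mul_comm q (q - 1)]
    ring
  rw [e, hT, hT]
  simp only [map_mul, map_pow]
  rw [mul_pow, ← pow_mul, ← pow_mul, div_pow]
  obtain ⟨n, rfl⟩ : ∃ n, q = n + 1 := ⟨q - 1, by omega⟩
  simp only [Nat.add_sub_cancel]
  field_simp
  ring

end

end Pool.Agent.Helper72
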