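import Mathlib

universe u

open AddMonoidAlgebra

namespace Pool.Agent.Helper72

section

variable {k : Type*} [Field k] {ι : Type*} [AddCommMonoid ι]

open Classical in
/-- the additive operator `r χ^m ↦ σ(r) χ^{s m}` if `c m` holds, and `0` otherwise -/
noncomputable def monOp (c : ι → Prop) (s : ι → ι) (σ : k →+ k) :
    AddMonoidAlgebra k ι →+ AddMonoidAlgebra k ι :=
  (Finsupp.liftAddHom fun m ↦ if c m then
    (AddMonoidAlgebra.singleAddHom (s m)).comp σ else 0).comp
    (AddMonoidAlgebra.coeffAddEquiv (R := k) (M := ι)).toAddMonoidHom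

lemma monOp_single_pos (c : ι → Prop) (s : ι → ι) (σ : k →+ k) (m : ι) (r : k) (h : c m) :
    monOp c s σ (single m r) = single (s m) (σ r) := by
  simp [monOp, h]

lemma monOp_single_neg (c : ι → Prop) (s : ι → ι) (σ : k →+ k) (m : ι) (r : k) (h : ¬ c m) :
    monOp c s σ (single m r) = 0 := by
  simp [monOp, h]

lemma monOp_linear {p : ℕ} [Fact p.Prime] [CharP k p] (e f : ℕ)
    (c : ι → Prop) (s : ι → ι) (σ : k →+ k)
    (hc : ∀ m m', c (p ^ e • m + m') ↔ c m')
    (hs : ∀ m m', c m' → s (p ^ e • m + m') = p ^ f • m + s m')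
    (hσ : ∀ x y, σ (x ^ p ^ e * y) = x ^ p ^ f * σ y) (a b : AddMonoidAlgebra k ι) :
    monOp c s σ (a ^ p ^ e * b) = a ^ p ^ f * monOp c s σ b := by
  have : CharP (AddMonoidAlgebra k ι) p :=
    charP_of_injective_algebraMap (FaithfulSMul.algebraMap_injective k (AddMonoidAlgebra k ι)) p
  induction a using AddMonoidAlgebra.induction_linear with
  | zero => 
    have hp := (Fact.out : p.Prime).pos
    rw [zero_pow (pow_pos hp e).ne', zero_pow (pow_pos hp f).ne']
    simp
  | add x y hx hy =>
    rw [add_pow_char_pow, add_pow_char_pow, add_mul, map_add, hx, hy, add_mul]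
  | single m r =>
    induction b using AddMonoidAlgebra.induction_linear with
    | zero => simp
    | add x y hx hy => rw [mul_add, map_add, hx, hy, map_add, mul_add]
    | single m' r' =>
      rw [single_pow, single_pow, single_mul_single]
      by_cases h : c m'
      · rw [monOp_single_pos _ _ _ _ _ ((hc m m').mpr h), monOp_single_pos _ _ _ _ _ h,
          hs m m' h, hσ, single_mul_single]
      · rw [monOp_single_neg _ _ _ _ _ (fun h' ↦ h ((hc m m').mp h')),
          monOp_single_neg _ _ _ _ _ h, mul_zero]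

end

end Pool.Agent.Helper72
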