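import Mathlib

open AlgebraicGeometry CategoryTheory TopologicalSpace Opposite HomogeneousLocalization

universe u

namespace Pool.Agent.Helper72

section

variable {A : Type u} [CommRing A] {σ : Type*} [SetLike σ A] [AddSubgroupClass σ A]
  (𝒜 : ℕ → σ) [GradedRing 𝒜] {L : Type*} [Field L] (ψ : A →+* L)

/-- the local ring at `x` mapped to `L` -/
noncomputable def toL (hψ : Function.Injective ψ) (x : ProjectiveSpectrum 𝒜) :
    AtPrime 𝒜 x.asHomogeneousIdeal.toIdeal →+* L :=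
  (IsLocalization.lift (M := x.asHomogeneousIdeal.toIdeal.primeCompl)
    (S := Localization x.asHomogeneousIdeal.toIdeal.primeCompl) (g := ψ)
    (fun y ↦ by
      rw [isUnit_iff_ne_zero, map_ne_zero_iff ψ hψ]
      intro h
      exact y.2 (by rw [h]; exact Ideal.zero_mem _))).comp (algebraMap _ _)

variable {𝒜 ψ}
variable (hψ : Function.Injective ψ)

lemma toL_mk (x : ProjectiveSpectrum 𝒜)
    (c : NumDenSameDeg 𝒜 x.asHomogeneousIdeal.toIdeal.primeCompl) :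
    toL 𝒜 ψ hψ x (mk c) = ψ c.num / ψ c.den := by
  have hc : ψ c.den ≠ 0 := by
    rw [map_ne_zero_iff ψ hψ]
    intro h
    exact c.den_mem (by rw [h]; exact Ideal.zero_mem _)
  rw [toL, RingHom.comp_apply, HomogeneousLocalization.algebraMap_apply, val_mk,
    Localization.mk_eq_mk', IsLocalization.lift_mk'_spec, mul_div_cancel₀ _ hc]

lemma toL_injective (x : ProjectiveSpectrum 𝒜) : Function.Injective (toL 𝒜 ψ hψ x) := by
  have : IsDomain A := hψ.isDomain ψ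
  rw [toL, RingHom.coe_comp]
  apply Function.Injective.comp
  · rw [IsLocalization.lift_injective_iff]
    intro a b
    constructor
    · intro h
      rw [IsLocalization.injective _ x.asHomogeneousIdeal.toIdeal.primeCompl_le_nonZeroDivisors h]
    · intro h
      rw [hψ h]
  · exact val_injective _

lemma mem_range_toL_iff (x : ProjectiveSpectrum 𝒜) (z : L) :
    z ∈ (toL 𝒜 ψ hψ x).range ↔ ∃ (N : ℕ) (a b : A), a ∈ 𝒜 N ∧ b ∈ 𝒜 N ∧
      b ∉ x.asHomogeneousIdeal.toIdeal ∧ ψ b ≠ 0 ∧ z * ψ b = ψ a := by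
  constructor
  · rintro ⟨y, rfl⟩
    obtain ⟨c, rfl⟩ := mk_surjective y
    have hc : ψ c.den ≠ 0 := by
      rw [map_ne_zero_iff ψ hψ]
      intro h
      exact c.den_mem (by rw [h]; exact Ideal.zero_mem _)
    refine ⟨c.deg, c.num, c.den, c.num.2, c.den.2, c.den_mem, hc, ?_⟩
    rw [toL_mk, div_mul_cancel₀ _ hc]
  · rintro ⟨N, a, b, ha, hb, hbx, hb0, h⟩
    refine ⟨mk ⟨N, ⟨a, ha⟩, ⟨b, hb⟩, hbx⟩, ?_⟩
    rw [toL_mk]
    simp only
    rw [div_eq_iff hb0, h]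

lemma op_mem_range (x : ProjectiveSpectrum 𝒜) (T : L →+ L) {q r : ℕ} (hq : 0 < q)
    (hlin : ∀ a b : L, T (a ^ q * b) = a ^ r * T b)
    {l : ℕ} (w : A) (hw : w ∈ 𝒜 l) (hwx : w ∉ x.asHomogeneousIdeal.toIdeal)
    (key : ∀ N, ∀ c ∈ 𝒜 (q * N), ∃ c' ∈ 𝒜 (r * N + l), T (ψ c) * ψ w = ψ c')
    (z : L) (hz : z ∈ (toL 𝒜 ψ hψ x).range) : T z ∈ (toL 𝒜 ψ hψ x).range := by
  rw [mem_range_toL_iff] at hz ⊢
  obtain ⟨N, a, b, ha, hb, hbx, hb0, h⟩ := hz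
  have hw0 : ψ w ≠ 0 := by
    rw [map_ne_zero_iff ψ hψ]
    intro h
    exact hwx (by rw [h]; exact Ideal.zero_mem _)
  have hab : a * b ^ (q - 1) ∈ 𝒜 (q * N) := by
    have h1 := SetLike.mul_mem_graded ha (SetLike.pow_mem_graded (q - 1) hb)
    have e : N + (q - 1) • N = q * N := by
      obtain ⟨m, rfl⟩ : ∃ m, q = m + 1 := ⟨q - 1, by omega⟩
      simp only [Nat.add_sub_cancel, smul_eq_mul]
      ring
    rwa [e] at h1
  obtain ⟨c', hc', h2⟩ := key N _ hab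
  refine ⟨r * N + l, c', b ^ r * w, hc', ?_, ?_, ?_, ?_⟩
  · exact SetLike.mul_mem_graded (by simpa using SetLike.pow_mem_graded r hb) hw
  · intro hmem
    rcases x.isPrime.mem_or_mem hmem with h3 | h3
    · exact hbx (x.isPrime.mem_of_pow_mem _ h3)
    · exact hwx h3
  · rw [map_mul, map_pow]
    exact mul_ne_zero (pow_ne_zero _ hb0) hw0
  · have h4 : z = (ψ b)⁻¹ ^ q * ψ (a * b ^ (q - 1)) := by
      rw [map_mul, map_pow, ← h]
      obtain ⟨m, rfl⟩ : ∃ m, q = m + 1 := ⟨q - 1, by omega⟩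
      simp only [Nat.add_sub_cancel, inv_pow]
      field_simp
      ring
    rw [h4, hlin, map_mul ψ (b ^ r) w, map_pow ψ b r, ← h2, inv_pow]
    field_simp

/-- the generic point of `Proj` of a graded domain -/
noncomputable def genPt (𝒜 : ℕ → σ) [GradedRing 𝒜] [IsDomain A] {d : ℕ} (hd : 0 < d) {v : A}
    (hv : v ∈ 𝒜 d) (hv0 : v ≠ 0) : ProjectiveSpectrum 𝒜 where
  asHomogeneousIdeal := ⊥
  isPrime := by
    rw [HomogeneousIdeal.toIdeal_bot]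
    exact Ideal.isPrime_bot
  not_irrelevant_le h := by
    have h1 : v ∈ HomogeneousIdeal.irrelevant 𝒜 := by
      rw [HomogeneousIdeal.mem_irrelevant_iff, GradedRing.proj_apply,
        DirectSum.decompose_of_mem_ne 𝒜 hv hd.ne']
    have h2 : v ∈ (⊥ : HomogeneousIdeal 𝒜) := h h1
    have h3 : v ∈ (⊥ : HomogeneousIdeal 𝒜).toIdeal := h2
    rw [HomogeneousIdeal.toIdeal_bot, Ideal.mem_bot] at h3
    exact hv0 h3


section gen

variable [IsDomain A] {d : ℕ} (hd : 0 < d) {v : A} (hv : v ∈ 𝒜 d) (hv0 : v ≠ 0)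

lemma genPt_mem (V : Opens (ProjectiveSpectrum.top 𝒜)) (x : ProjectiveSpectrum.top 𝒜)
    (hx : x ∈ V) : genPt 𝒜 hd hv hv0 ∈ V := by
  obtain ⟨_, ⟨g, rfl⟩, hg, hgV⟩ :=
    (ProjectiveSpectrum.isTopologicalBasis_basic_opens 𝒜).exists_subset_of_mem_open hx V.2
  apply hgV
  change g ∉ (⊥ : HomogeneousIdeal 𝒜).toIdeal
  rw [HomogeneousIdeal.toIdeal_bot, Ideal.mem_bot]
  rintro rfl
  apply hg
  exact Ideal.zero_mem x.asHomogeneousIdeal.toIdeal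

/-- sections of the structure sheaf over an open set containing the generic point, as elements
of `L` -/
noncomputable def secToL (V : Opens (ProjectiveSpectrum.top 𝒜)) (hV : genPt 𝒜 hd hv hv0 ∈ V) :
    (ProjectiveSpectrum.Proj.structureSheaf 𝒜).1.obj (op V) →+* L :=
  (toL 𝒜 ψ hψ (genPt 𝒜 hd hv hv0)).comp
    { toFun := fun s ↦ s.1 ⟨_, hV⟩
      map_one' := rfl
      map_mul' := fun _ _ ↦ rfl
      map_zero' := rfl
      map_add' := fun _ _ ↦ rfl }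

lemma secToL_eq (V : Opens (ProjectiveSpectrum.top 𝒜)) (hV : genPt 𝒜 hd hv hv0 ∈ V)
    (s : (ProjectiveSpectrum.Proj.structureSheaf 𝒜).1.obj (op V))
    (x : ProjectiveSpectrum.top 𝒜) (hx : x ∈ V) :
    secToL hψ hd hv hv0 V hV s = toL 𝒜 ψ hψ x (s.1 ⟨x, hx⟩) := by
  obtain ⟨W, hxW, i, n, a, b, hb, hab⟩ := s.2 ⟨x, hx⟩
  have hη := genPt_mem hd hv hv0 W x hxW
  have e1 := hab ⟨x, hxW⟩
  have e2 := hab ⟨_, hη⟩
  change toL 𝒜 ψ hψ (genPt 𝒜 hd hv hv0) (s.1 ⟨genPt 𝒜 hd hv hv0, hV⟩) = _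
  have e1' : s.1 ⟨x, hx⟩ = _ := e1
  have e2' : s.1 ⟨genPt 𝒜 hd hv hv0, hV⟩ = _ := e2
  rw [e1', e2']
  exact (toL_mk hψ _ _).trans (toL_mk hψ x ⟨n, a, b, hb ⟨x, hxW⟩⟩).symm

lemma secToL_injective (V : Opens (ProjectiveSpectrum.top 𝒜)) (hV : genPt 𝒜 hd hv hv0 ∈ V) :
    Function.Injective (secToL hψ hd hv hv0 V hV) := by
  intro s t h
  apply Subtype.ext
  funext ⟨x, hx⟩
  apply toL_injective hψ x
  rw [← secToL_eq hψ hd hv hv0 V hV s x hx, ← secToL_eq hψ hd hv hv0 V hV t x hx, h]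

lemma exists_secToL_eq (V : Opens (ProjectiveSpectrum.top 𝒜)) (hV : genPt 𝒜 hd hv hv0 ∈ V)
    (f : L) (hf : ∀ x ∈ V, f ∈ (toL 𝒜 ψ hψ x).range) :
    ∃ s, secToL hψ hd hv hv0 V hV s = f := by
  choose g hg using fun x : V ↦ hf x.1 x.2
  refine ⟨⟨g, ?_⟩, hg ⟨_, hV⟩⟩
  rintro ⟨x, hx⟩
  obtain ⟨c, hc⟩ := mk_surjective (g ⟨x, hx⟩)
  refine ⟨V ⊓ ProjectiveSpectrum.basicOpen 𝒜 c.den, ⟨hx, c.den_mem⟩, Opens.infLELeft _ _,
    c.deg, c.num, c.den, fun y ↦ y.2.2, ?_⟩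
  rintro ⟨y, hy⟩
  apply toL_injective hψ y
  have h1 := hg ⟨y, hy.1⟩
  have h2 : ψ c.num / ψ c.den = f :=
    (toL_mk hψ x c).symm.trans ((congrArg (toL 𝒜 ψ hψ x) hc).trans (hg ⟨x, hx⟩))
  refine h1.trans (h2.symm.trans ?_)
  exact (toL_mk hψ y ⟨c.deg, c.num, c.den, hy.2⟩).symm

/-- `secToL` with the sections written as sections of the scheme `Proj 𝒜` -/
noncomputable def gToL (V : (Proj 𝒜).Opens) (hV : genPt 𝒜 hd hv hv0 ∈ V) :
    Γ(Proj 𝒜, V) →+* L := secToL hψ hd hv hv0 V hV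

lemma gToL_injective (V : (Proj 𝒜).Opens) (hV : genPt 𝒜 hd hv hv0 ∈ V) :
    Function.Injective (gToL hψ hd hv hv0 V hV) := secToL_injective hψ hd hv hv0 V hV

lemma gToL_mem_range (V : (Proj 𝒜).Opens) (hV : genPt 𝒜 hd hv hv0 ∈ V) (s : Γ(Proj 𝒜, V))
    (x : Proj 𝒜) (hx : x ∈ V) : gToL hψ hd hv hv0 V hV s ∈ (toL 𝒜 ψ hψ x).range :=
  ⟨_, (secToL_eq hψ hd hv hv0 V hV s x hx).symm⟩

lemma exists_gToL_eq (V : (Proj 𝒜).Opens) (hV : genPt 𝒜 hd hv hv0 ∈ V)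
    (f : L) (hf : ∀ x ∈ V, f ∈ (toL 𝒜 ψ hψ x).range) :
    ∃ s, gToL hψ hd hv hv0 V hV s = f := exists_secToL_eq hψ hd hv hv0 V hV f hf

lemma gToL_res (V W : (Proj 𝒜).Opens) (h : V ≤ W) (hV : genPt 𝒜 hd hv hv0 ∈ V)
    (s : Γ(Proj 𝒜, W)) :
    gToL hψ hd hv hv0 V hV ((Proj 𝒜).presheaf.map (homOfLE h).op s) =
      gToL hψ hd hv hv0 W (h hV) s := rfl

lemma gsec_ext (V : (Proj 𝒜).Opens) (s t : Γ(Proj 𝒜, V))
    (h : ∀ hV : genPt 𝒜 hd hv hv0 ∈ V,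
      gToL hψ hd hv hv0 V hV s = gToL hψ hd hv hv0 V hV t) : s = t := by
  by_cases hV : genPt 𝒜 hd hv hv0 ∈ V
  · exact gToL_injective hψ hd hv hv0 V hV (h hV)
  · apply Subtype.ext
    funext ⟨x, hx⟩
    exact absurd (genPt_mem hd hv hv0 V x hx) hV

lemma gToL_basicOpen {m : ℕ} {f : A} (hf : f ∈ 𝒜 m) (hm : 0 < m)
    (hV : genPt 𝒜 hd hv hv0 ∈ Proj.basicOpen 𝒜 f) (s : Γ(Proj 𝒜, Proj.basicOpen 𝒜 f)) :
    ∃ (l : ℕ) (a : A), a ∈ 𝒜 (l • m) ∧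
      gToL hψ hd hv hv0 (Proj.basicOpen 𝒜 f) hV s * ψ f ^ l = ψ a := by
  obtain ⟨z, rfl⟩ : ∃ z : CommRingCat.of (Away 𝒜 f), (Proj.basicOpenIsoAway 𝒜 f hf hm).hom z = s := by
    refine ⟨(Proj.basicOpenIsoAway 𝒜 f hf hm).inv s, ?_⟩
    rw [← CategoryTheory.comp_apply, Iso.inv_hom_id]
    rfl
  obtain ⟨l, a, ha, rfl⟩ := Away.mk_surjective 𝒜 hf z
  refine ⟨l, a, ha, ?_⟩
  have hf0 : ψ f ≠ 0 := by
    rw [map_ne_zero_iff ψ hψ]
    rintro rfl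
    exact hV (Ideal.zero_mem _)
  have h1 : gToL hψ hd hv hv0 (Proj.basicOpen 𝒜 f) hV
      ((Proj.basicOpenIsoAway 𝒜 f hf hm).hom (Away.mk 𝒜 hf l a ha)) = ψ a / ψ (f ^ l) := by
    rw [Proj.basicOpenIsoAway_hom]
    exact toL_mk hψ (genPt 𝒜 hd hv hv0) ⟨_, ⟨a, ha⟩, ⟨f ^ l, SetLike.pow_mem_graded l hf⟩, _⟩
  rw [h1, map_pow]
  field_simp

section op

variable (T : L →+ L) (U : (Proj 𝒜).Opens)
  (hT : ∀ x ∈ U, ∀ z ∈ (toL 𝒜 ψ hψ x).range, T z ∈ (toL 𝒜 ψ hψ x).range)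

include hT in
lemma exists_op (V : (Proj 𝒜).Opens) (hVU : V ≤ U) (hV : genPt 𝒜 hd hv hv0 ∈ V)
    (s : Γ(Proj 𝒜, V)) :
    ∃ t : Γ(Proj 𝒜, V), gToL hψ hd hv hv0 V hV t = T (gToL hψ hd hv hv0 V hV s) := by
  apply exists_gToL_eq
  intro x hx
  apply hT x (hVU hx)
  exact gToL_mem_range hψ hd hv hv0 V hV s x hx

open Classical in
/-- the operator induced by `T` on sections -/
noncomputable def opFun (V : (Proj 𝒜).Opens) (hVU : V ≤ U) (s : Γ(Proj 𝒜, V)) : Γ(Proj 𝒜, V) :=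
  if hV : genPt 𝒜 hd hv hv0 ∈ V then (exists_op hψ hd hv hv0 T U hT V hVU hV s).choose else 0

lemma opFun_spec (V : (Proj 𝒜).Opens) (hVU : V ≤ U) (hV : genPt 𝒜 hd hv hv0 ∈ V)
    (s : Γ(Proj 𝒜, V)) :
    gToL hψ hd hv hv0 V hV (opFun hψ hd hv hv0 T U hT V hVU s) =
      T (gToL hψ hd hv hv0 V hV s) := by
  rw [opFun, dif_pos hV]
  exact (exists_op hψ hd hv hv0 T U hT V hVU hV s).choose_spec

/-- the operator induced by `T` on sections, as an additive map -/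
noncomputable def opHom (V : (Proj 𝒜).Opens) (hVU : V ≤ U) : Γ(Proj 𝒜, V) →+ Γ(Proj 𝒜, V) where
  toFun := opFun hψ hd hv hv0 T U hT V hVU
  map_zero' := by
    apply gsec_ext hψ hd hv hv0 V
    intro hV
    rw [opFun_spec, map_zero, map_zero]
  map_add' s t := by
    apply gsec_ext hψ hd hv hv0 V
    intro hV
    rw [opFun_spec, map_add, map_add, map_add, opFun_spec, opFun_spec]

lemma opHom_spec (V : (Proj 𝒜).Opens) (hVU : V ≤ U) (hV : genPt 𝒜 hd hv hv0 ∈ V)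
    (s : Γ(Proj 𝒜, V)) :
    gToL hψ hd hv hv0 V hV (opHom hψ hd hv hv0 T U hT V hVU s) =
      T (gToL hψ hd hv hv0 V hV s) := opFun_spec hψ hd hv hv0 T U hT V hVU hV s

lemma opHom_res (V W : (Proj 𝒜).Opens) (h : V ≤ W) (hW : W ≤ U) (s : Γ(Proj 𝒜, W)) :
    (Proj 𝒜).presheaf.map (homOfLE h).op (opHom hψ hd hv hv0 T U hT W hW s) =
      opHom hψ hd hv hv0 T U hT V (h.trans hW) ((Proj 𝒜).presheaf.map (homOfLE h).op s) := by
  apply gsec_ext hψ hd hv hv0 V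
  intro hV
  rw [gToL_res, opHom_spec, opHom_spec, gToL_res]

lemma opHom_linear {q r : ℕ} (hqr : ∀ a b : L, T (a ^ q * b) = a ^ r * T b)
    (V : (Proj 𝒜).Opens) (hVU : V ≤ U) (a b : Γ(Proj 𝒜, V)) :
    opHom hψ hd hv hv0 T U hT V hVU (a ^ q * b) =
      a ^ r * opHom hψ hd hv hv0 T U hT V hVU b := by
  apply gsec_ext hψ hd hv hv0 V
  intro hV
  rw [opHom_spec, map_mul, map_pow, hqr, map_mul, map_pow, opHom_spec]

end op

end gen

end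

end Pool.Agent.Helper72
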