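import Mathlib
import Pool.Agent.Helper72.MonOp
import Pool.Agent.Helper72.ExtOp
import Pool.Agent.Helper72.ProjOps
import Pool.Agent.Helper72.DOp

open AlgebraicGeometry CategoryTheory TopologicalSpace Opposite HomogeneousLocalization
open AddMonoidAlgebra

universe u

namespace Pool.Agent.Helper72

/-- the monoid of lattice points `(i, j, d)` with `0 ≤ j ≤ d` and `0 ≤ i ≤ d + n j`: exponents of
the homogeneous coordinate ring of the Hirzebruch surface `F_n` embedded as a rational scroll -/
def hM (n : ℕ) : AddSubmonoid (ℤ × ℤ × ℕ) where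
  carrier := {m | 0 ≤ m.2.1 ∧ m.2.1 ≤ m.2.2 ∧ 0 ≤ m.1 ∧ m.1 ≤ m.2.2 + n * m.2.1}
  zero_mem' := by simp
  add_mem' := by
    rintro ⟨i, j, d⟩ ⟨i', j', d'⟩ ⟨h1, h2, h3, h4⟩ ⟨h5, h6, h7, h8⟩
    simp only [Prod.mk_add_mk, Set.mem_ofPred_eq, Nat.cast_add] at *
    refine ⟨by omega, by omega, by omega, by linarith⟩

lemma mem_hM {n : ℕ} {i j : ℤ} {d : ℕ} :
    (i, j, d) ∈ hM n ↔ 0 ≤ j ∧ j ≤ d ∧ 0 ≤ i ∧ i ≤ d + n * j := Iff.rfl

/-- the degree map -/
def hdeg (n : ℕ) : hM n →+ ℕ where
  toFun m := m.1.2.2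
  map_zero' := rfl
  map_add' _ _ := rfl

/-- embedding of exponents -/
def hincl (n : ℕ) : hM n →+ ℤ × ℤ × ℤ where
  toFun m := (m.1.1, m.1.2.1, (m.1.2.2 : ℤ))
  map_zero' := rfl
  map_add' _ _ := by simp

lemma hincl_injective (n : ℕ) : Function.Injective (hincl n) := by
  rintro ⟨⟨i, j, d⟩, hm⟩ ⟨⟨i', j', d'⟩, hm'⟩ h
  simp only [hincl, AddMonoidHom.coe_mk, ZeroHom.coe_mk, Prod.mk.injEq, Nat.cast_inj] at h
  obtain ⟨rfl, rfl, rfl⟩ := h
  rfl

section

variable (k : Type u) [Field k] (n : ℕ)

/-- Laurent polynomials in three variables -/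
abbrev Lau := AddMonoidAlgebra k (ℤ × ℤ × ℤ)

/-- the homogeneous coordinate ring of the Hirzebruch surface `F_n` -/
abbrev HR := AddMonoidAlgebra k (hM n)

/-- its grading -/
abbrev hG : ℕ → Submodule k (HR k n) := gradeBy k (hdeg n)

/-- the embedding of the coordinate ring into the field of rational functions -/
noncomputable def hψ₀ : HR k n →+* Lau k := mapDomainRingHom k (hincl n)

noncomputable def hψ : HR k n →+* FractionRing (Lau k) :=
  (algebraMap (Lau k) (FractionRing (Lau k))).comp (hψ₀ k n)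

lemma hψ₀_injective : Function.Injective (hψ₀ k n) :=
  mapDomain_injective (hincl_injective n)

lemma hψ_injective : Function.Injective (hψ k n) :=
  (IsFractionRing.injective (Lau k) (FractionRing (Lau k))).comp (hψ₀_injective k n)

instance : IsDomain (HR k n) := (hψ_injective k n).isDomain (hψ k n)

@[simp] lemma hψ₀_single (m : hM n) (r : k) :
    hψ₀ k n (single m r) = single (hincl n m) r := by
  simp [hψ₀]

lemma grade_induction {M : Type*} (f : M → ℕ) (N : ℕ) (P : AddMonoidAlgebra k M → Prop)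
    (h0 : P 0) (hadd : ∀ a b, P a → P b → P (a + b))
    (hs : ∀ (m : M) (r : k), f m = N → P (single m r))
    (a : AddMonoidAlgebra k M) (ha : a ∈ gradeBy k f N) : P a := by
  rw [← sum_coeff_single a]
  refine Finset.sum_induction _ P hadd h0 ?_
  intro m hm
  exact hs m _ (ha m hm)

lemma monOp_key {p : ℕ} [Fact p.Prime] [CharP k p] (e f : ℕ) (hq : 0 < p ^ e)
    (c : ℤ × ℤ × ℤ → Prop) (s : ℤ × ℤ × ℤ → ℤ × ℤ × ℤ) (σ : k →+ k)
    (hlin : ∀ a b, monOp c s σ (a ^ p ^ e * b) = a ^ p ^ f * monOp c s σ b)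
    (w : hM n)
    (hw : ∀ (N : ℕ) (m : hM n), hdeg n m = p ^ e * N → c (hincl n m) →
      ∃ m' : hM n, hincl n m' = s (hincl n m) + hincl n w ∧ hdeg n m' = p ^ f * N + hdeg n w)
    (N : ℕ) (a : HR k n) (ha : a ∈ hG k n (p ^ e * N)) :
    ∃ a' ∈ hG k n (p ^ f * N + hdeg n w),
      extHom (L := FractionRing (Lau k)) (monOp c s σ) hq hlin (hψ k n a) *
        hψ k n (single w 1) = hψ k n a' := by
  refine grade_induction k (hdeg n) (p ^ e * N) (fun a ↦ ∃ a' ∈ hG k n (p ^ f * N + hdeg n w),
      extHom (L := FractionRing (Lau k)) (monOp c s σ) hq hlin (hψ k n a) *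
        hψ k n (single w 1) = hψ k n a') ?_ ?_ ?_ a ha
  · exact ⟨0, Submodule.zero_mem _, by simp⟩
  · rintro x y ⟨x', hx', hx⟩ ⟨y', hy', hy⟩
    exact ⟨x' + y', Submodule.add_mem _ hx' hy', by rw [map_add, map_add, add_mul, hx, hy, map_add]⟩
  · intro m r hm
    by_cases hc : c (hincl n m)
    · obtain ⟨m', hm', hd⟩ := hw N m hm hc
      refine ⟨single m' (σ r), hd ▸ single_mem_gradeBy _ _ _, ?_⟩
      simp only [hψ, RingHom.comp_apply, hψ₀_single]
      rw [extHom_algebraMap, monOp_single_pos _ _ _ _ _ hc, ← map_mul, single_mul_single,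
        hm', mul_one]
    · refine ⟨0, Submodule.zero_mem _, ?_⟩
      simp only [hψ, RingHom.comp_apply, hψ₀_single]
      rw [extHom_algebraMap, monOp_single_neg _ _ _ _ _ hc]
      simp

/-- a monomial operator preserves the local ring at a point where `χ^w` does not vanish -/
lemma monOp_mem_range {p : ℕ} [Fact p.Prime] [CharP k p] (e f : ℕ) (hq : 0 < p ^ e)
    (c : ℤ × ℤ × ℤ → Prop) (s : ℤ × ℤ × ℤ → ℤ × ℤ × ℤ) (σ : k →+ k)
    (hlin : ∀ a b, monOp c s σ (a ^ p ^ e * b) = a ^ p ^ f * monOp c s σ b)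
    (w : hM n)
    (hw : ∀ (N : ℕ) (m : hM n), hdeg n m = p ^ e * N → c (hincl n m) →
      ∃ m' : hM n, hincl n m' = s (hincl n m) + hincl n w ∧ hdeg n m' = p ^ f * N + hdeg n w)
    (x : ProjectiveSpectrum (hG k n)) (hx : single w 1 ∉ x.asHomogeneousIdeal.toIdeal)
    (z : FractionRing (Lau k)) (hz : z ∈ (toL (hG k n) (hψ k n) (hψ_injective k n) x).range) :
    extHom (L := FractionRing (Lau k)) (monOp c s σ) hq hlin z ∈
      (toL (hG k n) (hψ k n) (hψ_injective k n) x).range :=
  op_mem_range (hψ_injective k n) x _ hq (extHom_linear _ hq hlin) (single w 1)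
    (single_mem_gradeBy _ _ _) hx (monOp_key k n e f hq c s σ hlin w hw) z hz

lemma single_pow_mem {w : hM n} {l : ℕ} (x : ProjectiveSpectrum (hG k n))
    (hx : (single w 1 : HR k n) ∉ x.asHomogeneousIdeal.toIdeal) :
    (single (l • w) 1 : HR k n) ∉ x.asHomogeneousIdeal.toIdeal := by
  intro h
  have : (single (l • w) 1 : HR k n) = single w 1 ^ l := by
    rw [single_pow, one_pow]
  rw [this] at h
  exact hx (x.isPrime.mem_of_pow_mem _ h)

/-- the four vertices -/
def v00 : hM n := ⟨(0, 0, 1), by rw [mem_hM]; simp⟩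
/-- the four vertices -/
def v10 : hM n := ⟨(1, 0, 1), by rw [mem_hM]; simp⟩
/-- the four vertices -/
def v01 : hM n := ⟨(0, 1, 1), by rw [mem_hM]; simp; omega⟩
/-- the four vertices -/
def v11 : hM n := ⟨(n + 1, 1, 1), by rw [mem_hM]; refine ⟨by simp, by simp, by omega, by simp [add_comm]⟩⟩

lemma exists_vertex (x : ProjectiveSpectrum (hG k n)) :
    (single (v00 n) 1 : HR k n) ∉ x.asHomogeneousIdeal.toIdeal ∨
    (single (v10 n) 1 : HR k n) ∉ x.asHomogeneousIdeal.toIdeal ∨
    (single (v01 n) 1 : HR k n) ∉ x.asHomogeneousIdeal.toIdeal ∨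
    (single (v11 n) 1 : HR k n) ∉ x.asHomogeneousIdeal.toIdeal := by
  by_contra hcon
  push Not at hcon
  obtain ⟨h00, h10, h01, h11⟩ := hcon
  have key : ∀ m : hM n, 0 < hdeg n m →
      (single m 1 : HR k n) ∈ x.asHomogeneousIdeal.toIdeal := by
    intro m hm
    -- it suffices to find a multiple of `m` which is a vertex plus an element of the monoid
    have aux : ∀ (N : ℕ) (v m' : hM n), N • m = v + m' →
        (single v 1 : HR k n) ∈ x.asHomogeneousIdeal.toIdeal →
        (single m 1 : HR k n) ∈ x.asHomogeneousIdeal.toIdeal := by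
      intro N v m' h hv
      have h1 : (single m 1 : HR k n) ^ N = single v 1 * single m' 1 := by
        rw [single_pow, one_pow, single_mul_single, h, one_mul]
      refine x.isPrime.mem_of_pow_mem N ?_
      rw [h1]
      exact Ideal.mul_mem_right _ _ hv
    obtain ⟨⟨i, j, d⟩, hmem⟩ := m
    have hd : 0 < d := hm
    have hmem' := hmem
    rw [mem_hM] at hmem'
    obtain ⟨a1, a2, a3, a4⟩ := hmem'
    rcases eq_or_lt_of_le a1 with hj | hj
    · subst hj
      rcases eq_or_lt_of_le a3 with hi | hi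
      · subst hi
        refine aux 1 (v00 n) ⟨(0, 0, d - 1), ?_⟩ ?_ h00
        · rw [mem_hM]; refine ⟨by simp, by simp, by simp, by simp⟩
        · apply Subtype.ext
          simp only [v00, one_smul, AddSubmonoid.coe_add, Prod.mk_add_mk]
          refine Prod.ext (by simp) (Prod.ext (by simp) ?_)
          simp only
          omega
      · refine aux 1 (v10 n) ⟨(i - 1, 0, d - 1), ?_⟩ ?_ h10
        · rw [mem_hM]; refine ⟨by simp, by simp, by omega, ?_⟩
          push_cast [Nat.cast_sub hd]
          simp at a4 ⊢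
          omega
        · apply Subtype.ext
          simp only [v10, one_smul, AddSubmonoid.coe_add, Prod.mk_add_mk]
          refine Prod.ext (by simp) (Prod.ext (by simp) ?_)
          simp only
          omega
    · rcases eq_or_lt_of_le a3 with hi | hi
      · subst hi
        refine aux 1 (v01 n) ⟨(0, j - 1, d - 1), ?_⟩ ?_ h01
        · rw [mem_hM]
          refine ⟨by omega, by omega, by simp, ?_⟩
          have : 0 ≤ (n : ℤ) * (j - 1) := mul_nonneg (by positivity) (by omega)
          omega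
        · apply Subtype.ext
          simp only [v01, one_smul, AddSubmonoid.coe_add, Prod.mk_add_mk]
          refine Prod.ext (by simp) (Prod.ext (by simp) ?_)
          simp only
          omega
      · refine aux (n + 1) (v11 n) ⟨((n + 1) * i - (n + 1), (n + 1) * j - 1, (n + 1) * d - 1), ?_⟩
          ?_ h11
        · rw [mem_hM]
          have e1 : (1 : ℤ) ≤ (n + 1) * d := by
            have : (0 : ℤ) < (n + 1) * d := by positivity
            omega
          have e2 : (((n + 1) * d - 1 : ℕ) : ℤ) = (n + 1) * d - 1 := by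
            rw [Nat.cast_sub (by exact_mod_cast e1)]
            push_cast
            ring
          rw [e2]
          refine ⟨?_, ?_, ?_, ?_⟩
          · nlinarith
          · nlinarith
          · nlinarith
          · nlinarith
        · apply Subtype.ext
          simp only [v11, AddSubmonoid.coe_add, Prod.mk_add_mk]
          refine Prod.ext (by simp) (Prod.ext (by simp) ?_)
          have : 0 < (n + 1) * d := by positivity
          simp
          omega
  apply x.not_irrelevant_le
  intro a ha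
  rw [HomogeneousIdeal.mem_irrelevant_iff, GradedRing.proj_apply] at ha
  have h2 : a ∈ x.asHomogeneousIdeal.toIdeal := by
    classical
    rw [← DirectSum.sum_support_decompose (hG k n) a]
    refine Ideal.sum_mem _ fun N hN ↦ ?_
    have hN0 : 0 < N := by
      rw [Nat.pos_iff_ne_zero]
      rintro rfl
      rw [DFinsupp.mem_support_iff] at hN
      exact hN (Subtype.ext ha)
    refine grade_induction k (hdeg n) N (fun a ↦ a ∈ x.asHomogeneousIdeal.toIdeal)
      (Ideal.zero_mem _) (fun a b ↦ Ideal.add_mem _) ?_ _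
      (DirectSum.decompose (hG k n) a N).2
    intro m r hm
    have : (single m r : HR k n) = single 0 r * single m 1 := by
      rw [single_mul_single, zero_add, mul_one]
    rw [this]
    exact Ideal.mul_mem_left _ _ (key m (by rw [hm]; exact hN0))
  exact h2

end

end Pool.Agent.Helper72
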