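import Mathlib
import Pool.Agent.Helper72.Hirz

open AlgebraicGeometry CategoryTheory TopologicalSpace Opposite HomogeneousLocalization
open AddMonoidAlgebra

universe u

namespace Pool.Agent.Helper72

section split

variable (k : Type u) [Field k] (n : ℕ) (p : ℕ) [hp : Fact p.Prime] [CharP k p] [PerfectRing k p]

/-- condition for the Frobenius splitting -/
def fsC (m : ℤ × ℤ × ℤ) : Prop := (p : ℤ) ∣ m.1 ∧ (p : ℤ) ∣ m.2.1 ∧ (p : ℤ) ∣ m.2.2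

/-- exponent map for the Frobenius splitting -/
def fsS (m : ℤ × ℤ × ℤ) : ℤ × ℤ × ℤ := (m.1 / p, m.2.1 / p, m.2.2 / p)

/-- the inverse of Frobenius -/
noncomputable def fsσ : k →+ k := ((frobeniusEquiv k p).symm : k →+* k).toAddMonoidHom

lemma fs_linear (a b : Lau k) :
    monOp (fsC p) (fsS p) (fsσ k p) (a ^ p ^ 1 * b) =
      a ^ p ^ 0 * monOp (fsC p) (fsS p) (fsσ k p) b := by
  have hp0 : (p : ℤ) ≠ 0 := by exact_mod_cast hp.out.ne_zero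
  apply monOp_linear
  · rintro ⟨i, j, d⟩ ⟨i', j', d'⟩
    simp [fsC, dvd_add_right]
  · rintro ⟨i, j, d⟩ ⟨i', j', d'⟩ -
    simp [fsS, Int.add_ediv_of_dvd_left, Int.mul_ediv_cancel_left _ hp0]
  · intro x y
    simp only [fsσ, pow_one, pow_zero]
    change (frobeniusEquiv k p).symm (x ^ p * y) = x * (frobeniusEquiv k p).symm y
    rw [map_mul]
    congr 1
    rw [RingEquiv.symm_apply_eq]
    rfl

lemma fs_hv (N : ℕ) (m : hM n) (hm : hdeg n m = p ^ 1 * N) (hc : fsC p (hincl n m)) :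
    ∃ m' : hM n, hincl n m' = fsS p (hincl n m) + hincl n 0 ∧
      hdeg n m' = p ^ 0 * N + hdeg n 0 := by
  have hp0 : 0 < (p : ℤ) := by exact_mod_cast hp.out.pos
  obtain ⟨⟨i, j, d⟩, hmem⟩ := m
  obtain ⟨⟨i', hi⟩, ⟨j', hj⟩, -⟩ := hc
  simp only [hincl, AddMonoidHom.coe_mk, ZeroHom.coe_mk] at hi hj
  have hd : d = p * N := by simpa [hdeg] using hm
  subst hi hj hd
  rw [mem_hM] at hmem
  obtain ⟨h1, h2, h3, h4⟩ := hmem
  push_cast at h2 h4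
  refine ⟨⟨(i', j', N), ?_⟩, ?_, ?_⟩
  · rw [mem_hM]
    refine ⟨?_, ?_, ?_, ?_⟩
    · exact nonneg_of_mul_nonneg_right h1 hp0
    · exact le_of_mul_le_mul_left h2 hp0
    · exact nonneg_of_mul_nonneg_right h3 hp0
    · refine le_of_mul_le_mul_left (a := (p : ℤ)) ?_ hp0
      calc (p : ℤ) * i' ≤ p * N + n * (p * j') := h4
        _ = p * (N + n * j') := by ring
  · simp [fsS, hincl, Int.mul_ediv_cancel_left _ hp0.ne']
  · simp [hdeg]

end split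

section shift

variable (k : Type u) [Field k] (p : ℕ) [hp : Fact p.Prime] [CharP k p] (e : ℕ)

/-- the exponent map `x^i y^j ↦ x^(i-1) y^(j-p^e)` -/
def shS (m : ℤ × ℤ × ℤ) : ℤ × ℤ × ℤ := (m.1 - 1, m.2.1 - p ^ e, m.2.2)

/-- condition `i ≡ 0 mod p^(e+1)`, `j ≡ p^e mod p^(e+1)` -/
def cP (m : ℤ × ℤ × ℤ) : Prop := (p : ℤ) ^ (e + 1) ∣ m.1 ∧ (p : ℤ) ^ (e + 1) ∣ m.2.1 - p ^ e

/-- condition `i ≡ 0 mod p^(e+2)`, `j ≡ p^e mod p^(e+1)` -/
def cA (m : ℤ × ℤ × ℤ) : Prop := (p : ℤ) ^ (e + 2) ∣ m.1 ∧ (p : ℤ) ^ (e + 1) ∣ m.2.1 - p ^ e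

/-- condition `i ≡ 0 mod p^(e+1)`, `i ≢ 0 mod p^(e+2)`, `j ≡ p^e mod p^(e+1)` -/
def cB (m : ℤ × ℤ × ℤ) : Prop := cP p e m ∧ ¬ (p : ℤ) ^ (e + 2) ∣ m.1

lemma P_linear (a b : Lau k) :
    monOp (cP p e) (shS p e) (AddMonoidHom.id k) (a ^ p ^ (e + 1) * b) =
      a ^ p ^ (e + 1) * monOp (cP p e) (shS p e) (AddMonoidHom.id k) b := by
  apply monOp_linear
  · rintro ⟨i, j, d⟩ ⟨i', j', d'⟩
    simp [cP, dvd_add_right, add_sub_assoc]
  · rintro ⟨i, j, d⟩ ⟨i', j', d'⟩ -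
    simp [shS, add_sub_assoc]
  · intro x y
    simp

lemma A_linear (a b : Lau k) :
    monOp (cA p e) (shS p e) (AddMonoidHom.id k) (a ^ p ^ (e + 2) * b) =
      a ^ p ^ (e + 2) * monOp (cA p e) (shS p e) (AddMonoidHom.id k) b := by
  apply monOp_linear
  · rintro ⟨i, j, d⟩ ⟨i', j', d'⟩
    have h : (p : ℤ) ^ (e + 1) ∣ p ^ (e + 2) * j := Dvd.dvd.mul_right (pow_dvd_pow _ (by omega)) _
    simp [cA, dvd_add_right, add_sub_assoc, h]
  · rintro ⟨i, j, d⟩ ⟨i', j', d'⟩ -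
    simp [shS, add_sub_assoc]
  · intro x y
    simp

lemma B_linear (a b : Lau k) :
    monOp (cB p e) (shS p e) (AddMonoidHom.id k) (a ^ p ^ (e + 2) * b) =
      a ^ p ^ (e + 2) * monOp (cB p e) (shS p e) (AddMonoidHom.id k) b := by
  apply monOp_linear
  · rintro ⟨i, j, d⟩ ⟨i', j', d'⟩
    have h : (p : ℤ) ^ (e + 1) ∣ p ^ (e + 2) * j := Dvd.dvd.mul_right (pow_dvd_pow _ (by omega)) _
    have h' : (p : ℤ) ^ (e + 1) ∣ p ^ (e + 2) * i := Dvd.dvd.mul_right (pow_dvd_pow _ (by omega)) _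
    simp [cB, cP, dvd_add_right, add_sub_assoc, h, h']
  · rintro ⟨i, j, d⟩ ⟨i', j', d'⟩ -
    simp [shS, add_sub_assoc]
  · intro x y
    simp

lemma ge_of_dvd_sub {p : ℕ} (hp : 0 < p) {e : ℕ} {j : ℤ} (hj : 0 ≤ j)
    (h : (p : ℤ) ^ (e + 1) ∣ j - p ^ e) (hp1 : 1 < p) : (p : ℤ) ^ e ≤ j := by
  by_contra hlt
  push Not at hlt
  have h1 : (0 : ℤ) < p ^ e := by positivity
  have h2 : (p : ℤ) ^ e < p ^ (e + 1) := pow_lt_pow_right₀ (by exact_mod_cast hp1) (by omega)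
  have h3 : (p : ℤ) ^ (e + 1) ∣ p ^ e - j := by
    rw [← neg_sub, dvd_neg]; exact h
  have h4 := Int.le_of_dvd (by omega) h3
  omega

lemma A_hv_v10 (N : ℕ) (m : hM p) (hm : hdeg p m = p ^ (e + 2) * N) (hc : cA p e (hincl p m)) :
    ∃ m' : hM p, hincl p m' = shS p e (hincl p m) + hincl p (v10 p) ∧
      hdeg p m' = p ^ (e + 2) * N + hdeg p (v10 p) := by
  obtain ⟨⟨i, j, d⟩, hmem⟩ := m
  obtain ⟨hi, hj⟩ := hc
  have hd : d = p ^ (e + 2) * N := hm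
  subst hd
  simp only [hincl, AddMonoidHom.coe_mk, ZeroHom.coe_mk] at hi hj
  rw [mem_hM] at hmem
  obtain ⟨h1, h2, h3, h4⟩ := hmem
  have hj0 := ge_of_dvd_sub hp.out.pos h1 hj hp.out.one_lt
  have hpe : (0 : ℤ) < p ^ e := by have := hp.out.pos; positivity
  have hz : (p : ℤ) ^ (e + 1) ≤ ((p ^ (e + 2) * N : ℕ) : ℤ) + p * j - i := by
    apply ge_of_dvd_sub (e := e + 1) hp.out.pos (by omega) _ hp.out.one_lt
    obtain ⟨t, ht⟩ := hj
    obtain ⟨s, hs⟩ := hi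
    refine ⟨N + t - s, ?_⟩
    have : j = p ^ (e + 1) * t + p ^ e := by linarith
    rw [this, hs]
    push_cast
    ring
  have hpp : (p : ℤ) ^ (e + 1) = p * p ^ e := by ring
  refine ⟨⟨(i - 1 + 1, j - p ^ e + 0, p ^ (e + 2) * N + 1), ?_⟩, ?_, ?_⟩
  · rw [mem_hM]
    refine ⟨by omega, by push_cast at *; omega, by omega, ?_⟩
    push_cast at *
    nlinarith
  · simp [hincl, shS, v10]
  · simp [hdeg, v10]

lemma A_hv_v11 (N : ℕ) (m : hM p) (hm : hdeg p m = p ^ (e + 2) * N) (hc : cA p e (hincl p m)) :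
    ∃ m' : hM p, hincl p m' = shS p e (hincl p m) + hincl p (v11 p) ∧
      hdeg p m' = p ^ (e + 2) * N + hdeg p (v11 p) := by
  obtain ⟨⟨i, j, d⟩, hmem⟩ := m
  obtain ⟨hi, hj⟩ := hc
  have hd : d = p ^ (e + 2) * N := hm
  subst hd
  simp only [hincl, AddMonoidHom.coe_mk, ZeroHom.coe_mk] at hi hj
  rw [mem_hM] at hmem
  obtain ⟨h1, h2, h3, h4⟩ := hmem
  have hj0 := ge_of_dvd_sub hp.out.pos h1 hj hp.out.one_lt
  have hpe : (0 : ℤ) < p ^ e := by have := hp.out.pos; positivity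
  have hz : (p : ℤ) ^ (e + 1) ≤ ((p ^ (e + 2) * N : ℕ) : ℤ) + p * j - i := by
    apply ge_of_dvd_sub (e := e + 1) hp.out.pos (by omega) _ hp.out.one_lt
    obtain ⟨t, ht⟩ := hj
    obtain ⟨s, hs⟩ := hi
    refine ⟨N + t - s, ?_⟩
    have : j = p ^ (e + 1) * t + p ^ e := by linarith
    rw [this, hs]
    push_cast
    ring
  have hpp : (p : ℤ) ^ (e + 1) = p * p ^ e := by ring
  refine ⟨⟨(i - 1 + (p + 1), j - p ^ e + 1, p ^ (e + 2) * N + 1), ?_⟩, ?_, ?_⟩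
  · rw [mem_hM]
    refine ⟨by omega, by push_cast at *; omega, by omega, ?_⟩
    push_cast at *
    nlinarith
  · simp [hincl, shS, v11]
  · simp [hdeg, v11]

lemma B_hv_v00 (N : ℕ) (m : hM p) (hm : hdeg p m = p ^ (e + 2) * N) (hc : cB p e (hincl p m)) :
    ∃ m' : hM p, hincl p m' = shS p e (hincl p m) + hincl p (p ^ (e + 1) • v00 p) ∧
      hdeg p m' = p ^ (e + 2) * N + hdeg p (p ^ (e + 1) • v00 p) := by
  obtain ⟨⟨i, j, d⟩, hmem⟩ := m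
  obtain ⟨⟨hi', hj⟩, hi⟩ := hc
  have hd : d = p ^ (e + 2) * N := hm
  subst hd
  simp only [hincl, AddMonoidHom.coe_mk, ZeroHom.coe_mk] at hi hj
  rw [mem_hM] at hmem
  obtain ⟨h1, h2, h3, h4⟩ := hmem
  have hj0 := ge_of_dvd_sub hp.out.pos h1 hj hp.out.one_lt
  have hpe : (0 : ℤ) < p ^ e := by have := hp.out.pos; positivity
  have hi1 : 1 ≤ i := by
    by_contra h
    have : i = 0 := by omega
    subst this
    exact hi (dvd_zero _)
  have hpp : (p : ℤ) ^ (e + 1) = p * p ^ e := by ring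
  have hpos : (0 : ℤ) < (p : ℤ) ^ (e + 1) := by have := hp.out.pos; positivity
  refine ⟨⟨(i - 1 + 0, j - p ^ e + 0, p ^ (e + 2) * N + p ^ (e + 1)), ?_⟩, ?_, ?_⟩
  · rw [mem_hM]
    refine ⟨by omega, by push_cast at *; omega, by omega, ?_⟩
    push_cast at *
    nlinarith
  · simp [hincl, shS, v00]
  · simp [hdeg, v00]

lemma B_hv_v01 (N : ℕ) (m : hM p) (hm : hdeg p m = p ^ (e + 2) * N) (hc : cB p e (hincl p m)) :
    ∃ m' : hM p, hincl p m' = shS p e (hincl p m) + hincl p (p ^ (e + 1) • v01 p) ∧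
      hdeg p m' = p ^ (e + 2) * N + hdeg p (p ^ (e + 1) • v01 p) := by
  obtain ⟨⟨i, j, d⟩, hmem⟩ := m
  obtain ⟨⟨hi', hj⟩, hi⟩ := hc
  have hd : d = p ^ (e + 2) * N := hm
  subst hd
  simp only [hincl, AddMonoidHom.coe_mk, ZeroHom.coe_mk] at hi hj
  rw [mem_hM] at hmem
  obtain ⟨h1, h2, h3, h4⟩ := hmem
  have hj0 := ge_of_dvd_sub hp.out.pos h1 hj hp.out.one_lt
  have hpe : (0 : ℤ) < p ^ e := by have := hp.out.pos; positivity
  have hi1 : 1 ≤ i := by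
    by_contra h
    have : i = 0 := by omega
    subst this
    exact hi (dvd_zero _)
  have hpp : (p : ℤ) ^ (e + 1) = p * p ^ e := by ring
  have hp0 : (0 : ℤ) < p := by exact_mod_cast hp.out.pos
  have hpos : (0 : ℤ) < (p : ℤ) ^ (e + 1) := by positivity
  have hpos2 : (0 : ℤ) < (p : ℤ) * (p : ℤ) ^ (e + 1) := by positivity
  refine ⟨⟨(i - 1 + 0, j - p ^ e + p ^ (e + 1), p ^ (e + 2) * N + p ^ (e + 1)), ?_⟩, ?_, ?_⟩
  · rw [mem_hM]
    refine ⟨by omega, by push_cast at *; omega, by omega, ?_⟩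
    push_cast at *
    nlinarith
  · simp [hincl, shS, v01]
  · simp [hdeg, v01]

end shift

end Pool.Agent.Helper72
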