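import Mathlib
import Pool.Agent.Helper72.HirzOps
import Pool.Agent.Helper72.H1

open AlgebraicGeometry CategoryTheory TopologicalSpace Opposite HomogeneousLocalization
open AddMonoidAlgebra

universe u

namespace Pool.Agent.Helper72

section

variable (k : Type u) [Field k] (n : ℕ)

/-- The Hirzebruch surface `F_n`. -/
noncomputable abbrev HX : Scheme.{u} := Proj (hG k n)

/-- monomial sections -/
noncomputable abbrev mon (v : hM n) : HR k n := single v 1

lemma mon_mem (v : hM n) {d : ℕ} (h : hdeg n v = d) : mon k n v ∈ hG k n d :=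
  h ▸ single_mem_gradeBy _ _ _

lemma mon_ne_zero (v : hM n) : mon k n v ≠ 0 := by simp

/-- basic open sets of monomials -/
noncomputable def bO (v : hM n) : (HX k n).Opens := Proj.basicOpen (hG k n) (mon k n v)

/-- the generic point -/
noncomputable def gP : ProjectiveSpectrum (hG k n) :=
  genPt (hG k n) one_pos (mon_mem k n (v00 n) rfl) (mon_ne_zero k n (v00 n))

lemma gP_mem_bO (v : hM n) : gP k n ∈ bO k n v := by
  change mon k n v ∉ (⊥ : HomogeneousIdeal (hG k n)).toIdeal
  rw [HomogeneousIdeal.toIdeal_bot, Ideal.mem_bot]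
  exact mon_ne_zero k n v

/-- the open set over `x₁ ≠ 0` -/
noncomputable def oA : (HX k n).Opens := bO k n (v10 n) ⊔ bO k n (v11 n)

/-- the open set over `x₀ ≠ 0` -/
noncomputable def oB : (HX k n).Opens := bO k n (v00 n) ⊔ bO k n (v01 n)

lemma mem_bO (v : hM n) (x : HX k n) :
    x ∈ bO k n v ↔ mon k n v ∉ (x : ProjectiveSpectrum (hG k n)).asHomogeneousIdeal.toIdeal :=
  Iff.rfl

lemma oA_sup_oB : oA k n ⊔ oB k n = ⊤ := by
  rw [eq_top_iff]
  intro x _
  rcases exists_vertex k n x with h | h | h | h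
  · exact Or.inr (Or.inl h)
  · exact Or.inl (Or.inl h)
  · exact Or.inr (Or.inr h)
  · exact Or.inl (Or.inr h)

end

section ops

variable (k : Type u) [Field k] (p : ℕ) [hp : Fact p.Prime] [CharP k p] (e : ℕ)

/-- the operator `A` on the field of rational functions -/
noncomputable def TA : FractionRing (Lau k) →+ FractionRing (Lau k) :=
  extHom (monOp (cA p e) (shS p e) (AddMonoidHom.id k)) (pow_pos hp.out.pos (e + 2))
    (A_linear k p e)

/-- the operator `B` on the field of rational functions -/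
noncomputable def TB : FractionRing (Lau k) →+ FractionRing (Lau k) :=
  extHom (monOp (cB p e) (shS p e) (AddMonoidHom.id k)) (pow_pos hp.out.pos (e + 2))
    (B_linear k p e)

/-- the operator `P` on the field of rational functions -/
noncomputable def TP : FractionRing (Lau k) →+ FractionRing (Lau k) :=
  extHom (monOp (cP p e) (shS p e) (AddMonoidHom.id k)) (pow_pos hp.out.pos (e + 1))
    (P_linear k p e)

lemma lin_ext {Λ L : Type*} [CommRing Λ] [Field L] [Algebra Λ L] [IsFractionRing Λ L]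
    (T T' : L →+ L) {q : ℕ} (hq : 0 < q) (h : ∀ a b : L, T (a ^ q * b) = a ^ q * T b)
    (h' : ∀ a b : L, T' (a ^ q * b) = a ^ q * T' b)
    (hTT' : ∀ a : Λ, T (algebraMap Λ L a) = T' (algebraMap Λ L a)) (z : L) : T z = T' z := by
  have : IsDomain Λ := (IsFractionRing.injective Λ L).isDomain (algebraMap Λ L)
  obtain ⟨a, b, hb, rfl⟩ := IsFractionRing.div_surjective (A := Λ) z
  have hb0 : algebraMap Λ L b ≠ 0 :=
    (map_ne_zero_iff _ (IsFractionRing.injective Λ L)).mpr (nonZeroDivisors.ne_zero hb)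
  have e1 : algebraMap Λ L a / algebraMap Λ L b =
      ((algebraMap Λ L b)⁻¹) ^ q * algebraMap Λ L (a * b ^ (q - 1)) := by
    obtain ⟨m, rfl⟩ : ∃ m, q = m + 1 := ⟨q - 1, by omega⟩
    simp only [Nat.add_sub_cancel, inv_pow, map_mul, map_pow]
    field_simp
    ring
  rw [e1, h, h', hTT']

lemma TP_eq (z : FractionRing (Lau k)) : TP k p e z = TA k p e z + TB k p e z := by
  refine lin_ext (Λ := Lau k) (TP k p e) (TA k p e + TB k p e)
    (pow_pos hp.out.pos (e + 2)) ?_ ?_ ?_ z
  · intro a b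
    have h := extHom_linear (L := FractionRing (Lau k)) _ (pow_pos hp.out.pos (e + 1))
      (P_linear k p e) (a ^ p) b
    rw [← pow_mul, ← pow_succ'] at h
    exact h
  · intro a b
    rw [AddMonoidHom.add_apply, AddMonoidHom.add_apply, mul_add]
    congr 1
    · exact extHom_linear _ _ _ a b
    · exact extHom_linear _ _ _ a b
  · intro a
    rw [AddMonoidHom.add_apply, TP, TA, TB, extHom_algebraMap, extHom_algebraMap,
      extHom_algebraMap, ← map_add]
    congr 1
    induction a using AddMonoidAlgebra.induction_linear with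
    | zero => simp
    | add x y hx hy => rw [map_add, map_add, map_add, hx, hy]; abel
    | single m r =>
      by_cases h : cP p e m
      · by_cases h2 : (p : ℤ) ^ (e + 2) ∣ m.1
        · rw [monOp_single_pos _ _ _ _ _ h, monOp_single_pos (cA p e) _ _ _ _ ⟨h2, h.2⟩,
            monOp_single_neg (cB p e) _ _ _ _ (fun h' ↦ h'.2 h2), add_zero]
        · rw [monOp_single_pos _ _ _ _ _ h, monOp_single_pos (cB p e) _ _ _ _ ⟨h, h2⟩,
            monOp_single_neg (cA p e) _ _ _ _ (fun h' ↦ h2 h'.1), zero_add]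
      · rw [monOp_single_neg _ _ _ _ _ h, monOp_single_neg (cB p e) _ _ _ _ (fun h' ↦ h h'.1),
            monOp_single_neg (cA p e) _ _ _ _ (fun h' ↦
              h ⟨(pow_dvd_pow _ (by omega)).trans h'.1, h'.2⟩), add_zero]

lemma TA_mem (x : HX k p) (hx : x ∈ oA k p) (z : FractionRing (Lau k))
    (hz : z ∈ (toL (hG k p) (hψ k p) (hψ_injective k p) x).range) :
    TA k p e z ∈ (toL (hG k p) (hψ k p) (hψ_injective k p) x).range := by
  rcases hx with hx | hx
  · exact monOp_mem_range k p (e + 2) (e + 2) _ _ _ _ (A_linear k p e) (v10 p)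
      (A_hv_v10 p e) x hx z hz
  · exact monOp_mem_range k p (e + 2) (e + 2) _ _ _ _ (A_linear k p e) (v11 p)
      (A_hv_v11 p e) x hx z hz

lemma TB_mem (x : HX k p) (hx : x ∈ oB k p) (z : FractionRing (Lau k))
    (hz : z ∈ (toL (hG k p) (hψ k p) (hψ_injective k p) x).range) :
    TB k p e z ∈ (toL (hG k p) (hψ k p) (hψ_injective k p) x).range := by
  rcases hx with hx | hx
  · exact monOp_mem_range k p (e + 2) (e + 2) _ _ _ _ (B_linear k p e) _
      (B_hv_v00 p e) x (single_pow_mem k p x hx) z hz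
  · exact monOp_mem_range k p (e + 2) (e + 2) _ _ _ _ (B_linear k p e) _
      (B_hv_v01 p e) x (single_pow_mem k p x hx) z hz

/-- sections as elements of the field -/
noncomputable def gL (n : ℕ) (V : (HX k n).Opens) (hV : gP k n ∈ V) :
    Γ(HX k n, V) →+* FractionRing (Lau k) :=
  gToL (hψ_injective k n) one_pos (mon_mem k n (v00 n) rfl) (mon_ne_zero k n (v00 n)) V hV

/-- the operator on sections over opens of `oA` -/
noncomputable def sA : DOp (HX k p) (p ^ (e + 2)) (oA k p) :=
  ⟨fun V ↦ opHom (hψ_injective k p) one_pos (mon_mem k p (v00 p) rfl) (mon_ne_zero k p (v00 p))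
      (TA k p e) (oA k p) (TA_mem k p e) V.1 V.2,
    fun V W h a ↦ opHom_res (hψ_injective k p) one_pos (mon_mem k p (v00 p) rfl)
      (mon_ne_zero k p (v00 p)) (TA k p e) (oA k p) (TA_mem k p e) V.1 W.1 h W.2 a,
    fun V a b ↦ opHom_linear (hψ_injective k p) one_pos (mon_mem k p (v00 p) rfl)
      (mon_ne_zero k p (v00 p)) (TA k p e) (oA k p) (TA_mem k p e)
      (extHom_linear _ _ (A_linear k p e)) V.1 V.2 a b⟩

/-- the operator on sections over opens of `oB` -/
noncomputable def sB : DOp (HX k p) (p ^ (e + 2)) (oB k p) :=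
  ⟨fun V ↦ opHom (hψ_injective k p) one_pos (mon_mem k p (v00 p) rfl) (mon_ne_zero k p (v00 p))
      (TB k p e) (oB k p) (TB_mem k p e) V.1 V.2,
    fun V W h a ↦ opHom_res (hψ_injective k p) one_pos (mon_mem k p (v00 p) rfl)
      (mon_ne_zero k p (v00 p)) (TB k p e) (oB k p) (TB_mem k p e) V.1 W.1 h W.2 a,
    fun V a b ↦ opHom_linear (hψ_injective k p) one_pos (mon_mem k p (v00 p) rfl)
      (mon_ne_zero k p (v00 p)) (TB k p e) (oB k p) (TB_mem k p e)
      (extHom_linear _ _ (B_linear k p e)) V.1 V.2 a b⟩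

lemma gL_sA (V : (HX k p).Opens) (hVA : V ≤ oA k p) (hV : gP k p ∈ V) (a : Γ(HX k p, V)) :
    gL k p V hV ((sA k p e).1 ⟨V, hVA⟩ a) = TA k p e (gL k p V hV a) :=
  opHom_spec (hψ_injective k p) one_pos (mon_mem k p (v00 p) rfl) (mon_ne_zero k p (v00 p))
      (TA k p e) (oA k p) (TA_mem k p e) V hVA hV a

lemma gL_sB (V : (HX k p).Opens) (hVB : V ≤ oB k p) (hV : gP k p ∈ V) (a : Γ(HX k p, V)) :
    gL k p V hV ((sB k p e).1 ⟨V, hVB⟩ a) = TB k p e (gL k p V hV a) :=
  opHom_spec (hψ_injective k p) one_pos (mon_mem k p (v00 p) rfl) (mon_ne_zero k p (v00 p))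
      (TB k p e) (oB k p) (TB_mem k p e) V hVB hV a

lemma gL_ext (n : ℕ) (V : (HX k n).Opens) (s t : Γ(HX k n, V))
    (h : ∀ hV : gP k n ∈ V, gL k n V hV s = gL k n V hV t) : s = t :=
  gsec_ext (hψ_injective k n) one_pos (mon_mem k n (v00 n) rfl) (mon_ne_zero k n (v00 n)) V s t h

/-- the operator `P` on sections over opens of `oA ⊓ oB` -/
noncomputable def sP : DOp (HX k p) (p ^ (e + 1)) (oA k p ⊓ oB k p) :=
  ⟨(DOp.res (HX k p) _ inf_le_left (sA k p e) + DOp.res (HX k p) _ inf_le_right (sB k p e)).1,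
    (DOp.res (HX k p) _ inf_le_left (sA k p e) + DOp.res (HX k p) _ inf_le_right (sB k p e)).2.1,
    fun V a b ↦ by
      have key : ∀ (c : Γ(HX k p, V.1)) (hV : gP k p ∈ V.1), gL k p V.1 hV
          ((DOp.res (HX k p) _ inf_le_left (sA k p e) +
            DOp.res (HX k p) _ inf_le_right (sB k p e)).1 V c) =
          TP k p e (gL k p V.1 hV c) := by
        intro c hV
        change gL k p V.1 hV ((sA k p e).1 ⟨V.1, V.2.trans inf_le_left⟩ c +
          (sB k p e).1 ⟨V.1, V.2.trans inf_le_right⟩ c) = _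
        rw [map_add, gL_sA, gL_sB, TP_eq]
      apply gL_ext
      intro hV
      rw [key]
      rw [map_mul (gL k p V.1 hV), map_pow (gL k p V.1 hV), map_mul (gL k p V.1 hV),
        map_pow (gL k p V.1 hV), key]
      exact extHom_linear _ _ (P_linear k p e) _ _⟩

end ops

end Pool.Agent.Helper72
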