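import Mathlib
import Pool.Agent.Helper72.NonInj

open AlgebraicGeometry CategoryTheory TopologicalSpace Opposite HomogeneousLocalization
open AddMonoidAlgebra

universe u

namespace Pool.Agent.Helper72

section

variable (k : Type u) [Field k]

lemma algebraMap_eq_hψ (n : ℕ) (a : HR k n) :
    hψ k n a = algebraMap (Lau k) (FractionRing (Lau k)) (hψ₀ k n a) := rfl

/-- sections over monomial basic open sets with prescribed monomial value -/
lemma exists_mon_section (n : ℕ) (v : hM n) (hv : hdeg n v = 1) (l : ℕ) (m : hM n)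
    (hm : hdeg n m = l) (w : ℤ × ℤ × ℤ) (hw : w + l • hincl n v = hincl n m) :
    ∃ s : Γ(HX k n, bO k n v), gL k n (bO k n v) (gP_mem_bO k n v) s =
      algebraMap (Lau k) (FractionRing (Lau k)) (single w 1) := by
  apply exists_gToL_eq
  intro x hx
  refine (mem_range_toL_iff (hψ_injective k n) x _).mpr
    ⟨l, mon k n m, mon k n (l • v), mon_mem k n m hm, mon_mem k n _ ?_,
    single_pow_mem k n x hx, ?_, ?_⟩
  · rw [map_nsmul, hv]; simp
  · rw [map_ne_zero_iff _ (hψ_injective k n)]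
    exact mon_ne_zero k n _
  · rw [algebraMap_eq_hψ, algebraMap_eq_hψ, hψ₀_single, hψ₀_single, ← map_mul, single_mul_single,
      map_nsmul, hw, mul_one]

lemma exists_poly (n : ℕ) (v : hM n) (hv : hdeg n v = 1) (s : Γ(HX k n, bO k n v)) :
    ∃ (l : ℕ) (a : HR k n), gL k n (bO k n v) (gP_mem_bO k n v) s =
      algebraMap (Lau k) (FractionRing (Lau k)) (single (-(l • hincl n v)) 1 * hψ₀ k n a) := by
  obtain ⟨l, a, -, h⟩ := gToL_basicOpen (hψ_injective k n) one_pos (mon_mem k n (v00 n) rfl)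
    (mon_ne_zero k n (v00 n)) (mon_mem k n v hv) one_pos (gP_mem_bO k n v) s
  refine ⟨l, a, ?_⟩
  have h0 : hψ k n (mon k n v) ≠ 0 := by
    rw [map_ne_zero_iff _ (hψ_injective k n)]
    exact mon_ne_zero k n _
  have h1 : gL k n (bO k n v) (gP_mem_bO k n v) s * hψ k n (mon k n v) ^ l = hψ k n a := h
  rw [map_mul, ← algebraMap_eq_hψ, ← h1, mul_left_comm]
  have h2 : algebraMap (Lau k) (FractionRing (Lau k)) (single (-(l • hincl n v)) 1) *
      hψ k n (mon k n v) ^ l = 1 := by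
    rw [algebraMap_eq_hψ, hψ₀_single, ← map_pow, ← map_mul, single_pow, single_mul_single,
      neg_add_cancel, one_pow, mul_one]
    exact map_one _
  rw [h2, mul_one]

lemma coeff_eq_zero (n : ℕ) (a : HR k n) (i j d : ℤ)
    (h : ∀ d' : ℕ, (d' : ℤ) = d → (i, j, d') ∉ hM n) : (hψ₀ k n a).coeff (i, j, d) = 0 := by
  change (mapDomain (hincl n) a).coeff (i, j, d) = 0
  apply Finsupp.mapDomain_of_notMem_range
  rintro ⟨⟨⟨i', j', d'⟩, hm⟩, h'⟩
  simp only [hincl, AddMonoidHom.coe_mk, ZeroHom.coe_mk, Prod.mk.injEq] at h'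
  obtain ⟨rfl, rfl, h3⟩ := h'
  exact h d' h3 hm

end

section contra

variable (k : Type u) [Field k] (p : ℕ) [hp : Fact p.Prime] [CharP k p] (e : ℕ)

lemma contra_aux (g : DOp (HX k p) (p ^ (e + 2)) ⊤) (a' : DOp (HX k p) (p ^ (e + 1)) (oA k p))
    (b' : DOp (HX k p) (p ^ (e + 1)) (oB k p))
    (hA : ∀ (V : (HX k p).Opens) (hV : V ≤ oA k p),
      g.1 ⟨V, le_top⟩ = (sA k p e).1 ⟨V, hV⟩ + a'.1 ⟨V, hV⟩)
    (hB : ∀ (V : (HX k p).Opens) (hV : V ≤ oB k p),
      g.1 ⟨V, le_top⟩ = -(sB k p e).1 ⟨V, hV⟩ + b'.1 ⟨V, hV⟩) : False := by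
  have hp1 : 1 < p := hp.out.one_lt
  have hp0 : 0 < p := hp.out.pos
  -- the sections
  have hm1 : (((p + 1) * p ^ e : ℤ), ((p ^ e : ℕ) : ℤ), p ^ e) ∈ hM p := by
    rw [mem_hM]; push_cast; refine ⟨by positivity, le_rfl, by positivity, ?_⟩; apply le_of_eq; ring
  have hm2 : (0, ((p ^ e : ℕ) : ℤ), p ^ e) ∈ hM p := by
    rw [mem_hM]; push_cast; refine ⟨by positivity, le_rfl, by simp, by positivity⟩
  obtain ⟨tB, htB⟩ := exists_mon_section k p (v00 p) rfl (p ^ e) ⟨_, hm2⟩ rfl (0, p ^ e, 0)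
    (by simp [hincl, v00])
  obtain ⟨tA, htA⟩ := exists_mon_section k p (v10 p) rfl (p ^ e) ⟨_, hm1⟩ rfl
    (p ^ (e + 1), p ^ e, 0) (by simp [hincl, v10]; ring)
  obtain ⟨zA, hzA⟩ := exists_mon_section k p (v10 p) rfl 1 (v00 p) rfl
    (-1, 0, 0) (by simp [hincl, v10, v00])
  -- the open set
  have hVAo : (bO k p (v10 p)) ≤ oA k p := le_sup_left
  have hVBo : (bO k p (v00 p)) ≤ oB k p := le_sup_left
  let V := (bO k p (v10 p)) ⊓ (bO k p (v00 p))
  have hVA' : V ≤ (bO k p (v10 p)) := inf_le_left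
  have hVB' : V ≤ (bO k p (v00 p)) := inf_le_right
  have hη : gP k p ∈ V := ⟨gP_mem_bO k p _, gP_mem_bO k p _⟩
  have gres : ∀ (U W : (HX k p).Opens) (h : U ≤ W) (hU : gP k p ∈ U) (s : Γ(HX k p, W)),
      gL k p U hU ((HX k p).presheaf.map (homOfLE h).op s) = gL k p W (h hU) s :=
    fun U W h hU s ↦ rfl
  -- equality of sections
  have ht : (HX k p).presheaf.map (homOfLE hVB').op tB =
      ((HX k p).presheaf.map (homOfLE hVA').op zA) ^ p ^ (e + 1) *
        (HX k p).presheaf.map (homOfLE hVA').op tA := by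
    apply gL_ext
    intro hU
    rw [map_mul, map_pow, gres, gres, gres, htB, hzA, htA, ← map_pow, ← map_mul, single_pow,
      single_mul_single, one_pow, mul_one]
    congr 2
    simp
  -- evaluate `g`
  have hg1 := congr_arg (fun φ ↦ φ ((HX k p).presheaf.map (homOfLE hVB').op tB))
    (hA V (hVA'.trans hVAo))
  have hg2 := congr_arg (fun φ ↦ φ ((HX k p).presheaf.map (homOfLE hVB').op tB))
    (hB V (hVB'.trans hVBo))
  simp only [AddMonoidHom.add_apply, AddMonoidHom.neg_apply] at hg1 hg2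
  rw [hg1] at hg2
  have h1 := congr_arg (gL k p V hη) hg2
  rw [map_add, map_add, map_neg, gL_sA, gL_sB, gres] at h1
  have h2 : TP k p e (gL k p (bO k p (v00 p)) (hVB' hη) tB) =
      gL k p V hη (b'.1 ⟨V, hVB'.trans hVBo⟩ ((HX k p).presheaf.map (homOfLE hVB').op tB)) -
      gL k p V hη (a'.1 ⟨V, hVA'.trans hVAo⟩ ((HX k p).presheaf.map (homOfLE hVB').op tB)) := by
    rw [TP_eq, eq_sub_iff_add_eq, add_right_comm, h1]
    abel
  have h3 : gL k p V hη
      (b'.1 ⟨V, hVB'.trans hVBo⟩ ((HX k p).presheaf.map (homOfLE hVB').op tB)) =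
      gL k p (bO k p (v00 p)) (hVB' hη) (b'.1 ⟨(bO k p (v00 p)), hVBo⟩ tB) := by
    rw [← b'.2.1 ⟨V, hVB'.trans hVBo⟩ ⟨(bO k p (v00 p)), hVBo⟩ hVB' tB]
    exact gres _ _ _ _ _
  have h4 : gL k p V hη
      (a'.1 ⟨V, hVA'.trans hVAo⟩ ((HX k p).presheaf.map (homOfLE hVB').op tB)) =
      gL k p (bO k p (v10 p)) (hVA' hη) zA ^ p ^ (e + 1) *
        gL k p (bO k p (v10 p)) (hVA' hη) (a'.1 ⟨(bO k p (v10 p)), hVAo⟩ tA) := by
    rw [ht]
    rw [a'.2.2 ⟨V, hVA'.trans hVAo⟩, map_mul, map_pow, gres,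
      ← a'.2.1 ⟨V, hVA'.trans hVAo⟩ ⟨(bO k p (v10 p)), hVAo⟩ hVA' tA]
    congr 1
  obtain ⟨l, c, hc⟩ := exists_poly k p (v00 p) rfl (b'.1 ⟨(bO k p (v00 p)), hVBo⟩ tB)
  obtain ⟨l', c', hc'⟩ := exists_poly k p (v10 p) rfl (a'.1 ⟨(bO k p (v10 p)), hVAo⟩ tA)
  rw [h3, h4, hzA, htB] at h2
  have h5 : TP k p e (algebraMap (Lau k) (FractionRing (Lau k)) (single (0, (p : ℤ) ^ e, 0) 1)) =
      algebraMap (Lau k) (FractionRing (Lau k)) (single (-1, 0, 0) 1) := by
    rw [TP, extHom_algebraMap, monOp_single_pos]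
    · simp [shS]
    · simp [cP]
  have h6 : algebraMap (Lau k) (FractionRing (Lau k)) (single (-1, 0, 0) 1) =
      algebraMap (Lau k) (FractionRing (Lau k)) (single (-(l • hincl p (v00 p))) 1 * hψ₀ k p c -
        single (-1, 0, 0) 1 ^ p ^ (e + 1) *
          (single (-(l' • hincl p (v10 p))) 1 * hψ₀ k p c')) := by
    rw [← h5, h2, map_sub, map_mul (algebraMap (Lau k) (FractionRing (Lau k)))
      (single (-1, 0, 0) 1 ^ p ^ (e + 1)), map_pow (algebraMap (Lau k) (FractionRing (Lau k)))]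
    exact congrArg₂ (· - ·) hc (congrArg₂ (· * ·) rfl hc')
  have h7 := IsFractionRing.injective (Lau k) (FractionRing (Lau k)) h6
  have h8 := congr_arg (fun f : Lau k ↦ f.coeff (-1, 0, 0)) h7
  simp only [coeff_sub, Finsupp.sub_apply] at h8
  rw [coeff_single_mul_apply, single_pow, coeff_single_mul_apply, coeff_single_mul_apply] at h8
  have hpe : (1 : ℤ) < (p : ℤ) ^ (e + 1) := by
    exact_mod_cast Nat.one_lt_pow (by omega) hp1
  have e1 : (hψ₀ k p c).coeff (-(-(l • hincl p (v00 p))) + (-1, 0, 0)) = 0 := by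
    simp only [hincl, v00, AddMonoidHom.coe_mk, ZeroHom.coe_mk, neg_neg, Prod.smul_mk,
      Prod.mk_add_mk]
    apply coeff_eq_zero
    intro d' _ hmem
    rw [mem_hM] at hmem
    simp at hmem
  have e2 : (hψ₀ k p c').coeff (-(-(l' • hincl p (v10 p))) +
      (-(p ^ (e + 1) • (-1, 0, 0)) + (-1, 0, 0))) = 0 := by
    simp only [hincl, v10, AddMonoidHom.coe_mk, ZeroHom.coe_mk, neg_neg, Prod.smul_mk,
      Prod.mk_add_mk, Prod.neg_mk]
    apply coeff_eq_zero
    intro d' hd' hmem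
    rw [mem_hM] at hmem
    simp at hmem hd'
    omega
  rw [e1, e2] at h8
  simp at h8

end contra

end Pool.Agent.Helper72
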