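import Mathlib

open AlgebraicGeometry CategoryTheory TopologicalSpace Opposite

universe u

namespace Pool.Agent.Helper72.Frob

/-- The ring of sections of `𝒪_X` over the open set `V`. -/
def Sec (X : Scheme.{u}) (V : X.Opens) : Type u := Γ(X, V)

instance (X : Scheme.{u}) (V : X.Opens) : CommRing (Sec X V) :=
  (X.presheaf.obj (op V)).commRing

variable {X : Scheme.{u}}

/-- Restriction of sections of `𝒪_X`. -/
def Sec.res {V W : X.Opens} (h : V ≤ W) : Sec X W →+* Sec X V :=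
  (X.presheaf.map (homOfLE h).op).hom

variable (X) in
/-- Families of additive maps `φ_V : Γ(X, V) → Γ(X, V)`, one for every open `V ≤ U`. -/
def Fam (U : X.Opens) : Type u := ∀ V : {V : X.Opens // V ≤ U}, Sec X V.1 →+ Sec X V.1

instance (U : X.Opens) : AddCommGroup (Fam X U) :=
  Pi.addCommGroup (f := fun V : {V : X.Opens // V ≤ U} ↦ Sec X V.1 →+ Sec X V.1)

/-- The map `φ_V : Γ(X, V) → Γ(X, V)` of a family `φ`. -/
def Fam.app {U : X.Opens} (φ : Fam X U) (V : {V : X.Opens // V ≤ U}) (a : Sec X V.1) :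
    Sec X V.1 :=
  φ V a

/-- The family restricted to the opens contained in `U' ≤ U`. -/
def Fam.res {U U' : X.Opens} (h : U' ≤ U) : Fam X U →+ Fam X U' :=
  AddMonoidHom.mk' (fun φ V ↦ φ ⟨V.1, V.2.trans h⟩) fun _ _ ↦ rfl

/-- The family commutes with restriction, i.e. it is an endomorphism of the sheaf of abelian
groups `𝒪_X|_U`. -/
def IsCompat {U : X.Opens} (φ : Fam X U) : Prop :=
  ∀ (V W : {V : X.Opens // V ≤ U}) (h : V.1 ≤ W.1) (a : Sec X W.1),
    Sec.res h (φ.app W a) = φ.app V (Sec.res h a)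

/-- The family is linear over `q`-th powers. -/
def IsPowLinear (q : ℕ) {U : X.Opens} (φ : Fam X U) : Prop :=
  ∀ (V : {V : X.Opens // V ≤ U}) (a b : Sec X V.1), φ.app V (a ^ q * b) = a ^ q * φ.app V b

/-- The family is an endomorphism of the sheaf `𝒪_X|_U` that is linear over `q`-th powers. -/
def IsDiff (q : ℕ) {U : X.Opens} (φ : Fam X U) : Prop := IsCompat φ ∧ IsPowLinear q φ

lemma isDiff_zero (q : ℕ) (U : X.Opens) : IsDiff q (0 : Fam X U) := by
  constructor
  · intro V W h a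
    exact map_zero _
  · intro V a b
    exact (mul_zero _).symm

lemma isDiff_add (q : ℕ) {U : X.Opens} {φ ψ : Fam X U} (hφ : IsDiff q φ) (hψ : IsDiff q ψ) :
    IsDiff q (φ + ψ) := by
  constructor
  · intro V W h a
    exact (map_add (Sec.res h) _ _).trans (congrArg₂ (· + ·) (hφ.1 V W h a) (hψ.1 V W h a))
  · intro V a b
    exact (congrArg₂ (· + ·) (hφ.2 V a b) (hψ.2 V a b)).trans (mul_add _ _ _).symm

lemma isDiff_neg (q : ℕ) {U : X.Opens} {φ : Fam X U} (hφ : IsDiff q φ) : IsDiff q (-φ) := by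
  constructor
  · intro V W h a
    exact (map_neg (Sec.res h) _).trans (congrArg Neg.neg (hφ.1 V W h a))
  · intro V a b
    exact (congrArg Neg.neg (hφ.2 V a b)).trans (mul_neg _ _).symm

variable (X)

/-- The group of sections over `U` of the sheaf of endomorphisms of `𝒪_X` linear over `q`-th
powers. -/
def DOp (q : ℕ) (U : X.Opens) : AddSubgroup (Fam X U) where
  carrier := {φ | IsDiff q φ}
  zero_mem' := isDiff_zero q U
  add_mem' := isDiff_add q
  neg_mem' := isDiff_neg q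

variable {X}

lemma res_mem {q : ℕ} {U U' : X.Opens} (h : U' ≤ U) (φ : DOp X q U) :
    Fam.res h φ.1 ∈ DOp X q U' :=
  ⟨fun V W hVW a ↦ φ.2.1 ⟨V.1, V.2.trans h⟩ ⟨W.1, W.2.trans h⟩ hVW a,
    fun V a b ↦ φ.2.2 ⟨V.1, V.2.trans h⟩ a b⟩

lemma DOp_le {q q' : ℕ} (h : q ∣ q') (U : X.Opens) : DOp X q U ≤ DOp X q' U :=
  fun φ hφ ↦ ⟨hφ.1, fun V a b ↦ by
    obtain ⟨t, rfl⟩ := h
    rw [mul_comm q t, pow_mul]
    exact hφ.2 V (a ^ t) b⟩

variable (X)

/-- `DOp X q U` as an abelian group. -/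
def DGrp (q : ℕ) (U : X.Opens) : AddCommGrpCat.{u} := AddCommGrpCat.of (DOp X q U)

/-- Restriction from `U` to `U' ≤ U`. -/
def DGrp.res (q : ℕ) {U U' : X.Opens} (h : U' ≤ U) : DGrp X q U ⟶ DGrp X q U' :=
  AddCommGrpCat.ofHom (((Fam.res h).comp (DOp X q U).subtype).codRestrict (DOp X q U') (res_mem h))

variable {X} in
/-- The inclusion: an endomorphism linear over `q`-th powers is linear over `q'`-th powers if
`q ∣ q'`. -/
def DGrp.incl {q q' : ℕ} (h : q ∣ q') (U : X.Opens) : DGrp X q U ⟶ DGrp X q' U :=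
  AddCommGrpCat.ofHom (AddSubgroup.inclusion (DOp_le h U))

/-- The presheaf `U ↦ DOp X q U`. -/
def DPresheaf (q : ℕ) : TopCat.Presheaf AddCommGrpCat.{u} X.toTopCat where
  obj U := DGrp X q U.unop
  map f := DGrp.res X q f.unop.le
  map_id _ := rfl
  map_comp _ _ := rfl

variable {X} in
/-- The natural inclusion `DPresheaf X q ⟶ DPresheaf X q'` if `q ∣ q'`. -/
def DPresheaf.incl {q q' : ℕ} (h : q ∣ q') : DPresheaf X q ⟶ DPresheaf X q' where
  app U := DGrp.incl h U.unop
  naturality _ _ _ := rfl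

end Pool.Agent.Helper72.Frob
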