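import Mathlib
import Pool.Agent.Helper72.FrobDefs
import Pool.Agent.Helper72.DOpGlue

open AlgebraicGeometry CategoryTheory TopologicalSpace Opposite

universe u

namespace Pool.Agent.Helper72.Frob

variable (X : Scheme.{u}) (q : ℕ)

theorem isSheaf_DPresheaf : (DPresheaf X q).IsSheaf :=
  Helper72.isSheaf_DPresheaf X q

end Pool.Agent.Helper72.Frob
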