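import Mathlib
import Pool.Agent.Helper72.FrobSheaf

open AlgebraicGeometry CategoryTheory TopologicalSpace Opposite

universe u

namespace Pool.Agent.Helper72.Frob

/-- The sheaf `U ↦ DOp X q U` of endomorphisms of `𝒪_X` linear over `q`-th powers; for `q = p ^ e`
this is the sheaf `D_X^(e)`. -/
def DSheaf (X : Scheme.{u}) (q : ℕ) : Sheaf (Opens.grothendieckTopology X) AddCommGrpCat.{u} :=
  ⟨DPresheaf X q, isSheaf_DPresheaf X q⟩

/-- The natural inclusion `DSheaf X q ⟶ DSheaf X q'` if `q ∣ q'`. -/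
def DSheaf.incl {X : Scheme.{u}} {q q' : ℕ} (h : q ∣ q') : DSheaf X q ⟶ DSheaf X q' :=
  ⟨DPresheaf.incl h⟩

/-- `X` is globally `F`-split (`X` of characteristic `p`): `𝒪_X → F_* 𝒪_X` has an `𝒪_X`-linear
splitting, i.e. there are additive maps `φ_V : Γ(X, V) → Γ(X, V)`, compatible with restriction,
with `φ_V (a ^ p * b) = a * φ_V b` and `φ_V 1 = 1`. -/
def IsFSplit (X : Scheme.{u}) (p : ℕ) : Prop :=
  ∃ φ : Fam X ⊤, IsCompat φ ∧
    (∀ (V : {V : X.Opens // V ≤ ⊤}) (a b : Sec X V.1), φ.app V (a ^ p * b) = a * φ.app V b) ∧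
    ∀ V : {V : X.Opens // V ≤ ⊤}, φ.app V 1 = 1

end Pool.Agent.Helper72.Frob
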