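import Mathlib
import Pool.Agent.Helper72.FrobMain
import Pool.Agent.Helper72.DDefs

open AlgebraicGeometry CategoryTheory TopologicalSpace Opposite

universe u

namespace Pool.Agent.Helper72.Frob

lemma bridge_aux {X : Scheme.{u}}
    {F G F' G' : Sheaf (Opens.grothendieckTopology X) AddCommGrpCat.{u}}
    (hF : F = F') (hG : G = G') (f : F ⟶ G) (f' : F' ⟶ G') (hf : HEq f f')
    (h : ¬ Function.Injective (Sheaf.H.map f' 1)) : ¬ Function.Injective (Sheaf.H.map f 1) := by
  subst hF hG
  obtain rfl := eq_of_heq hf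
  exact h

variable (X : Scheme.{u}) (q : ℕ)

theorem DSheaf_eq : DSheaf X q = Helper72.DSheaf X q := rfl

theorem incl_heq {q q' : ℕ} (h : q ∣ q') :
    HEq (DSheaf.incl (X := X) h) (Helper72.DSheaf.incl (X := X) h) := by
  exact HEq.rfl

theorem bridge {q q' : ℕ} (h : q ∣ q')
    (H : ¬ Function.Injective (Sheaf.H.map (Helper72.DSheaf.incl (X := X) h) 1)) :
    ¬ Function.Injective (Sheaf.H.map (DSheaf.incl (X := X) h) 1) :=
  bridge_aux (DSheaf_eq X q) (DSheaf_eq X q') _ _ (incl_heq X h) H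

end Pool.Agent.Helper72.Frob
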