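import Mathlib
import Pool.Agent.Helper72.DOp
import Pool.Agent.Helper72.H1

open AlgebraicGeometry CategoryTheory TopologicalSpace Opposite

universe u

namespace Pool.Agent.Helper72

theorem exists_global_DOp {X : Scheme.{u}} {q q' : ℕ} (h : q ∣ q')
    (hinj : Function.Injective (Sheaf.H.map (DSheaf.incl (X := X) h) 1))
    (A B : X.Opens) (hAB : A ⊔ B = ⊤) (a : DOp X q' A) (b : DOp X q' B)
    (c : DOp X q (A ⊓ B))
    (hc : DOp.res X q' (inf_le_left : A ⊓ B ≤ A) a - DOp.res X q' (inf_le_right : A ⊓ B ≤ B) b =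
      DOp.incl h (A ⊓ B) c) :
    ∃ (g : DOp X q' ⊤) (a' : DOp X q A) (b' : DOp X q B),
      (∀ (V : X.Opens) (hV : V ≤ A), g.1 ⟨V, le_top⟩ = a.1 ⟨V, hV⟩ + a'.1 ⟨V, hV⟩) ∧
      (∀ (V : X.Opens) (hV : V ≤ B), g.1 ⟨V, le_top⟩ = b.1 ⟨V, hV⟩ + b'.1 ⟨V, hV⟩) := by
  obtain ⟨g, a', b', h1, h2⟩ := exists_global_of_H1_injective (DSheaf.incl (X := X) h) hinj
    A B hAB a b c hc
  refine ⟨g, a', b', ?_, ?_⟩
  · intro V hV
    exact congr_arg (fun z : DOp X q' A ↦ z.1 ⟨V, hV⟩) h1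
  · intro V hV
    exact congr_arg (fun z : DOp X q' B ↦ z.1 ⟨V, hV⟩) h2

theorem not_injective_of_le {X : Scheme.{u}} {q q' q'' : ℕ} (h : q ∣ q') (h' : q' ∣ q'')
    (hinj : ¬ Function.Injective (Sheaf.H.map (DSheaf.incl (X := X) h) 1)) :
    ¬ Function.Injective (Sheaf.H.map (DSheaf.incl (X := X) (h.trans h')) 1) := by
  intro hinj'
  apply hinj
  intro x y hxy
  apply hinj'
  rw [DSheaf.incl_comp h h', Sheaf.H.map_comp_apply, Sheaf.H.map_comp_apply, hxy]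

end Pool.Agent.Helper72
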