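import Mathlib
import Pool.Agent.Helper72.Contra
import Pool.Agent.Helper72.H1D

open AlgebraicGeometry CategoryTheory TopologicalSpace Opposite HomogeneousLocalization
open AddMonoidAlgebra

universe u

namespace Pool.Agent.Helper72

variable (k : Type u) [Field k] (p : ℕ) [hp : Fact p.Prime] [CharP k p]

theorem H1_step_not_injective (e : ℕ) (h : p ^ (e + 1) ∣ p ^ (e + 2)) :
    ¬ Function.Injective (Sheaf.H.map (DSheaf.incl (X := HX k p) h) 1) := by
  intro hinj
  obtain ⟨g, a', b', h1, h2⟩ := exists_global_DOp h hinj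
    (oA k p) (oB k p) (oA_sup_oB k p) (sA k p e) (-(sB k p e)) (sP k p e) (by
      rw [map_neg, sub_neg_eq_add]
      rfl)
  exact contra_aux k p e g a' b' h1 h2

theorem H1_not_injective {e e' : ℕ} (he : 1 ≤ e) (hee : e < e') (h : p ^ e ∣ p ^ e') :
    ¬ Function.Injective (Sheaf.H.map (DSheaf.incl (X := HX k p) h) 1) := by
  obtain ⟨e, rfl⟩ : ∃ f, e = f + 1 := ⟨e - 1, by omega⟩
  exact not_injective_of_le (pow_dvd_pow p (by omega : e + 1 ≤ e + 2))
    (pow_dvd_pow p (by omega : e + 2 ≤ e')) (H1_step_not_injective k p e _)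

end Pool.Agent.Helper72
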