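import Mathlib

open AlgebraicGeometry CategoryTheory

universe u

namespace Pool.Agent.Helper72

attribute [local instance] MvPolynomial.gradedAlgebra

/-- Projective `n`-space over a field `k`: the `Proj` of the polynomial ring `k[x_0, …, x_n]`
with its grading by total degree. -/
noncomputable def PSpace (k : Type u) [Field k] (n : ℕ) : Scheme.{u} :=
  Proj (MvPolynomial.homogeneousSubmodule (Fin (n + 1)) k)

/-- The structure morphism `ℙ^n_k ⟶ Spec k`, namely `Proj S ⟶ Spec S_0 ⟶ Spec k`. -/
noncomputable def PSpace.toSpec (k : Type u) [Field k] (n : ℕ) :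
    PSpace k n ⟶ Spec (.of k) :=
  Proj.toSpecZero (MvPolynomial.homogeneousSubmodule (Fin (n + 1)) k) ≫
    Spec.map (CommRingCat.ofHom
      (algebraMap k (MvPolynomial.homogeneousSubmodule (Fin (n + 1)) k 0)))

/-- A `k`-scheme is projective if it admits a closed immersion over `k` into some `ℙ^n_k`. -/
def IsProjectiveOver {k : Type u} [Field k] {X : Scheme.{u}} (f : X ⟶ Spec (.of k)) : Prop :=
  ∃ (n : ℕ) (i : X ⟶ PSpace k n), IsClosedImmersion i ∧ i ≫ PSpace.toSpec k n = f

end Pool.Agent.Helper72
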