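import Mathlib

open AlgebraicGeometry CategoryTheory Limits TopologicalSpace Opposite HomogeneousLocalization

universe u

namespace Pool.Agent.Helper72

section

variable {A B σ τ : Type u} [CommRing A] [SetLike σ A] [AddSubgroupClass σ A]
  [CommRing B] [SetLike τ B] [AddSubgroupClass τ B] {𝒜 : ℕ → σ} {ℬ : ℕ → τ}
  [GradedRing 𝒜] [GradedRing ℬ] (f : 𝒜 →+*ᵍ ℬ)

lemma exists_homog (hf : Function.Surjective f) (n : ℕ) (b : B) (hb : b ∈ ℬ n) :
    ∃ a ∈ 𝒜 n, f a = b := by
  obtain ⟨a, rfl⟩ := hf b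
  refine ⟨DirectSum.decompose 𝒜 a n, SetLike.coe_mem _, ?_⟩
  classical
  have h1 : f a = ∑ i ∈ (DirectSum.decompose 𝒜 a).support, f (DirectSum.decompose 𝒜 a i) := by
    conv_lhs => rw [← DirectSum.sum_support_decompose 𝒜 a]
    rw [map_sum]
  have h2 : (DirectSum.decompose ℬ (f a) n : B) = f (DirectSum.decompose 𝒜 a n) := by
    rw [h1, DirectSum.decompose_sum, DFinsupp.finsetSum_apply, AddSubmonoidClass.coe_finsetSum]
    by_cases hn : n ∈ (DirectSum.decompose 𝒜 a).support
    · rw [Finset.sum_eq_single_of_mem n hn]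
      · exact DirectSum.decompose_of_mem_same ℬ (f.map_mem (SetLike.coe_mem _))
      · intro i _ hi
        exact DirectSum.decompose_of_mem_ne ℬ (f.map_mem (SetLike.coe_mem _)) hi
    · rw [DFinsupp.notMem_support_iff] at hn
      rw [hn, ZeroMemClass.coe_zero, map_zero]
      apply Finset.sum_eq_zero
      intro i hi
      have hin : i ≠ n := by
        rintro rfl
        rw [DFinsupp.mem_support_iff] at hi
        exact hi hn
      exact DirectSum.decompose_of_mem_ne ℬ (f.map_mem (SetLike.coe_mem _)) hin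
  rw [← h2]
  exact DirectSum.decompose_of_mem_same ℬ hb

lemma away_map_surjective (hf : Function.Surjective f) {i : ℕ} (s : A) (hs : s ∈ 𝒜 i) :
    Function.Surjective (Away.map f s : Away 𝒜 s →+* Away ℬ (f s)) := by
  intro z
  obtain ⟨l, b, hb, rfl⟩ := Away.mk_surjective ℬ (f.map_mem hs) z
  obtain ⟨a, ha, rfl⟩ := exists_homog f hf _ b hb
  exact ⟨Away.mk 𝒜 hs l a ha, Away.map_mk f s hs l a ha⟩

lemma irrelevant_le_of_surjective (hf : Function.Surjective f) :
    HomogeneousIdeal.irrelevant ℬ ≤ (HomogeneousIdeal.irrelevant 𝒜).map f := by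
  intro b hb
  have hb' : b ∈ HomogeneousIdeal.irrelevant ℬ := hb
  rw [HomogeneousIdeal.mem_irrelevant_iff, GradedRing.proj_apply] at hb'
  classical
  have key : b ∈ ((HomogeneousIdeal.irrelevant 𝒜).map f).toIdeal := by
    rw [← DirectSum.sum_support_decompose ℬ b]
    refine Ideal.sum_mem _ fun n hn ↦ ?_
    have hn0 : n ≠ 0 := by
      rintro rfl
      rw [DFinsupp.mem_support_iff] at hn
      exact hn (Subtype.ext hb')
    obtain ⟨a, ha, hab⟩ := exists_homog f hf n _ (SetLike.coe_mem (DirectSum.decompose ℬ b n))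
    rw [← hab]
    apply Ideal.mem_map_of_mem
    change a ∈ HomogeneousIdeal.irrelevant 𝒜
    rw [HomogeneousIdeal.mem_irrelevant_iff, GradedRing.proj_apply,
      DirectSum.decompose_of_mem_ne 𝒜 ha hn0]
  exact key

theorem isClosedImmersion_map (hf : Function.Surjective f)
    (h : HomogeneousIdeal.irrelevant ℬ ≤ (HomogeneousIdeal.irrelevant 𝒜).map f) :
    IsClosedImmersion (Proj.map f h) := by
  refine IsZariskiLocalAtTarget.of_openCover (P := @IsClosedImmersion)
    (Proj.affineOpenCover 𝒜).openCover ?_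
  rintro ⟨i, s, hs⟩
  have sq := IsOpenImmersion.isPullback
    (Spec.map (CommRingCat.ofHom (Away.map f s : Away 𝒜 s →+* Away ℬ (f s))))
    (Proj.awayι ℬ (f s) (f.map_mem hs) i.pos) (Proj.awayι 𝒜 s hs i.pos) (Proj.map f h)
    (Proj.awayι_comp_map f h i.pos s hs) (by
      rw [Proj.opensRange_awayι, Proj.opensRange_awayι, Proj.map_preimage_basicOpen])
  have hcl : IsClosedImmersion
      (Spec.map (CommRingCat.ofHom (Away.map f s : Away 𝒜 s →+* Away ℬ (f s)))) :=
    IsClosedImmersion.spec_of_surjective _ (away_map_surjective f hf s hs)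
  have e := sq.flip.isoPullback_hom_snd
  have h2 : pullback.snd (Proj.map f h) (Proj.awayι 𝒜 s hs i.pos) =
      sq.flip.isoPullback.inv ≫
        (Spec.map (CommRingCat.ofHom (Away.map f s : Away 𝒜 s →+* Away ℬ (f s)))) := by
    exact (Iso.eq_inv_comp _).mpr e
  have h3 : IsClosedImmersion (pullback.snd (Proj.map f h) (Proj.awayι 𝒜 s hs i.pos)) := by
    rw [h2]
    infer_instance
  exact h3

end

end Pool.Agent.Helper72
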