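import Mathlib
import Pool.Agent.Helper72.NonInj

open AlgebraicGeometry CategoryTheory TopologicalSpace Opposite HomogeneousLocalization
open AddMonoidAlgebra

universe u

namespace Pool.Agent.Helper72

section

variable {A : Type u} [CommRing A] {σ : Type*} [SetLike σ A] [AddSubgroupClass σ A]
  (𝒜 : ℕ → σ) [GradedRing 𝒜] {L : Type*} [Field L] (ψ : A →+* L)

/-- the homogeneous localization away from `f`, mapped to `L` -/
noncomputable def awL (hψ : Function.Injective ψ) (f : A) (hf : f ≠ 0) :
    Away 𝒜 f →+* L :=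
  (IsLocalization.lift (M := Submonoid.powers f)
    (S := Localization (Submonoid.powers f)) (g := ψ)
    (fun y ↦ by
      obtain ⟨y, n, rfl⟩ := y
      have : IsDomain A := hψ.isDomain ψ
      rw [isUnit_iff_ne_zero, map_ne_zero_iff ψ hψ]
      exact pow_ne_zero _ hf)).comp (algebraMap _ _)

variable {𝒜 ψ} (hψ : Function.Injective ψ)

lemma awL_mk (f : A) (hf0 : f ≠ 0) {m : ℕ} (hf : f ∈ 𝒜 m) (l : ℕ) (a : A) (ha : a ∈ 𝒜 (l • m)) :
    awL 𝒜 ψ hψ f hf0 (Away.mk 𝒜 hf l a ha) = ψ a / ψ f ^ l := by
  have h0 : ψ f ≠ 0 := (map_ne_zero_iff ψ hψ).mpr hf0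
  rw [awL, RingHom.comp_apply, HomogeneousLocalization.algebraMap_apply, Away.val_mk,
    Localization.mk_eq_mk', IsLocalization.lift_mk'_spec]
  simp only [map_pow]
  field_simp

lemma awL_injective (f : A) (hf0 : f ≠ 0) : Function.Injective (awL 𝒜 ψ hψ f hf0) := by
  have : IsDomain A := hψ.isDomain ψ
  rw [awL, RingHom.coe_comp]
  apply Function.Injective.comp
  · rw [IsLocalization.lift_injective_iff]
    intro a b
    constructor
    · intro h
      rw [IsLocalization.injective _ (powers_le_nonZeroDivisors_of_noZeroDivisors hf0) h]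
    · intro h
      rw [hψ h]
  · exact val_injective _

end

section chart

variable (k : Type u) [Field k] (n : ℕ)

/-- data of a smooth chart at the vertex `v` -/
structure ChartData (v a1 a2 : hM n) : Prop where
  hv : hdeg n v = 1
  h1 : hdeg n a1 = 1
  h2 : hdeg n a2 = 1
  gen : ∀ m : hM n, ∃ s t : ℕ,
    hincl n m + (s + t) • hincl n v = (hdeg n m) • hincl n v + s • hincl n a1 + t • hincl n a2
  indep : ∀ s t s' t' : ℕ, s • (hincl n a1 - hincl n v) + t • (hincl n a2 - hincl n v) =
    s' • (hincl n a1 - hincl n v) + t' • (hincl n a2 - hincl n v) → s = s' ∧ t = t'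

variable {n} {v a1 a2 : hM n} (h : ChartData n v a1 a2)

/-- constants -/
noncomputable def cst : k →+* Away (hG k n) (mon k n v) :=
  (fromZeroRingHom (hG k n) _).comp (algebraMap k (hG k n 0))

lemma mem_aux (a : hM n) (ha : hdeg n a = 1) : mon k n a ∈ hG k n (1 • 1) :=
  mon_mem k n a ha

/-- the chart map -/
noncomputable def chartHom : MvPolynomial (Fin 2) k →+* Away (hG k n) (mon k n v) :=
  MvPolynomial.eval₂Hom (cst k) ![Away.mk (hG k n) (mon_mem k n v h.hv) 1 (mon k n a1)
    (mem_aux k a1 h.h1), Away.mk (hG k n) (mon_mem k n v h.hv) 1 (mon k n a2)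
    (mem_aux k a2 h.h2)]

/-- the map to the field -/
noncomputable def aL : Away (hG k n) (mon k n v) →+* FractionRing (Lau k) :=
  awL (hG k n) (hψ k n) (hψ_injective k n) (mon k n v) (mon_ne_zero k n v)

lemma aL_cst (c : k) : aL k (v := v) (cst k c) = algebraMap (Lau k) _ (single 0 c) := by
  have h1 : cst k (v := v) c = HomogeneousLocalization.mk ⟨0, ⟨single 0 c, by
    have := single_mem_gradeBy (hdeg n) (0 : hM n) c
    rwa [map_zero] at this⟩, ⟨1, SetLike.one_mem_graded _⟩, Submonoid.one_mem _⟩ := rfl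
  rw [h1, aL, awL, RingHom.comp_apply, HomogeneousLocalization.algebraMap_apply, val_mk,
    Localization.mk_eq_mk', IsLocalization.lift_mk'_spec]
  simp [hψ]

lemma aL_mk (hv : hdeg n v = 1) (l : ℕ) (a : HR k n) (ha : a ∈ hG k n (l • 1)) :
    aL k (Away.mk (hG k n) (mon_mem k n v hv) l a ha) =
      algebraMap (Lau k) _ (single (-(l • hincl n v)) 1 * hψ₀ k n a) := by
  have hv0 : hψ k n (mon k n v) ≠ 0 :=
    (map_ne_zero_iff _ (hψ_injective k n)).mpr (mon_ne_zero k n v)
  rw [aL, awL_mk, div_eq_iff (pow_ne_zero _ hv0), map_mul]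
  have h2 : algebraMap (Lau k) (FractionRing (Lau k)) (single (-(l • hincl n v)) 1) *
      hψ k n (mon k n v) ^ l = 1 := by
    have e : hψ k n (mon k n v) = algebraMap (Lau k) _ (single (hincl n v) 1) := by
      simp [hψ]
    rw [e, ← map_pow, ← map_mul, single_pow, single_mul_single,
      neg_add_cancel, one_pow, mul_one]
    exact map_one _
  rw [mul_right_comm, h2, one_mul]
  rfl

/-- the exponents of the chart -/
def chartExp (n : ℕ) (v a1 a2 : hM n) : (Fin 2 →₀ ℕ) →+ ℤ × ℤ × ℤ where
  toFun d := d 0 • (hincl n a1 - hincl n v) + d 1 • (hincl n a2 - hincl n v)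
  map_zero' := by simp
  map_add' x y := by
    simp only [Finsupp.add_apply, add_smul]
    abel

include h in
lemma chartExp_injective : Function.Injective (chartExp n v a1 a2) := by
  intro x y hxy
  obtain ⟨h1, h2⟩ := h.indep _ _ _ _ hxy
  ext i
  fin_cases i
  · exact h1
  · exact h2

lemma aL_chartHom (P : MvPolynomial (Fin 2) k) :
    aL k (chartHom k h P) = algebraMap (Lau k) _ (mapDomainRingHom k (chartExp n v a1 a2) P) := by
  have : (aL k).comp (chartHom k h) =
      (algebraMap (Lau k) (FractionRing (Lau k))).comp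
        (mapDomainRingHom k (chartExp n v a1 a2)) := by
    apply MvPolynomial.ringHom_ext
    · intro c
      simp only [RingHom.comp_apply, chartHom, MvPolynomial.coe_eval₂Hom, MvPolynomial.eval₂_C]
      rw [aL_cst]
      congr 1
      rw [MvPolynomial.C_apply]
      change _ = mapDomain (chartExp n v a1 a2) (single 0 c)
      rw [mapDomain_single, map_zero]
    · intro i
      simp only [RingHom.comp_apply, chartHom, MvPolynomial.coe_eval₂Hom, MvPolynomial.eval₂_X]
      fin_cases i
      · simp only [Fin.zero_eta, Fin.isValue, Matrix.cons_val_zero]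
        rw [aL_mk k h.hv]
        congr 1
        rw [hψ₀_single, single_mul_single, one_smul, mul_one]
        change _ = mapDomain (chartExp n v a1 a2) (single (Finsupp.single 0 1) 1)
        rw [mapDomain_single]
        congr 1
        simp [chartExp]
        abel
      · simp only [Fin.mk_one, Fin.isValue, Matrix.cons_val_one, Matrix.cons_val_fin_one]
        rw [aL_mk k h.hv]
        congr 1
        rw [hψ₀_single, single_mul_single, one_smul, mul_one]
        change _ = mapDomain (chartExp n v a1 a2) (single (Finsupp.single 1 1) 1)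
        rw [mapDomain_single]
        congr 1
        simp [chartExp]
        abel
  exact congr_arg (fun f ↦ f P) this

lemma chartHom_bijective : Function.Bijective (chartHom k h) := by
  constructor
  · intro P Q hPQ
    have h1 := congr_arg (aL k) hPQ
    rw [aL_chartHom, aL_chartHom] at h1
    exact mapDomain_injective (chartExp_injective h)
      (IsFractionRing.injective (Lau k) (FractionRing (Lau k)) h1)
  · intro z
    obtain ⟨l, a, ha, rfl⟩ := Away.mk_surjective (hG k n) (mon_mem k n v h.hv) z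
    suffices H : ∃ P, aL k (chartHom k h P) =
        algebraMap (Lau k) _ (single (-(l • hincl n v)) 1 * hψ₀ k n a) by
      obtain ⟨P, hP⟩ := H
      refine ⟨P, ?_⟩
      apply awL_injective (hψ_injective k n) (mon k n v) (mon_ne_zero k n v)
      refine hP.trans ?_
      exact (aL_mk k h.hv l a ha).symm
    refine grade_induction k (hdeg n) (l • 1) (fun a ↦ ∃ P, aL k (chartHom k h P) =
        algebraMap (Lau k) _ (single (-(l • hincl n v)) 1 * hψ₀ k n a)) ?_ ?_ ?_ a ha
    · exact ⟨0, by simp⟩
    · rintro x y ⟨P, hP⟩ ⟨Q, hQ⟩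
      exact ⟨P + Q, by rw [map_add, map_add, hP, hQ, map_add, mul_add, map_add]⟩
    · intro m c hm
      obtain ⟨s, t, hst⟩ := h.gen m
      refine ⟨MvPolynomial.monomial (Finsupp.single 0 s + Finsupp.single 1 t) c, ?_⟩
      rw [aL_chartHom]
      congr 1
      change mapDomain (chartExp n v a1 a2) (single (Finsupp.single 0 s + Finsupp.single 1 t) c) = _
      rw [mapDomain_single, hψ₀_single, single_mul_single, one_mul]
      congr 1
      rw [hm] at hst
      simp only [smul_eq_mul, mul_one] at hst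
      have e1 : hincl n m = l • hincl n v + s • hincl n a1 + t • hincl n a2 -
        (s + t) • hincl n v := by rw [← hst]; abel
      rw [e1]
      simp only [chartExp, AddMonoidHom.coe_mk, ZeroHom.coe_mk, Finsupp.add_apply,
        Finsupp.single_apply, add_smul, smul_sub]
      simp
      abel

end chart

section charts

variable (n : ℕ)

/-- auxiliary generators -/
def w01 : hM n := ⟨(1, 1, 1), by rw [mem_hM]; simp⟩
/-- auxiliary generators -/
def w11 : hM n := ⟨(n, 1, 1), by rw [mem_hM]; simp⟩

lemma chart00 : ChartData n (v00 n) (v10 n) (v01 n) where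
  hv := rfl
  h1 := rfl
  h2 := rfl
  gen := by
    rintro ⟨⟨i, j, d⟩, hm⟩
    have hm' := hm
    rw [mem_hM] at hm'
    obtain ⟨h1, h2, h3, h4⟩ := hm'
    refine ⟨i.toNat, j.toNat, ?_⟩
    simp [hincl, v00, v10, v01, hdeg, Int.toNat_of_nonneg h1, Int.toNat_of_nonneg h3]
    ring
  indep := by
    intro s t s' t' h
    simp [hincl, v00, v10, v01] at h
    exact h

lemma chart10 : ChartData n (v10 n) (v00 n) (v11 n) where
  hv := rfl
  h1 := rfl
  h2 := rfl
  gen := by
    rintro ⟨⟨i, j, d⟩, hm⟩
    have hm' := hm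
    rw [mem_hM] at hm'
    obtain ⟨h1, h2, h3, h4⟩ := hm'
    refine ⟨(d + n * j - i).toNat, j.toNat, ?_⟩
    simp [hincl, v00, v10, v11, hdeg, Int.toNat_of_nonneg h1, Int.toNat_of_nonneg (sub_nonneg.mpr h4)]
    constructor <;> ring
  indep := by
    intro s t s' t' h
    simp [hincl, v00, v10, v11] at h
    obtain ⟨h1, h2⟩ := h
    subst h2
    refine ⟨?_, rfl⟩
    omega

lemma chart01 : ChartData n (v01 n) (w01 n) (v00 n) where
  hv := rfl
  h1 := rfl
  h2 := rfl
  gen := by
    rintro ⟨⟨i, j, d⟩, hm⟩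
    have hm' := hm
    rw [mem_hM] at hm'
    obtain ⟨h1, h2, h3, h4⟩ := hm'
    refine ⟨i.toNat, (d - j).toNat, ?_⟩
    simp [hincl, v00, w01, v01, hdeg, Int.toNat_of_nonneg h3, Int.toNat_of_nonneg (sub_nonneg.mpr h2)]
    constructor <;> ring
  indep := by
    intro s t s' t' h
    simp [hincl, v00, w01, v01] at h
    exact h

lemma chart11 : ChartData n (v11 n) (w11 n) (v10 n) where
  hv := rfl
  h1 := rfl
  h2 := rfl
  gen := by
    rintro ⟨⟨i, j, d⟩, hm⟩
    have hm' := hm
    rw [mem_hM] at hm'
    obtain ⟨h1, h2, h3, h4⟩ := hm'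
    refine ⟨(d + n * j - i).toNat, (d - j).toNat, ?_⟩
    simp [hincl, v10, w11, v11, hdeg, Int.toNat_of_nonneg (sub_nonneg.mpr h4),
      Int.toNat_of_nonneg (sub_nonneg.mpr h2)]
    refine ⟨?_, ?_, ?_⟩ <;> ring
  indep := by
    intro s t s' t' h
    simp [hincl, v10, w11, v11] at h
    obtain ⟨h1, h2⟩ := h
    subst h2
    refine ⟨?_, rfl⟩
    omega

end charts

section smooth

variable (k : Type u) [Field k] (n : ℕ)

/-- The structure morphism of the Hirzebruch surface. -/
noncomputable def HXto : HX k n ⟶ Spec (.of k) :=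
  Proj.toSpecZero (hG k n) ≫ Spec.map (CommRingCat.ofHom (algebraMap k (hG k n 0)))

lemma smooth_cst {n : ℕ} {v a1 a2 : hM n} (h : ChartData n v a1 a2) :
    (cst k (v := v)).Smooth := by
  have e1 : (cst k (v := v)) = (chartHom k h).comp (MvPolynomial.C) := by
    ext c
    simp [chartHom]
  rw [e1]
  apply RingHom.Smooth.comp
  · rw [← MvPolynomial.algebraMap_eq, RingHom.smooth_algebraMap]
    constructor
    · infer_instance
    · infer_instance
  · exact RingHom.Smooth.of_bijective (chartHom_bijective k h)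

lemma iSup_bO : ⨆ v : ({v00 n, v10 n, v01 n, v11 n} : Set (hM n)), bO k n v = ⊤ := by
  rw [eq_top_iff]
  intro x _
  rw [Opens.mem_iSup]
  rcases exists_vertex k n x with h | h | h | h
  · exact ⟨⟨v00 n, by simp⟩, h⟩
  · exact ⟨⟨v10 n, by simp⟩, h⟩
  · exact ⟨⟨v01 n, by simp⟩, h⟩
  · exact ⟨⟨v11 n, by simp⟩, h⟩

lemma smooth_HXto : Smooth (HXto k n) := by
  rw [IsZariskiLocalAtSource.iff_of_iSup_eq_top (P := @Smooth) _ (iSup_bO k n)]
  rintro ⟨v, hv⟩
  have hd : hdeg n v = 1 := by
    rcases hv with rfl | rfl | rfl | rfl <;> rfl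
  have hs : (cst k (v := v)).Smooth := by
    rcases hv with rfl | rfl | rfl | rfl
    · exact smooth_cst k (chart00 n)
    · exact smooth_cst k (chart10 n)
    · exact smooth_cst k (chart01 n)
    · exact smooth_cst k (chart11 n)
  change Smooth ((Proj.basicOpen (hG k n) (mon k n v)).ι ≫ HXto k n)
  rw [← MorphismProperty.cancel_left_of_respectsIso (P := @Smooth)
    (Proj.basicOpenIsoSpec (hG k n) (mon k n v) (mon_mem k n v hd) one_pos).inv]
  have e : (Proj.basicOpenIsoSpec (hG k n) (mon k n v) (mon_mem k n v hd) one_pos).inv ≫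
      (Proj.basicOpen (hG k n) (mon k n v)).ι ≫ HXto k n =
      Spec.map (CommRingCat.ofHom (cst k (v := v))) := by
    rw [← Category.assoc]
    change Proj.awayι _ _ _ _ ≫ _ = _
    rw [HXto, ← Category.assoc, Proj.awayι_toSpecZero, ← Spec.map_comp, ← CommRingCat.ofHom_comp]
    rfl
  rw [e, HasRingHomProperty.Spec_iff (P := @Smooth)]
  exact hs

end smooth

end Pool.Agent.Helper72
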