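import Mathlib
import Pool.Agent.Helper72.ProjEmb
import Pool.Agent.Helper72.PSpace
import Pool.Agent.Helper72.SmoothHX

open AlgebraicGeometry CategoryTheory Limits TopologicalSpace Opposite HomogeneousLocalization
open AddMonoidAlgebra

universe u

namespace Pool.Agent.Helper72

section

variable {k A B : Type u} [CommRing k] [CommRing A] [CommRing B] [Algebra k A] [Algebra k B]
  {𝒜 : ℕ → Submodule k A} {ℬ : ℕ → Submodule k B} [GradedAlgebra 𝒜] [GradedAlgebra ℬ]
  (f : 𝒜 →+*ᵍ ℬ)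

lemma map_toSpec_aux (hk : ∀ c : k, f (algebraMap k A c) = algebraMap k B c)
    (h : HomogeneousIdeal.irrelevant ℬ ≤ (HomogeneousIdeal.irrelevant 𝒜).map f)
    {i : ℕ} (hi : 0 < i) (s : A) (hs : s ∈ 𝒜 i) :
    Proj.awayι ℬ (f s) (f.map_mem hs) hi ≫ Proj.map f h ≫ Proj.toSpecZero 𝒜 ≫
      Spec.map (CommRingCat.ofHom (algebraMap k (𝒜 0))) =
      Proj.awayι ℬ (f s) (f.map_mem hs) hi ≫
        Proj.toSpecZero ℬ ≫ Spec.map (CommRingCat.ofHom (algebraMap k (ℬ 0))) := by
  rw [Proj.awayι_comp_map_assoc f h hi s hs, Proj.awayι_toSpecZero_assoc,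
    Proj.awayι_toSpecZero_assoc, ← Spec.map_comp, ← Spec.map_comp, ← Spec.map_comp,
    ← CommRingCat.ofHom_comp, ← CommRingCat.ofHom_comp, ← CommRingCat.ofHom_comp]
  congr 2
  refine RingHom.ext fun c ↦ ?_
  have e1 : algebraMap k (ℬ 0) c = ⟨f (algebraMap k (𝒜 0) c : A), f.map_mem (SetLike.coe_mem _)⟩ :=
    Subtype.ext (hk c).symm
  have h2 : (1 : B) = f 1 := (map_one f).symm
  simp only [RingHom.comp_apply]
  rw [e1]
  change Away.map f s (HomogeneousLocalization.mk ⟨0, algebraMap k (𝒜 0) c, 1, one_mem _⟩) =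
    HomogeneousLocalization.mk ⟨0, ⟨f (algebraMap k (𝒜 0) c : A), _⟩, 1, one_mem _⟩
  rw [Away.map, HomogeneousLocalization.map_mk]
  apply val_injective
  simp [val_mk]

lemma map_toSpec (hk : ∀ c : k, f (algebraMap k A c) = algebraMap k B c)
    (h : HomogeneousIdeal.irrelevant ℬ ≤ (HomogeneousIdeal.irrelevant 𝒜).map f) :
    Proj.map f h ≫ Proj.toSpecZero 𝒜 ≫ Spec.map (CommRingCat.ofHom (algebraMap k (𝒜 0))) =
      Proj.toSpecZero ℬ ≫ Spec.map (CommRingCat.ofHom (algebraMap k (ℬ 0))) := by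
  refine (Proj.mapAffineOpenCover f h).openCover.hom_ext _ _ fun s ↦ ?_
  exact map_toSpec_aux f hk h s.1.pos s.2.1 s.2.2

end

section

attribute [local instance] MvPolynomial.gradedAlgebra

variable (k : Type u) [Field k] (n : ℕ)

/-- the lattice points of degree one -/
def gpt (l : Fin (n + 4)) : hM n :=
  if h : l.1 < 2 then ⟨(l.1, 0, 1), by rw [mem_hM]; omega⟩ else
    ⟨((l.1 - 2 : ℕ), 1, 1), by rw [mem_hM]; omega⟩

lemma hdeg_gpt (l : Fin (n + 4)) : hdeg n (gpt n l) = 1 := by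
  rw [gpt]
  split_ifs <;> rfl

/-- the surjection from the polynomial ring -/
noncomputable def gφ : MvPolynomial (Fin (n + 4)) k →ₐ[k] HR k n :=
  MvPolynomial.aeval (fun l ↦ mon k n (gpt n l))

lemma gφ_mem (d : ℕ) (P : MvPolynomial (Fin (n + 4)) k)
    (hP : P ∈ MvPolynomial.homogeneousSubmodule (Fin (n + 4)) k d) : gφ k n P ∈ hG k n d := by
  rw [gφ, MvPolynomial.aeval_def, MvPolynomial.eval₂_eq]
  refine Submodule.sum_mem _ fun m hm ↦ ?_
  rw [← Algebra.smul_def]
  apply Submodule.smul_mem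
  have h1 : ∑ i ∈ m.support, m i • 1 = d := by
    rw [MvPolynomial.mem_homogeneousSubmodule] at hP
    have := hP (MvPolynomial.mem_support_iff.mp hm)
    rw [← this]
    simp [Finsupp.weight_apply, Finsupp.sum]
  rw [← h1]
  exact SetLike.prod_pow_mem_graded (hG k n) _ _ _ fun i _ ↦ mon_mem k n _ (hdeg_gpt n i)

/-- the graded surjection from the polynomial ring -/
noncomputable def gΦ : MvPolynomial.homogeneousSubmodule (Fin (n + 4)) k →+*ᵍ hG k n where
  __ := (gφ k n).toRingHom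
  map_mem h := gφ_mem k n _ _ h

lemma gpt_val_lt (l : Fin (n + 4)) (h : l.1 < 2) : (gpt n l).1 = ((l.1 : ℤ), 0, 1) := by
  rw [gpt, dif_pos h]

lemma gpt_val_ge (l : Fin (n + 4)) (h : ¬ l.1 < 2) : (gpt n l).1 = (((l.1 - 2 : ℕ) : ℤ), 1, 1) := by
  rw [gpt, dif_neg h]

lemma exists_sub (m : hM n) (d : ℕ) (hd : hdeg n m = d + 1) :
    ∃ (l : Fin (n + 4)) (m' : hM n), m = gpt n l + m' ∧ hdeg n m' = d := by
  obtain ⟨⟨i, j, d'⟩, hm⟩ := m
  obtain rfl : d' = d + 1 := hd
  rw [mem_hM] at hm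
  obtain ⟨h1, h2, h3, h4⟩ := hm
  rw [Nat.cast_add, Nat.cast_one] at h2 h4
  rcases h1.eq_or_lt with rfl | hj
  · rcases h3.eq_or_lt with rfl | hi
    · refine ⟨⟨0, by omega⟩, ⟨(0, 0, d), by rw [mem_hM]; omega⟩, ?_, rfl⟩
      refine Subtype.ext ?_
      rw [AddSubmonoid.coe_add, gpt_val_lt n _ (by simp)]
      simp only [Prod.mk_add_mk, Prod.mk.injEq]
      exact ⟨by simp, by simp, by omega⟩
    · refine ⟨⟨1, by omega⟩, ⟨(i - 1, 0, d), by rw [mem_hM]; omega⟩, ?_, rfl⟩
      refine Subtype.ext ?_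
      rw [AddSubmonoid.coe_add, gpt_val_lt n _ (by simp)]
      simp only [Prod.mk_add_mk, Prod.mk.injEq]
      exact ⟨by simp, by simp, by omega⟩
  · obtain ⟨j, rfl⟩ : ∃ j' : ℤ, j = j' + 1 := ⟨j - 1, by ring⟩
    rw [mul_add, mul_one] at h4
    have hj0 : 0 ≤ (n : ℤ) * j := mul_nonneg (by omega) (by omega)
    by_cases hi : i ≤ n + 1
    · obtain ⟨i, rfl⟩ := Int.eq_ofNat_of_zero_le h3
      refine ⟨⟨i + 2, by omega⟩, ⟨(0, j, d), by
        rw [mem_hM]; refine ⟨by omega, by omega, by omega, by linarith⟩⟩, ?_, rfl⟩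
      refine Subtype.ext ?_
      rw [AddSubmonoid.coe_add, gpt_val_ge n _ (by simp)]
      simp only [Prod.mk_add_mk, Prod.mk.injEq]
      exact ⟨by simp, by omega, by omega⟩
    · refine ⟨⟨n + 3, by omega⟩, ⟨(i - n - 1, j, d), by
        rw [mem_hM]; refine ⟨by omega, by omega, by omega, by linarith⟩⟩, ?_, rfl⟩
      refine Subtype.ext ?_
      rw [AddSubmonoid.coe_add, gpt_val_ge n _ (by simp)]
      simp only [Prod.mk_add_mk, Prod.mk.injEq]
      exact ⟨by omega, by omega, by omega⟩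

lemma gφ_surjective : Function.Surjective (gφ k n) := by
  rw [← AlgHom.range_eq_top, eq_top_iff]
  have key : ∀ (d : ℕ) (m : hM n), hdeg n m = d → (mon k n m) ∈ (gφ k n).range := by
    intro d
    induction d with
    | zero =>
      intro m hm
      have : m = 0 := by
        obtain ⟨⟨i, j, d'⟩, hm'⟩ := m
        obtain rfl : d' = 0 := hm
        rw [mem_hM] at hm'
        obtain ⟨h1, h2, h3, h4⟩ := hm'
        obtain rfl : j = 0 := by simp at h2; omega
        obtain rfl : i = 0 := by simp at h4; omega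
        rfl
      rw [this]
      exact one_mem _
    | succ d ih =>
      intro m hm
      obtain ⟨l, m', rfl, hm'⟩ := exists_sub n m d hm
      have : mon k n (gpt n l + m') = mon k n (gpt n l) * mon k n m' := by
        simp [mon, single_mul_single]
      rw [this]
      refine mul_mem ⟨MvPolynomial.X l, ?_⟩ (ih m' hm')
      exact MvPolynomial.aeval_X _ _
  intro a _
  rw [← sum_coeff_single a]
  refine Subalgebra.sum_mem _ fun m _ ↦ ?_
  have : (single m (a.coeff m) : HR k n) = a.coeff m • mon k n m := by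
    simp [mon]
  rw [this]
  exact Subalgebra.smul_mem _ (key _ m rfl) _

end

attribute [local instance] MvPolynomial.gradedAlgebra in
theorem isProjectiveOver_HXto (k : Type u) [Field k] (n : ℕ) : IsProjectiveOver (HXto k n) := by
  have hs : Function.Surjective (gΦ k n) := gφ_surjective k n
  have h := irrelevant_le_of_surjective (gΦ k n) hs
  refine ⟨n + 3, Proj.map (gΦ k n) h, isClosedImmersion_map (gΦ k n) hs h, ?_⟩
  exact map_toSpec (gΦ k n) (fun c ↦ (gφ k n).commutes c) h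

end Pool.Agent.Helper72
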