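import Mathlib
import Pool.Agent.Helper72.NonInj

open AlgebraicGeometry CategoryTheory TopologicalSpace Opposite HomogeneousLocalization
open AddMonoidAlgebra

universe u

namespace Pool.Agent.Helper72

theorem isFSplit_HX (k : Type u) [Field k] (n p : ℕ) [hp : Fact p.Prime] [CharP k p]
    [PerfectRing k p] : IsFSplit (HX k n) p := by
  have hmem : ∀ x ∈ (⊤ : (HX k n).Opens), ∀ z ∈ (toL (hG k n) (hψ k n) (hψ_injective k n) x).range,
      extHom (L := FractionRing (Lau k)) (monOp (fsC p) (fsS p) (fsσ k p))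
        (pow_pos hp.out.pos 1) (fs_linear k p) z ∈
      (toL (hG k n) (hψ k n) (hψ_injective k n) x).range := by
    intro x _ z hz
    refine monOp_mem_range k n 1 0 _ _ _ _ (fs_linear k p) 0 (fs_hv n p) x ?_ z hz
    exact fun h ↦ x.isPrime.ne_top ((Ideal.eq_top_iff_one _).mpr h)
  refine ⟨fun V ↦ opHom (hψ_injective k n) one_pos (mon_mem k n (v00 n) rfl)
    (mon_ne_zero k n (v00 n)) _ ⊤ hmem V le_top, ?_, ?_, ?_⟩
  · intro V W h a
    exact opHom_res (hψ_injective k n) one_pos (mon_mem k n (v00 n) rfl)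
      (mon_ne_zero k n (v00 n)) _ ⊤ hmem V W h le_top a
  · intro V a b
    have := opHom_linear (hψ_injective k n) one_pos (mon_mem k n (v00 n) rfl)
      (mon_ne_zero k n (v00 n)) _ ⊤ hmem (q := p ^ 1) (r := p ^ 0)
      (extHom_linear _ _ (fs_linear k p)) V le_top a b
    have e1 : a ^ p * b = a ^ p ^ 1 * b := by rw [pow_one]
    rw [e1]
    refine this.trans (congrArg (· * _) ?_)
    rw [pow_zero, pow_one]
  · intro V
    apply gL_ext
    intro hV
    have h1 : gL k n V hV 1 = 1 := map_one _
    refine (opHom_spec (hψ_injective k n) one_pos (mon_mem k n (v00 n) rfl)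
      (mon_ne_zero k n (v00 n)) _ ⊤ hmem V le_top hV 1).trans ?_
    change extHom _ _ _ (gL k n V hV 1) = gL k n V hV 1
    rw [h1, ← map_one (algebraMap (Lau k) (FractionRing (Lau k))),
      extHom_algebraMap, AddMonoidAlgebra.one_def, monOp_single_pos]
    · simp [fsS, fsσ]
      rfl
    · simp [fsC]

theorem isIntegral_HX (k : Type u) [Field k] (n : ℕ) : IsIntegral (HX k n) where
  nonempty := ⟨gP k n⟩
  component_integral U hU := by
    have hη : gP k n ∈ U := by
      obtain ⟨x, hx⟩ := hU
      exact genPt_mem _ _ _ U x hx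
    exact (gToL_injective (hψ_injective k n) one_pos (mon_mem k n (v00 n) rfl)
      (mon_ne_zero k n (v00 n)) U hη).isDomain (gL k n U hη)

end Pool.Agent.Helper72
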