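import Mathlib
import Pool.Agent.Helper72.H1NonInj
import Pool.Agent.Helper72.Props
import Pool.Agent.Helper72.ProjHX
import Pool.Agent.Helper72.FrobBridge

open AlgebraicGeometry CategoryTheory

universe u

namespace Pool.Agent.Helper72

theorem main_5ac764 (p : ℕ) [hp : Fact p.Prime] (k : Type u) [Field k] [CharP k p]
    [PerfectField k] :
    ∃ (X : Scheme.{u}) (f : X ⟶ Spec (.of k)),
      IsIntegral X ∧ Smooth f ∧ IsProjectiveOver f ∧ Frob.IsFSplit X p ∧
      ∀ (e e' : ℕ) (_ : 1 ≤ e) (h : e < e'),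
        ¬ Function.Injective
          (Sheaf.H.map (Frob.DSheaf.incl (X := X) (pow_dvd_pow p h.le)) 1) := by
  have : ExpChar k p := ExpChar.prime hp.out
  have : PerfectRing k p := inferInstance
  have hF : Frob.IsFSplit (HX k p) p := by
    obtain ⟨φ, h1, h2, h3⟩ := isFSplit_HX k p p
    exact ⟨fun V ↦ φ V.1, fun V W h a ↦ h1 V.1 W.1 h a, fun V a b ↦ h2 V.1 a b, fun V ↦ h3 V.1⟩
  exact ⟨HX k p, HXto k p, isIntegral_HX k p, smooth_HXto k p, isProjectiveOver_HXto k p,
    hF, fun e e' he h ↦ Frob.bridge _ _ (H1_not_injective k p he h _)⟩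

end Pool.Agent.Helper72
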