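import Mathlib

open AlgebraicGeometry CategoryTheory TopologicalSpace Opposite

universe u

namespace Pool.Agent.Helper72.VB

/-! ### Functions on schemes -/

/-- The ring of sections of `𝒪_X` over the open set `V`. -/
def Sec (X : Scheme.{u}) (V : X.Opens) : Type u := Γ(X, V)

instance (X : Scheme.{u}) (V : X.Opens) : CommRing (Sec X V) :=
  (X.presheaf.obj (op V)).commRing

variable {X : Scheme.{u}}

/-- Restriction of functions. -/
def res {V W : X.Opens} (h : V ≤ W) : Sec X W →+* Sec X V :=
  (X.presheaf.map (homOfLE h).op).hom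

/-- Restriction of functions. -/
def rs {V W : X.Opens} (h : V ≤ W) (a : Sec X W) : Sec X V := res h a

/-- The open set of points of `V` at which the function `s` does not vanish. -/
def nz {V : X.Opens} (s : Sec X V) : X.Opens := X.basicOpen (show Γ(X, V) from s)

/-- Pull-back of functions along a morphism. -/
def pull {Y : Scheme.{u}} (π : Y ⟶ X) (V : X.Opens) : Sec X V →+* Sec Y (π ⁻¹ᵁ V) :=
  (π.app V).hom

/-- Pull-back of functions along a morphism. -/
def pullS {Y : Scheme.{u}} (π : Y ⟶ X) (V : X.Opens) (a : Sec X V) : Sec Y (π ⁻¹ᵁ V) :=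
  pull π V a

/-- A morphism of commutative rings as a ring homomorphism. -/
def toHom {R S : Type u} [CommRing R] [CommRing S] (g : CommRingCat.of R ⟶ CommRingCat.of S) :
    R →+* S := g.hom

/-- The elements of `k` as global functions on a `k`-scheme. -/
noncomputable def glob {k : Type u} [Field k] (f : X ⟶ Spec (.of k)) : k →+* Sec X ⊤ :=
  toHom (S := Sec X ⊤) ((Scheme.ΓSpecIso (.of k)).inv ≫ f.appTop)

/-- The elements of `k` as functions on an open subset of a `k`-scheme. -/
noncomputable def const {k : Type u} [Field k] (f : X ⟶ Spec (.of k)) (V : X.Opens) :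
    k →+* Sec X V :=
  (res le_top).comp (glob f)

lemma res_res {U V W : X.Opens} (h : U ≤ V) (h' : V ≤ W) (a : Sec X W) :
    res h (res h' a) = res (h.trans h') a := by
  change (X.presheaf.map _ ≫ X.presheaf.map _) _ = _
  rw [← X.presheaf.map_comp]
  rfl

/-! ### Invertible matrices and polynomials -/

section

variable {r : ℕ} {R S : Type u} [CommRing R] [CommRing S]

/-- Invertible matrices of size `r`. -/
abbrev GLn (r : ℕ) (R : Type u) [CommRing R] := GL (Fin r) R

/-- Apply a ring homomorphism to the entries of an invertible matrix. -/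
def mapGL (f : R →+* S) : GL (Fin r) R →* GL (Fin r) S :=
  Matrix.GeneralLinearGroup.map f

/-- Apply a ring homomorphism to the entries of an invertible matrix. -/
def chg (f : R →+* S) (g : GLn r R) : GLn r S := mapGL f g

/-- The product of invertible matrices. -/
def mulGL (g h : GLn r R) : GLn r R := g * h

/-- The entries of an invertible matrix. -/
def ent (g : GLn r R) (a b : Fin r) : R := (g : Matrix (Fin r) (Fin r) R) a b

/-- The product of an invertible matrix and a column vector. -/
def mulVec (g : GLn r R) (v : Fin r → R) : Fin r → R := (g : Matrix (Fin r) (Fin r) R).mulVec v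

/-- Homomorphisms `GL_r(R) → GL_r'(R)`. -/
abbrev GLHom (r r' : ℕ) (R : Type u) [CommRing R] := GL (Fin r) R →* GL (Fin r') R

/-- The value of a homomorphism. -/
def app {r' : ℕ} (ρ : GLHom r r' R) (g : GLn r R) : GLn r' R := ρ g

/-- Polynomials in `r` variables. -/
abbrev Pol (r : ℕ) (R : Type u) [CommRing R] := MvPolynomial (Fin r) R

/-- Apply a ring homomorphism to the coefficients of a polynomial. -/
noncomputable def mapPol (f : R →+* S) (F : Pol r R) : Pol r S := MvPolynomial.map f F

/-- The linear form `∑ a, v a • X a`. -/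
noncomputable def linForm (v : Fin r → R) : Pol r R :=
  ∑ a, MvPolynomial.C (v a) * MvPolynomial.X a

/-- The linear substitution `X b ↦ ∑ a, g a b • X a`. -/
noncomputable def subst (g : GLn r R) (F : Pol r R) : Pol r R :=
  MvPolynomial.bind₁ (fun b ↦ linForm fun a ↦ ent g a b) F

/-- The linear combination `∑ l, c l • F l`. -/
noncomputable def lin {m : ℕ} (c : Fin m → R) (F : Fin m → Pol r R) : Pol r R :=
  ∑ l, MvPolynomial.C (c l) * F l

/-- `S` is the polynomial ring over `R` in the elements `t b` (via `f`). -/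
def IsPolyRing {β : Type} (f : R →+* S) (t : β → S) : Prop :=
  Function.Bijective (MvPolynomial.eval₂Hom f t)

/-- The product of two elements. -/
def mulR (a b : R) : R := a * b

/-- The sum `∑ a, v a`. -/
def sumR (v : Fin r → R) : R := ∑ a, v a

end

/-! ### Vector sheaves, given by transition matrices -/

/-- The cocycle condition for transition matrices. -/
def IsCocycle {r : ℕ} {ι : Type} (U : ι → X.Opens) (g : ∀ i j, GLn r (Sec X (U i ⊓ U j))) :
    Prop :=
  ∀ (i j l : ι) (W : X.Opens) (hi : W ≤ U i) (hj : W ≤ U j) (hl : W ≤ U l),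
    mulGL (chg (res (le_inf hi hj)) (g i j)) (chg (res (le_inf hj hl)) (g j l)) =
      chg (res (le_inf hi hl)) (g i l)

/-- A vector sheaf of rank `r` on `X`, given by an affine open cover `U i` and transition matrices
`g i j` over `U i ∩ U j`.  A section is a family of column vectors `s i` over `U i` with
`s i = g i j * s j`; so the local frames satisfy `e j b = ∑ a, g i j a b • e i a`. -/
structure VSheaf (X : Scheme.{u}) (r : ℕ) where
  ι : Type
  U : ι → X.Opens
  affine : ∀ i, IsAffineOpen (U i)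
  cover : ⨆ i, U i = ⊤
  g : ∀ i j, GLn r (Sec X (U i ⊓ U j))
  cocycle : IsCocycle U g

/-- A representation `GL_r → GL_r'` of algebraic groups over `k`, given by its values on the
points with coordinates in the commutative `k`-algebras `φ : k →+* R`. -/
structure AlgRep (k : Type u) [Field k] (r r' : ℕ) where
  map : ∀ (R : Type u) [CommRing R], (k →+* R) → GLHom r r' R
  natural' : ∀ (R S : Type u) [CommRing R] [CommRing S] (φ : k →+* R) (f : R →+* S)
    (g : GLn r R), app (map S (f.comp φ)) (chg f g) = chg f (app (map R φ) g)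

lemma AlgRep.natural {k : Type u} [Field k] {r r' : ℕ} (ρ : AlgRep k r r') (R S : Type u)
    [CommRing R] [CommRing S] (φ : k →+* R) (f : R →+* S)
    (g : GL (Fin r) R) : ρ.map S (f.comp φ) (mapGL f g) = mapGL f (ρ.map R φ g) :=
  ρ.natural' R S φ f g

/-- The representation is trivial on the scalar matrices of `GL_r(k)`. -/
def AlgRep.FactorsThroughPGL {k : Type u} [Field k] {r r' : ℕ} (ρ : AlgRep k r r') : Prop :=
  ∀ c : kˣ, ρ.map k (RingHom.id k) (Matrix.GeneralLinearGroup.scalar (Fin r) c) = 1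

section

variable {k : Type u} [Field k] (f : X ⟶ Spec (.of k))

lemma res_const {V W : X.Opens} (h : V ≤ W) : (res h).comp (const f W) = const f V := by
  exact RingHom.ext fun c ↦ res_res h le_top (glob f c)

lemma assoc_cocycle {r r' : ℕ} (E : VSheaf X r) (ρ : AlgRep k r r') :
    IsCocycle E.U fun i j ↦ app (ρ.map _ (const f _)) (E.g i j) := by
  intro i j l W hi hj hl
  change mapGL _ (ρ.map _ _ _) * mapGL _ (ρ.map _ _ _) = mapGL _ (ρ.map _ _ _)
  rw [← ρ.natural, ← ρ.natural, ← ρ.natural, res_const, res_const, res_const, ← map_mul]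
  exact congrArg (ρ.map _ (const f W)) (E.cocycle i j l W hi hj hl)

/-- The vector sheaf `E^(ρ)`, obtained by applying `ρ` to the transition matrices. -/
noncomputable def VSheaf.assoc {r r' : ℕ} (E : VSheaf X r) (ρ : AlgRep k r r') : VSheaf X r' where
  ι := E.ι
  U := E.U
  affine := E.affine
  cover := E.cover
  g i j := app (ρ.map _ (const f _)) (E.g i j)
  cocycle := assoc_cocycle f E ρ

end

/-- `s` is a global section of `E`. -/
def VSheaf.IsSection {r : ℕ} (E : VSheaf X r) (s : ∀ i, Fin r → Sec X (E.U i)) : Prop :=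
  ∀ i j, (fun a ↦ rs inf_le_left (s i a)) = mulVec (E.g i j) fun a ↦ rs inf_le_right (s j a)

/-- `E` is unstable: for some representation `ρ` factoring through `PGL_r(k)` the sheaf `E^(ρ)`
has a nonzero global section `s` vanishing at some point `x`. -/
def VSheaf.IsUnstable {k : Type u} [Field k] (f : X ⟶ Spec (.of k)) {r : ℕ} (E : VSheaf X r) :
    Prop :=
  ∃ (r' : ℕ) (ρ : AlgRep k r r'), ρ.FactorsThroughPGL ∧
    ∃ s : ∀ i, Fin r' → Sec X (E.U i), (E.assoc f ρ).IsSection s ∧ (∃ i a, s i a ≠ 0) ∧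
      ∃ x : X, ∀ i a, x ∉ nz (s i a)

/-- `F` is a global section of the symmetric power `S^n E`: a family of homogeneous polynomials
`F i` of degree `n` in the local frame `e i`, with the substitution `e j b = ∑ a, g i j a b • e i a`
on overlaps. -/
def VSheaf.IsSymSection {r : ℕ} (E : VSheaf X r) (n : ℕ)
    (F : ∀ i, Pol r (Sec X (E.U i))) : Prop :=
  (∀ i, (F i).IsHomogeneous n) ∧
  ∀ i j, mapPol (res inf_le_left) (F i) = subst (E.g i j) (mapPol (res inf_le_right) (F j))

/-- `h^0(X, S^n E) ≥ m`: there are `m` global sections of `S^n E` that are linearly independent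
over `k`. -/
def VSheaf.SymH0Ge {k : Type u} [Field k] (f : X ⟶ Spec (.of k)) {r : ℕ} (E : VSheaf X r)
    (n m : ℕ) : Prop :=
  ∃ F : Fin m → ∀ i, Pol r (Sec X (E.U i)), (∀ l, E.IsSymSection n (F l)) ∧
    ∀ c : Fin m → k, (∀ i, lin (fun l ↦ const f _ (c l)) (fun l ↦ F l i) = 0) → c = 0

/-- `E` is big: `h^0(X, S^n E) ≥ c n^(dim X + r - 1)` for some `c > 0` and all large `n` that are
divisible by some fixed `N`. -/
def VSheaf.IsBig {k : Type u} [Field k] (f : X ⟶ Spec (.of k)) {r : ℕ} (E : VSheaf X r) : Prop :=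
  ∃ d : ℕ, topologicalKrullDim X = d ∧ ∃ (c : ℝ) (N n₀ : ℕ), 0 < c ∧ 0 < N ∧
    ∀ n, n₀ ≤ n → N ∣ n → ∃ m : ℕ, c * (n : ℝ) ^ (d + r - 1) ≤ m ∧ E.SymH0Ge f n m

/-! ### Line sheaves -/

/-- The invertible functions on `V`. -/
abbrev SecU (X : Scheme.{u}) (V : X.Opens) : Type u := (Sec X V)ˣ

/-- Restriction of invertible functions. -/
def resU {V W : X.Opens} (h : V ≤ W) : (Sec X W)ˣ →* (Sec X V)ˣ :=
  Units.map (res h).toMonoidHom

/-- Restriction of invertible functions. -/
def rsU {V W : X.Opens} (h : V ≤ W) (a : SecU X W) : SecU X V := resU h a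

/-- The product of invertible functions. -/
def mulU {V : X.Opens} (a b : SecU X V) : SecU X V := a * b

/-- The power of an invertible function, the exponent being an integer. -/
def powU {V : X.Opens} (a : SecU X V) (n : ℤ) : SecU X V := a ^ n

/-- An invertible function as a function. -/
def valU {V : X.Opens} (a : SecU X V) : Sec X V := a.val

/-- The cocycle condition for transition functions. -/
def IsLCocycle {ι : Type} (U : ι → X.Opens) (g : ∀ i j, SecU X (U i ⊓ U j)) : Prop :=
  ∀ (i j l : ι) (W : X.Opens) (hi : W ≤ U i) (hj : W ≤ U j) (hl : W ≤ U l),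
    mulU (rsU (le_inf hi hj) (g i j)) (rsU (le_inf hj hl) (g j l)) = rsU (le_inf hi hl) (g i l)

/-- A line sheaf on `P`, given by transition functions `g i j`; a section is a family `s i` of
functions with `s i = g i j * s j`. -/
structure LSheaf (P : Scheme.{u}) where
  ι : Type
  U : ι → P.Opens
  cover : ⨆ i, U i = ⊤
  g : ∀ i j, SecU P (U i ⊓ U j)
  cocycle : IsLCocycle U g

variable {P : Scheme.{u}}

lemma resU_resU {U V W : P.Opens} (h : U ≤ V) (h' : V ≤ W) (a : (Sec P W)ˣ) :
    resU h (resU h' a) = resU (h.trans h') a :=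
  Units.ext (res_res h h' a.1)

lemma pow_cocycle (L : LSheaf P) (n : ℤ) : IsLCocycle L.U fun i j ↦ powU (L.g i j) n := by
  intro i j l W hi hj hl
  change resU _ (L.g i j ^ n) * resU _ (L.g j l ^ n) = resU _ (L.g i l ^ n)
  rw [map_zpow, map_zpow, map_zpow, ← mul_zpow]
  exact congrArg (fun a : (Sec P W)ˣ ↦ a ^ n) (L.cocycle i j l W hi hj hl)

/-- The power `L^n`, `n` an integer. -/
def LSheaf.pow (L : LSheaf P) (n : ℤ) : LSheaf P where
  ι := L.ι
  U := L.U
  cover := L.cover
  g i j := powU (L.g i j) n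
  cocycle := pow_cocycle L n

lemma tensor_cover (L M : LSheaf P) : ⨆ i : L.ι × M.ι, L.U i.1 ⊓ M.U i.2 = ⊤ := by
  rw [iSup_prod]
  simp_rw [← inf_iSup_eq]
  rw [M.cover]
  simpa using L.cover

/-- The transition functions of the tensor product. -/
def tensorG (L M : LSheaf P) (i j : L.ι × M.ι) :
    SecU P ((L.U i.1 ⊓ M.U i.2) ⊓ (L.U j.1 ⊓ M.U j.2)) :=
  mulU (rsU (inf_le_inf inf_le_left inf_le_left) (L.g i.1 j.1))
    (rsU (inf_le_inf inf_le_right inf_le_right) (M.g i.2 j.2))

lemma tensor_cocycle (L M : LSheaf P) :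
    IsLCocycle (fun i : L.ι × M.ι ↦ L.U i.1 ⊓ M.U i.2) (tensorG L M) := by
  intro i j l W hi hj hl
  have h1 : resU _ _ * resU _ _ = resU _ _ :=
    L.cocycle i.1 j.1 l.1 W (hi.trans inf_le_left) (hj.trans inf_le_left) (hl.trans inf_le_left)
  have h2 : resU _ _ * resU _ _ = resU _ _ :=
    M.cocycle i.2 j.2 l.2 W (hi.trans inf_le_right) (hj.trans inf_le_right)
      (hl.trans inf_le_right)
  change resU _ (resU _ _ * resU _ _) * resU _ (resU _ _ * resU _ _) =
    resU _ (resU _ _ * resU _ _)
  rw [map_mul, map_mul, map_mul]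
  simp only [resU_resU]
  rw [← h1, ← h2, mul_mul_mul_comm]

/-- The tensor product of two line sheaves. -/
def LSheaf.tensor (L M : LSheaf P) : LSheaf P where
  ι := L.ι × M.ι
  U i := L.U i.1 ⊓ M.U i.2
  cover := tensor_cover L M
  g := tensorG L M
  cocycle := tensor_cocycle L M

/-- `s` is a section of `L` over the open set `W`. -/
def LSheaf.IsSection (L : LSheaf P) (W : P.Opens) (s : ∀ i, Sec P (W ⊓ L.U i)) : Prop :=
  ∀ i j, rs (inf_le_inf_left W inf_le_left) (s i) =
    mulR (rs inf_le_right (valU (L.g i j))) (rs (inf_le_inf_left W inf_le_right) (s j))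

/-- The open subset of `W` where the section `s` does not vanish. -/
def LSheaf.nonvan (L : LSheaf P) (W : P.Opens) (s : ∀ i, Sec P (W ⊓ L.U i)) : P.Opens :=
  ⨆ i, nz (s i)

lemma LSheaf.nonvan_le (L : LSheaf P) (W : P.Opens) (s : ∀ i, Sec P (W ⊓ L.U i)) :
    L.nonvan W s ≤ W :=
  iSup_le fun _ ↦ (Scheme.basicOpen_le _ _).trans inf_le_left

/-- The base locus of `L`: the set of points at which all global sections of `L` vanish. -/
def LSheaf.baseLocus (L : LSheaf P) : Set P :=
  {x | ∀ s, L.IsSection ⊤ s → x ∉ L.nonvan ⊤ s}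

/-- `A` is ample: `P` is quasi-compact and every point has a neighbourhood `P_s` that is affine,
for a global section `s` of some positive power `A^n`. -/
def LSheaf.IsAmple (A : LSheaf P) : Prop :=
  CompactSpace P ∧ ∀ x : P, ∃ n : ℕ, 0 < n ∧ ∃ s, (A.pow n).IsSection ⊤ s ∧
    x ∈ (A.pow n).nonvan ⊤ s ∧ IsAffineOpen ((A.pow n).nonvan ⊤ s)

/-- The essential base locus of `L`: the intersection over all `n > 0` of the base loci of
`L^n ⊗ A^(-1)`, where `A` is ample. -/
def LSheaf.essBase (L A : LSheaf P) : Set P :=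
  ⋂ n : ℕ, ⋂ _ : 0 < n, ((L.pow n).tensor (A.pow (-1))).baseLocus

/-! ### The projective bundle of a vector sheaf -/

/-- The restriction to `W` of the value of the section `s` in the chart `α`. -/
def LSheaf.at (L : LSheaf P) {V : P.Opens} (s : ∀ α, Sec P (V ⊓ L.U α)) (α : L.ι)
    {W : P.Opens} (h : W ≤ V) (hα : W ≤ L.U α) : Sec P W := rs (le_inf h hα) (s α)

/-- A function on an open subset `U` of `X` as a function on `W ⊆ π⁻¹ U`. -/
def pullOn (π : P ⟶ X) {U : X.Opens} {W : P.Opens} (h : W ≤ π ⁻¹ᵁ U) : Sec X U →+* Sec P W :=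
  (res h).comp (pull π U)

/-- The sections `x i a` transform like the frames `e i a`. -/
def TransLike {r : ℕ} (E : VSheaf X r) (π : P ⟶ X) (L : LSheaf P)
    (x : ∀ (i : E.ι), Fin r → ∀ α, Sec P (π ⁻¹ᵁ E.U i ⊓ L.U α)) : Prop :=
  ∀ i j b α (W : P.Opens) (hi : W ≤ π ⁻¹ᵁ E.U i) (hj : W ≤ π ⁻¹ᵁ E.U j) (hα : W ≤ L.U α),
    L.at (x j b) α hj hα =
      sumR fun a ↦ mulR (pullOn π (le_inf hi hj) (ent (E.g i j) a b)) (L.at (x i a) α hi hα)

/-- The open set `D` where `x a` does not vanish has the polynomial ring over the ring of functions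
on `U` in the coordinates `t b = x b / x a` as its ring of functions. -/
def HasCoords {r : ℕ} (π : P ⟶ X) (L : LSheaf P) {U : X.Opens}
    (x : Fin r → ∀ α, Sec P (π ⁻¹ᵁ U ⊓ L.U α)) (a : Fin r) (D : P.Opens) (h : D ≤ π ⁻¹ᵁ U) :
    Prop :=
  ∃ t : {b : Fin r // b ≠ a} → Sec P D, IsPolyRing (pullOn π h) t ∧
    ∀ b α (W : P.Opens) (hW : W ≤ D) (hα : W ≤ L.U α),
      mulR (rs hW (t b)) (L.at (x a) α (hW.trans h) hα) = L.at (x b) α (hW.trans h) hα

/-- The projective bundle `π : P(E) → X` of one-dimensional quotients of `E` with its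
tautological line sheaf `𝒪(1)`: over `U i` the frame `e i` of `E` gives generating sections
`x i a` of `𝒪(1)`, which transform like the frame, and the locus where `x i a` does not vanish is
the affine space over `U i` with the coordinates `x i b / x i a`, `b ≠ a`. -/
structure ProjBundle {r : ℕ} (E : VSheaf X r) where
  P : Scheme.{u}
  π : P ⟶ X
  O1 : LSheaf P
  x : ∀ (i : E.ι), Fin r → ∀ α, Sec P (π ⁻¹ᵁ E.U i ⊓ O1.U α)
  isSection : ∀ i a, O1.IsSection (π ⁻¹ᵁ E.U i) (x i a)
  trans : TransLike E π O1 x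
  generate : ∀ i, ⨆ a, O1.nonvan (π ⁻¹ᵁ E.U i) (x i a) = π ⁻¹ᵁ E.U i
  affine : ∀ i a, IsAffineOpen (O1.nonvan (π ⁻¹ᵁ E.U i) (x i a))
  coord : ∀ i a, HasCoords π O1 (x i) a (O1.nonvan (π ⁻¹ᵁ E.U i) (x i a)) (O1.nonvan_le _ _)

end Pool.Agent.Helper72.VB
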