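import Mathlib
import Pool.Agent.Helper72.ProjOps
import Pool.Agent.Helper72.VBDefs

open AlgebraicGeometry CategoryTheory TopologicalSpace Opposite HomogeneousLocalization
open AddMonoidAlgebra

universe u

namespace Pool.Agent.Helper72.VB

/-- exponents: three coordinates and the degree -/
abbrev Gp := ℤ × ℤ × ℤ × ℤ

/-- exponents with degree a natural number -/
abbrev Gn := ℤ × ℤ × ℤ × ℕ

section

variable (M : AddSubmonoid Gn)

/-- the degree -/
def tdeg : M →+ ℕ where
  toFun m := m.1.2.2.2
  map_zero' := rfl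
  map_add' _ _ := rfl

/-- the exponent -/
def tinc : M →+ Gp where
  toFun m := (m.1.1, m.1.2.1, m.1.2.2.1, (m.1.2.2.2 : ℤ))
  map_zero' := rfl
  map_add' _ _ := by simp

lemma tinc_injective : Function.Injective (tinc M) := by
  rintro ⟨⟨i, j, l, d⟩, hm⟩ ⟨⟨i', j', l', d'⟩, hm'⟩ h
  simp only [tinc, AddMonoidHom.coe_mk, ZeroHom.coe_mk, Prod.mk.injEq, Nat.cast_inj] at h
  obtain ⟨rfl, rfl, rfl, rfl⟩ := h
  rfl

lemma tinc_deg (m : M) : (tinc M m).2.2.2 = (tdeg M m : ℤ) := rfl

end

section

variable (k : Type u) [Field k]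

/-- Laurent polynomials -/
abbrev LR := AddMonoidAlgebra k Gp

/-- rational functions -/
abbrev LF := FractionRing (LR k)

variable {k} in
/-- a Laurent monomial, as a rational function -/
noncomputable def mono (g : Gp) : LF k := algebraMap (LR k) (LF k) (single g 1)

lemma mono_zero : (mono 0 : LF k) = 1 := by
  rw [mono, ← AddMonoidAlgebra.one_def, map_one]

lemma mono_add (g h : Gp) : (mono (g + h) : LF k) = mono g * mono h := by
  rw [mono, mono, mono, ← map_mul, single_mul_single, mul_one]

lemma mono_ne_zero (g : Gp) : (mono g : LF k) ≠ 0 := by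
  rw [mono, ne_eq, map_eq_zero_iff _ (IsFractionRing.injective (LR k) (LF k))]
  simp

variable (M : AddSubmonoid Gn)

/-- the homogeneous coordinate ring -/
abbrev TR := AddMonoidAlgebra k M

/-- its grading -/
abbrev tG : ℕ → Submodule k (TR k M) := gradeBy k (tdeg M)

/-- the embedding of the coordinate ring in the field of rational functions -/
noncomputable def tψ : TR k M →+* LF k :=
  (algebraMap (LR k) (LF k)).comp (mapDomainRingHom k (tinc M))

lemma tψ_injective : Function.Injective (tψ k M) :=
  (IsFractionRing.injective (LR k) (LF k)).comp (mapDomain_injective (tinc_injective M))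

instance : IsDomain (TR k M) := (tψ_injective k M).isDomain (tψ k M)

@[simp] lemma tψ_single (m : M) (r : k) :
    tψ k M (single m r) = algebraMap (LR k) (LF k) (single (tinc M m) r) := by
  simp [tψ]

/-- the monomial of an element of `M` -/
noncomputable abbrev tmon (m : M) : TR k M := single m 1

lemma tψ_tmon (m : M) : tψ k M (tmon k M m) = mono (tinc M m) := by
  rw [tψ_single, mono]

lemma tmon_mem (m : M) {d : ℕ} (h : tdeg M m = d) : tmon k M m ∈ tG k M d :=
  h ▸ single_mem_gradeBy _ _ _

lemma tmon_ne_zero (m : M) : tmon k M m ≠ 0 := by simp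

/-- the toric scheme -/
noncomputable abbrev TX : Scheme.{u} := Proj (tG k M)

/-- the structure morphism -/
noncomputable def TXto : TX k M ⟶ Spec (.of k) :=
  Proj.toSpecZero (tG k M) ≫ Spec.map (CommRingCat.ofHom (algebraMap k (tG k M 0)))

/-- basic opens of monomials -/
noncomputable def tO (m : M) : (TX k M).Opens := Proj.basicOpen (tG k M) (tmon k M m)

lemma mem_tO (m : M) (x : TX k M) :
    x ∈ tO k M m ↔ tmon k M m ∉ (show ProjectiveSpectrum (tG k M) from x).asHomogeneousIdeal.toIdeal :=
  Iff.rfl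

lemma tmon_add (m m' : M) : tmon k M (m + m') = tmon k M m * tmon k M m' := by
  simp [single_mul_single]

lemma tmon_nsmul (l : ℕ) (m : M) : tmon k M (l • m) = tmon k M m ^ l := by
  rw [tmon, single_pow, one_pow]

lemma tO_add (m m' : M) : tO k M (m + m') = tO k M m ⊓ tO k M m' := by
  rw [tO, tO, tO, tmon_add, Proj.basicOpen_mul]

/-- exponents of the monomials regular at `x` -/
def reg (x : TX k M) : AddSubmonoid Gp where
  carrier := {g | mono g ∈ (toL (tG k M) (tψ k M) (tψ_injective k M) x).range}
  zero_mem' := by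
    rw [Set.mem_ofPred_eq, mono_zero]
    exact one_mem _
  add_mem' := by
    intro a b ha hb
    rw [Set.mem_ofPred_eq] at ha hb ⊢
    rw [mono_add]
    exact mul_mem ha hb

lemma mem_reg (x : TX k M) (g : Gp) : g ∈ reg k M x ↔
    (mono g : LF k) ∈ (toL (tG k M) (tψ k M) (tψ_injective k M) x).range := Iff.rfl

lemma mem_reg_of (x : TX k M) {v : M} (hv : x ∈ tO k M v) {g : Gp} {l : ℕ} {m : M}
    (hd : tdeg M m = l * tdeg M v) (h : g + l • tinc M v = tinc M m) : g ∈ reg k M x := by
  rw [mem_reg, mem_range_toL_iff]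
  refine ⟨l * tdeg M v, tmon k M m, tmon k M (l • v), tmon_mem k M m hd,
    tmon_mem k M _ (by rw [map_nsmul, smul_eq_mul]), ?_, ?_, ?_⟩
  · rw [tmon_nsmul]
    intro hmem
    exact hv ((show ProjectiveSpectrum (tG k M) from x).isPrime.mem_of_pow_mem _ hmem)
  · rw [tψ_tmon]
    exact mono_ne_zero k _
  · rw [tψ_tmon, tψ_tmon, map_nsmul, ← h, mono_add]

lemma const_mem (x : TX k M) (c : k) : algebraMap (LR k) (LF k) (single 0 c) ∈
    (toL (tG k M) (tψ k M) (tψ_injective k M) x).range := by
  rw [mem_range_toL_iff]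
  refine ⟨0, single 0 c, single 0 1, ?_, ?_, ?_, ?_, ?_⟩
  · exact single_mem_gradeBy (tdeg M) (0 : M) c
  · exact single_mem_gradeBy (tdeg M) (0 : M) (1 : k)
  · intro h
    apply (show ProjectiveSpectrum (tG k M) from x).isPrime.ne_top
    rw [Ideal.eq_top_iff_one]
    exact h
  · rw [tψ_single]
    exact mono_ne_zero k _
  · rw [tψ_single, tψ_single, ← map_mul, single_mul_single]
    simp

/-- Laurent polynomials with regular exponents are regular -/
lemma mem_range_of_support (x : TX k M) (Z : LR k) (hZ : ∀ g ∈ Z.coeff.support, g ∈ reg k M x) :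
    algebraMap (LR k) (LF k) Z ∈ (toL (tG k M) (tψ k M) (tψ_injective k M) x).range := by
  rw [← sum_coeff_single Z, Finsupp.sum, map_sum]
  refine Subring.sum_mem _ fun g hg ↦ ?_
  have : (single g (Z.coeff g) : LR k) = single 0 (Z.coeff g) * single g 1 := by
    rw [single_mul_single, zero_add, mul_one]
  rw [this, map_mul]
  exact Subring.mul_mem _ (const_mem k M x _) (hZ g hg)

/-- a monomial in the prime -/
lemma mem_tO_iff (x : TX k M) {v : M} (hv : x ∈ tO k M v) {l : ℕ} {m : M}
    (hd : tdeg M m = l * tdeg M v) :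
    x ∈ tO k M m ↔ -(tinc M m - l • tinc M v) ∈ reg k M x := by
  constructor
  · intro hm
    rw [mem_reg, mem_range_toL_iff]
    refine ⟨l * tdeg M v, tmon k M (l • v), tmon k M m,
      tmon_mem k M _ (by rw [map_nsmul, smul_eq_mul]), tmon_mem k M m hd, hm, ?_, ?_⟩
    · rw [tψ_tmon]
      exact mono_ne_zero k _
    · rw [tψ_tmon, tψ_tmon, map_nsmul, ← mono_add]
      congr 1
      abel
  · intro h
    rw [mem_reg, mem_range_toL_iff] at h
    obtain ⟨N, a, b, ha, hb, hbx, hb0, hab⟩ := h
    have h1 : tmon k M (l • v) * b = a * tmon k M m := by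
      apply tψ_injective k M
      rw [map_mul, map_mul, ← hab, tψ_tmon, tψ_tmon, map_nsmul, mul_right_comm, ← mono_add]
      congr 2
      abel
    intro hmem
    have h2 : tmon k M (l • v) * b ∈
        (show ProjectiveSpectrum (tG k M) from x).asHomogeneousIdeal.toIdeal := by
      rw [h1]
      exact Ideal.mul_mem_left _ _ hmem
    rcases (show ProjectiveSpectrum (tG k M) from x).isPrime.mem_or_mem h2 with h3 | h3
    · rw [tmon_nsmul] at h3
      exact hv ((show ProjectiveSpectrum (tG k M) from x).isPrime.mem_of_pow_mem _ h3)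
    · exact hbx h3

end

end Pool.Agent.Helper72.VB
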