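import Mathlib
import Pool.Agent.Helper72.Tor

open AlgebraicGeometry CategoryTheory TopologicalSpace Opposite HomogeneousLocalization
open AddMonoidAlgebra

universe u

namespace Pool.Agent.Helper72.VB

lemma nz_le {X : Scheme.{u}} {V : X.Opens} (s : Sec X V) : nz s ≤ V := Scheme.basicOpen_le _ _

/-- a base element of degree one -/
class TPt (M : AddSubmonoid Gn) where
  pt : M
  deg : tdeg M pt = 1

section

variable (k : Type u) [Field k] (M : AddSubmonoid Gn) [TPt M]

/-- the generic point -/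
noncomputable def tgen : TX k M :=
  genPt (tG k M) one_pos (tmon_mem k M (TPt.pt : M) TPt.deg) (tmon_ne_zero k M _)

variable {k M}

lemma tgen_mem {V : (TX k M).Opens} {x : TX k M} (hx : x ∈ V) : tgen k M ∈ V :=
  genPt_mem _ _ _ V x hx

/-- functions as elements of the field of rational functions -/
noncomputable def tL (V : (TX k M).Opens) (hV : tgen k M ∈ V) : Sec (TX k M) V →+* LF k :=
  gToL (tψ_injective k M) one_pos (tmon_mem k M (TPt.pt : M) TPt.deg) (tmon_ne_zero k M _) V hV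

lemma tL_injective (V : (TX k M).Opens) (hV : tgen k M ∈ V) : Function.Injective (tL V hV) :=
  gToL_injective _ _ _ _ V hV

lemma tsec_ext {V : (TX k M).Opens} {s t : Sec (TX k M) V}
    (h : ∀ hV : tgen k M ∈ V, tL V hV s = tL V hV t) : s = t :=
  gsec_ext _ _ _ _ V s t h

lemma tL_res {V W : (TX k M).Opens} (h : V ≤ W) (hV : tgen k M ∈ V) (s : Sec (TX k M) W) :
    tL V hV (res h s) = tL W (h hV) s := rfl

lemma tL_mem {V : (TX k M).Opens} (hV : tgen k M ∈ V) (s : Sec (TX k M) V)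
    {x : TX k M} (hx : x ∈ V) :
    tL V hV s ∈ (toL (tG k M) (tψ k M) (tψ_injective k M) x).range :=
  gToL_mem_range _ _ _ _ V hV s x hx

lemma exists_tL_eq (V : (TX k M).Opens) (z : LF k)
    (hz : ∀ x ∈ V, z ∈ (toL (tG k M) (tψ k M) (tψ_injective k M) x).range) :
    ∃ s : Sec (TX k M) V, ∀ hV, tL V hV s = z := by
  by_cases hV : tgen k M ∈ V
  · obtain ⟨s, hs⟩ := exists_gToL_eq (tψ_injective k M) one_pos
      (tmon_mem k M (TPt.pt : M) TPt.deg) (tmon_ne_zero k M _) V hV z hz
    exact ⟨s, fun _ ↦ hs⟩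
  · exact ⟨0, fun h ↦ absurd h hV⟩

/-- sections over the basic open set of a monomial are Laurent polynomials -/
lemma exists_support {v : M} (hv : 0 < tdeg M v) (hV : tgen k M ∈ tO k M v)
    (s : Sec (TX k M) (tO k M v)) :
    ∃ Z : LR k, tL _ hV s = algebraMap (LR k) (LF k) Z ∧
      ∀ g ∈ Z.coeff.support, ∃ (l : ℕ) (m : M), tdeg M m = l * tdeg M v ∧
        g + l • tinc M v = tinc M m := by
  obtain ⟨l, a, ha, h⟩ := gToL_basicOpen (tψ_injective k M) one_pos
    (tmon_mem k M (TPt.pt : M) TPt.deg) (tmon_ne_zero k M _) (tmon_mem k M v rfl) hv hV s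
  refine ⟨mapDomain (tinc M) a * single (-(l • tinc M v)) 1, ?_, ?_⟩
  · rw [map_mul]
    have h1 : algebraMap (LR k) (LF k) (mapDomain (tinc M) a) = tψ k M a := rfl
    rw [h1, ← h, ← map_pow, ← tmon_nsmul, tψ_tmon, map_nsmul]
    change _ = _ * mono _ * mono _
    rw [mul_assoc, ← mono_add, add_neg_cancel, mono_zero, mul_one]
    rfl
  · intro g hg
    classical
    have h2 : g + l • tinc M v ∈ (mapDomain (tinc M) a).coeff.support := by
      rw [Finsupp.mem_support_iff] at hg ⊢
      have h3 := AddMonoidAlgebra.coeff_mul_single_eq_coeff_mul (x := mapDomain (tinc M) a)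
        (r := (1 : k))
        (m := -(l • tinc M v)) (m₁ := g) (g + l • tinc M v)
        (fun a _ ↦ by rw [← sub_eq_add_neg, sub_eq_iff_eq_add])
      intro h4
      apply hg
      rw [h3, h4, zero_mul]
    obtain ⟨m, hm, hmg⟩ := Finset.mem_image.mp (Finsupp.mapDomain_support h2)
    exact ⟨l, m, by simpa using ha m hm, hmg.symm⟩

/-- the nonvanishing locus of a function in terms of the field of rational functions -/
lemma mem_nz_iff {V : (TX k M).Opens} (hV : tgen k M ∈ V) (s : Sec (TX k M) V) {x : TX k M}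
    (hx : x ∈ V) :
    x ∈ nz s ↔ tL V hV s ≠ 0 ∧
      (tL V hV s)⁻¹ ∈ (toL (tG k M) (tψ k M) (tψ_injective k M) x).range := by
  constructor
  · intro h
    have hu : IsUnit (res (nz_le s) s) := RingedSpace.isUnit_res_basicOpen _ _
    obtain ⟨t, ht⟩ := hu.exists_right_inv
    have hη := tgen_mem h
    have h1 := congrArg (tL (nz s) hη) ht
    rw [map_mul, map_one, tL_res] at h1
    have h2 : tL V hV s ≠ 0 := left_ne_zero_of_mul_eq_one h1
    refine ⟨h2, ?_⟩
    rw [← eq_inv_of_mul_eq_one_right h1]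
    exact tL_mem hη t h
  · rintro ⟨h0, h⟩
    obtain ⟨N, a, b, ha, hb, hbx, hb0, hab⟩ := (mem_range_toL_iff (tψ_injective k M) x _).mp h
    let W : (TX k M).Opens := V ⊓ Proj.basicOpen (tG k M) b
    have hxW : x ∈ W := ⟨hx, hbx⟩
    obtain ⟨t, ht⟩ := exists_tL_eq W (tL V hV s)⁻¹ (fun y hy ↦
      (mem_range_toL_iff (tψ_injective k M) y _).mpr ⟨N, a, b, ha, hb, hy.2, hb0, hab⟩)
    have h1 : res (inf_le_left : W ≤ V) s * t = 1 := by
      apply tsec_ext
      intro hW
      rw [map_mul, map_one, tL_res, ht, mul_inv_cancel₀ h0]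
    have h2 : IsUnit (res (inf_le_left : W ≤ V) s) := IsUnit.of_mul_eq_one _ h1
    have h3 : nz (res (inf_le_left : W ≤ V) s) = W := Scheme.basicOpen_of_isUnit _ h2
    have h4 : nz (res (inf_le_left : W ≤ V) s) = W ⊓ nz s := Scheme.basicOpen_res _ _ _
    rw [h4] at h3
    have h5 : x ∈ W ⊓ nz s := by
      rw [h3]
      exact hxW
    exact h5.2

/-- the monomial `g` is regular on `V` -/
def RegOn (V : (TX k M).Opens) (g : Gp) : Prop := ∀ x ∈ V, g ∈ reg k M x

omit [TPt M] in
lemma RegOn.add {V : (TX k M).Opens} {g h : Gp} (hg : RegOn V g) (hh : RegOn V h) :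
    RegOn V (g + h) := fun x hx ↦ add_mem (hg x hx) (hh x hx)

omit [TPt M] in
lemma RegOn.mono {V W : (TX k M).Opens} {g : Gp} (hg : RegOn W g) (h : V ≤ W) : RegOn V g :=
  fun x hx ↦ hg x (h hx)

omit [TPt M] in
lemma RegOn.zero (V : (TX k M).Opens) : RegOn V (0 : Gp) := fun _ _ ↦ zero_mem _

/-- a monomial as a function -/
noncomputable def chi (V : (TX k M).Opens) (g : Gp) (hg : RegOn V g) : Sec (TX k M) V :=
  (exists_tL_eq V (VB.mono g) hg).choose

lemma tL_chi {V : (TX k M).Opens} {g : Gp} (hg : RegOn V g) (hV : tgen k M ∈ V) :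
    tL V hV (chi V g hg) = VB.mono g := (exists_tL_eq V (VB.mono g) hg).choose_spec hV

lemma res_chi {V W : (TX k M).Opens} (h : V ≤ W) {g : Gp} (hg : RegOn W g) :
    res h (chi W g hg) = chi V g (hg.mono h) := by
  apply tsec_ext
  intro hV
  rw [tL_res, tL_chi, tL_chi]

lemma chi_mul {V : (TX k M).Opens} {g h : Gp} (hg : RegOn V g) (hh : RegOn V h) :
    chi V g hg * chi V h hh = chi V (g + h) (hg.add hh) := by
  apply tsec_ext
  intro hV
  rw [map_mul, tL_chi, tL_chi, tL_chi, mono_add]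

lemma chi_congr {V : (TX k M).Opens} {g h : Gp} (hg : RegOn V g) (e : g = h) :
    chi V g hg = chi V h (e ▸ hg) := by
  subst e
  rfl

lemma chi_zero {V : (TX k M).Opens} (h : RegOn V (0 : Gp)) : chi V 0 h = 1 := by
  apply tsec_ext
  intro hV
  rw [tL_chi, mono_zero, map_one]

/-- an invertible monomial as an invertible function -/
noncomputable def chiU (V : (TX k M).Opens) (g : Gp) (hg : RegOn V g) (hg' : RegOn V (-g)) :
    (Sec (TX k M) V)ˣ where
  val := chi V g hg
  inv := chi V (-g) hg'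
  val_inv := by
    rw [chi_mul, chi_congr _ (add_neg_cancel g), chi_zero]
  inv_val := by
    rw [chi_mul, chi_congr _ (neg_add_cancel g), chi_zero]

lemma chiU_val {V : (TX k M).Opens} {g : Gp} (hg : RegOn V g) (hg' : RegOn V (-g)) :
    ((chiU V g hg hg' : (Sec (TX k M) V)ˣ) : Sec (TX k M) V) = chi V g hg := rfl

lemma resU_chiU {V W : (TX k M).Opens} (h : V ≤ W) {g : Gp} (hg : RegOn W g)
    (hg' : RegOn W (-g)) : resU h (chiU W g hg hg') = chiU V g (hg.mono h) (hg'.mono h) :=
  Units.ext (res_chi h hg)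

lemma chiU_mul {V : (TX k M).Opens} {g h : Gp} (hg : RegOn V g) (hg' : RegOn V (-g))
    (hh : RegOn V h) (hh' : RegOn V (-h)) :
    chiU V g hg hg' * chiU V h hh hh' =
      chiU V (g + h) (hg.add hh) (by rw [neg_add]; exact hg'.add hh') :=
  Units.ext (chi_mul hg hh)

lemma chiU_congr {V : (TX k M).Opens} {g h : Gp} (hg : RegOn V g) (hg' : RegOn V (-g))
    (e : g = h) : chiU V g hg hg' = chiU V h (e ▸ hg) (e ▸ hg') := by
  subst e
  rfl

/-- the nonvanishing locus of a monomial -/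
lemma mem_nz_chi {V : (TX k M).Opens} {g : Gp} (hg : RegOn V g) {x : TX k M} (hx : x ∈ V) :
    x ∈ nz (chi V g hg) ↔ -g ∈ reg k M x := by
  have hV := tgen_mem hx
  rw [mem_nz_iff hV _ hx, tL_chi, mem_reg]
  have : (VB.mono g : LF k)⁻¹ = VB.mono (-g) := by
    rw [inv_eq_iff_eq_inv, eq_comm]
    apply inv_eq_of_mul_eq_one_right
    rw [← mono_add, neg_add_cancel, mono_zero]
  rw [this]
  exact ⟨fun h ↦ h.2, fun h ↦ ⟨mono_ne_zero k g, h⟩⟩

end

end Pool.Agent.Helper72.VB
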