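import Mathlib
import Pool.Agent.Helper72.TorSec

open AlgebraicGeometry CategoryTheory TopologicalSpace Opposite HomogeneousLocalization
open AddMonoidAlgebra

universe u

namespace Pool.Agent.Helper72.VB

section

variable (k : Type u) [Field k] (M : AddSubmonoid Gn)

lemma tgrade_induction (N : ℕ) (P : TR k M → Prop)
    (h0 : P 0) (hadd : ∀ a b, P a → P b → P (a + b))
    (hs : ∀ (m : M) (r : k), tdeg M m = N → P (single m r))
    (a : TR k M) (ha : a ∈ tG k M N) : P a := by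
  rw [← sum_coeff_single a]
  refine Finset.sum_induction _ P hadd h0 ?_
  intro m hm
  exact hs m _ (ha m hm)

lemma exists_mem_tO {ι : Type*} (V : ι → M)
    (hV : ∀ m : M, 0 < tdeg M m → ∃ (i : ι) (N : ℕ) (m' : M), N • m = V i + m')
    (x : TX k M) : ∃ i, x ∈ tO k M (V i) := by
  by_contra hcon
  push Not at hcon
  let y : ProjectiveSpectrum (tG k M) := x
  have hcon' : ∀ i, tmon k M (V i) ∈ y.asHomogeneousIdeal.toIdeal := by
    intro i
    have := hcon i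
    rw [mem_tO, not_not] at this
    exact this
  have key : ∀ m : M, 0 < tdeg M m → tmon k M m ∈ y.asHomogeneousIdeal.toIdeal := by
    intro m hm
    obtain ⟨i, N, m', h⟩ := hV m hm
    refine y.isPrime.mem_of_pow_mem N ?_
    rw [← tmon_nsmul, h, tmon_add]
    exact Ideal.mul_mem_right _ _ (hcon' i)
  apply y.not_irrelevant_le
  intro a ha
  rw [HomogeneousIdeal.mem_irrelevant_iff, GradedRing.proj_apply] at ha
  have h2 : a ∈ y.asHomogeneousIdeal.toIdeal := by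
    classical
    rw [← DirectSum.sum_support_decompose (tG k M) a]
    refine Ideal.sum_mem _ fun N hN ↦ ?_
    have hN0 : 0 < N := by
      rw [Nat.pos_iff_ne_zero]
      rintro rfl
      rw [DFinsupp.mem_support_iff] at hN
      exact hN (Subtype.ext ha)
    refine tgrade_induction k M N (fun a ↦ a ∈ y.asHomogeneousIdeal.toIdeal)
      (Ideal.zero_mem _) (fun a b ↦ Ideal.add_mem _) ?_ _
      (DirectSum.decompose (tG k M) a N).2
    intro m r hm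
    have : (single m r : TR k M) = single 0 r * tmon k M m := by
      rw [single_mul_single, zero_add, mul_one]
    rw [this]
    exact Ideal.mul_mem_left _ _ (key m (by rw [hm]; exact hN0))
  exact h2

lemma isAffineOpen_tO {v : M} (hv : 0 < tdeg M v) : IsAffineOpen (tO k M v) := by
  have h := Proj.opensRange_awayι (tG k M) (tmon k M v) (tmon_mem k M v rfl) hv
  rw [tO, ← h]
  exact isAffineOpen_opensRange _

end

/-- `0` or `1` -/
def z : Bool → ℤ := fun b ↦ if b then 1 else 0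

@[simp] lemma z_true : z true = 1 := rfl
@[simp] lemma z_false : z false = 0 := rfl

/-- the monoid of `X = ℙ¹ × ℙ¹` -/
def MX : AddSubmonoid Gn where
  carrier := {m | m.2.2.1 = 0 ∧ 0 ≤ m.1 ∧ m.1 ≤ m.2.2.2 ∧ 0 ≤ m.2.1 ∧ m.2.1 ≤ m.2.2.2}
  zero_mem' := by simp
  add_mem' := by
    rintro ⟨p, q, j, d⟩ ⟨p', q', j', d'⟩ h h'
    simp only [Prod.mk_add_mk, Set.mem_ofPred_eq, Nat.cast_add] at *
    omega

lemma mem_MX {p q j : ℤ} {d : ℕ} : (p, q, j, d) ∈ MX ↔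
    j = 0 ∧ 0 ≤ p ∧ p ≤ d ∧ 0 ≤ q ∧ q ≤ d := Iff.rfl

/-- the monoid of the projective bundle over `X` -/
def MP : AddSubmonoid Gn where
  carrier := {m | 0 ≤ m.2.2.1 ∧ m.2.2.1 ≤ m.2.2.2 ∧ 0 ≤ m.1 ∧ m.1 ≤ 2 * m.2.2.2 - m.2.2.1 ∧
    0 ≤ m.2.1 ∧ m.2.1 ≤ m.2.2.2 + m.2.2.1}
  zero_mem' := by simp
  add_mem' := by
    rintro ⟨p, q, j, d⟩ ⟨p', q', j', d'⟩ h h'
    simp only [Prod.mk_add_mk, Set.mem_ofPred_eq, Nat.cast_add] at *
    omega

lemma mem_MP {p q j : ℤ} {d : ℕ} : (p, q, j, d) ∈ MP ↔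
    0 ≤ j ∧ j ≤ d ∧ 0 ≤ p ∧ p ≤ 2 * d - j ∧ 0 ≤ q ∧ q ≤ d + j := Iff.rfl

/-- the vertices of the polytope of `X` -/
def vX (e d : Bool) : MX := ⟨(z e, z d, 0, 1), by
  rw [mem_MX]; cases e <;> cases d <;> simp⟩

/-- the vertices of the polytope of `P` -/
def wP (e d t : Bool) : MP := ⟨((2 - z t) * z e, (1 + z t) * z d, z t, 1), by
  rw [mem_MP]; cases e <;> cases d <;> cases t <;> simp⟩

instance : TPt MX where
  pt := vX false false
  deg := rfl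

instance : TPt MP where
  pt := wP false false false
  deg := rfl

lemma tdeg_vX (e d : Bool) : tdeg MX (vX e d) = 1 := rfl
lemma tdeg_wP (e d t : Bool) : tdeg MP (wP e d t) = 1 := rfl
lemma tinc_vX (e d : Bool) : tinc MX (vX e d) = (z e, z d, 0, 1) := rfl
lemma tinc_wP (e d t : Bool) :
    tinc MP (wP e d t) = ((2 - z t) * z e, (1 + z t) * z d, z t, 1) := rfl

/-- exponents of monomials regular on the charts of `X` -/
def CX (e d : Bool) : Set Gp :=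
  {g | g.2.2.1 = 0 ∧ g.2.2.2 = 0 ∧ 0 ≤ (1 - 2 * z e) * g.1 ∧ 0 ≤ (1 - 2 * z d) * g.2.1}

/-- exponents of monomials regular on the charts of `P` -/
def CP (e d t : Bool) : Set Gp :=
  {g | g.2.2.2 = 0 ∧ 0 ≤ (1 - 2 * z e) * (g.1 + z e * g.2.2.1) ∧
    0 ≤ (1 - 2 * z d) * (g.2.1 - z d * g.2.2.1) ∧ 0 ≤ (1 - 2 * z t) * g.2.2.1}

lemma mem_CX {e d : Bool} {p q j l : ℤ} : (p, q, j, l) ∈ CX e d ↔
    j = 0 ∧ l = 0 ∧ 0 ≤ (1 - 2 * z e) * p ∧ 0 ≤ (1 - 2 * z d) * q := Iff.rfl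

lemma mem_CP {e d t : Bool} {p q j l : ℤ} : (p, q, j, l) ∈ CP e d t ↔
    l = 0 ∧ 0 ≤ (1 - 2 * z e) * (p + z e * j) ∧
    0 ≤ (1 - 2 * z d) * (q - z d * j) ∧ 0 ≤ (1 - 2 * z t) * j := Iff.rfl

section

variable (k : Type u) [Field k]

lemma mem_reg_of_CX {e d : Bool} {x : TX k MX} (hx : x ∈ tO k MX (vX e d)) {g : Gp}
    (hg : g ∈ CX e d) : g ∈ reg k MX x := by
  obtain ⟨p, q, j, l⟩ := g
  rw [mem_CX] at hg
  obtain ⟨rfl, rfl, h1, h2⟩ := hg
  obtain ⟨N, hN⟩ : ∃ N : ℕ, p.natAbs + q.natAbs ≤ N := ⟨_, le_rfl⟩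
  refine mem_reg_of k MX x hx (l := N)
    (m := ⟨(p + N * z e, q + N * z d, 0, N), ?_⟩) ?_ ?_
  · rw [mem_MX]
    cases e <;> cases d <;> simp at h1 h2 ⊢ <;> omega
  · simp [tdeg, vX]
  · rw [tinc_vX]
    simp [tinc]

lemma mem_reg_of_CP {e d t : Bool} {x : TX k MP} (hx : x ∈ tO k MP (wP e d t)) {g : Gp}
    (hg : g ∈ CP e d t) : g ∈ reg k MP x := by
  obtain ⟨p, q, j, l⟩ := g
  rw [mem_CP] at hg
  obtain ⟨rfl, h1, h2, h3⟩ := hg
  obtain ⟨N, hN⟩ : ∃ N : ℕ, p.natAbs + q.natAbs + j.natAbs ≤ N := ⟨_, le_rfl⟩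
  refine mem_reg_of k MP x hx (l := N)
    (m := ⟨(p + N * ((2 - z t) * z e), q + N * ((1 + z t) * z d), j + N * z t, N), ?_⟩) ?_ ?_
  · rw [mem_MP]
    cases e <;> cases d <;> cases t <;> simp at h1 h2 h3 ⊢ <;> omega
  · simp [tdeg, wP]
  · rw [tinc_wP]
    simp [tinc]

lemma CX_of {e d : Bool} {g : Gp} {l : ℕ} {m : MX} (hd : tdeg MX m = l * tdeg MX (vX e d))
    (h : g + l • tinc MX (vX e d) = tinc MX m) : g ∈ CX e d := by
  obtain ⟨p, q, j, l'⟩ := g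
  obtain ⟨⟨p', q', j', d'⟩, hm⟩ := m
  rw [mem_MX] at hm
  obtain rfl : d' = l * 1 := hd
  rw [tinc_vX] at h
  simp [tinc] at h
  rw [mem_CX]
  cases e <;> cases d <;> simp at h hm ⊢ <;> omega

lemma CP_of {e d t : Bool} {g : Gp} {l : ℕ} {m : MP} (hd : tdeg MP m = l * tdeg MP (wP e d t))
    (h : g + l • tinc MP (wP e d t) = tinc MP m) : g ∈ CP e d t := by
  obtain ⟨p, q, j, l'⟩ := g
  obtain ⟨⟨p', q', j', d'⟩, hm⟩ := m
  rw [mem_MP] at hm
  obtain rfl : d' = l * 1 := hd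
  rw [tinc_wP] at h
  simp [tinc] at h
  rw [mem_CP]
  cases e <;> cases d <;> cases t <;> simp at h hm ⊢ <;> omega

lemma exists_vX (x : TX k MX) : ∃ ed : Bool × Bool, x ∈ tO k MX (vX ed.1 ed.2) := by
  refine exists_mem_tO k MX (fun ed : Bool × Bool ↦ vX ed.1 ed.2) ?_ x
  rintro ⟨⟨p, q, j, d⟩, hm⟩ hd
  have hd' : 0 < d := hd
  rw [mem_MX] at hm
  obtain ⟨rfl, h1, h2, h3, h4⟩ := hm
  refine ⟨(decide (p = d), decide (q = d)), 1,
    ⟨(p - z (decide (p = d)), q - z (decide (q = d)), 0, d - 1), ?_⟩, ?_⟩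
  · rw [mem_MX]
    by_cases a : p = d <;> by_cases b : q = d <;> simp [a, b] <;> omega
  · apply Subtype.ext
    simp [vX]
    omega

lemma exists_wP (x : TX k MP) :
    ∃ edt : Bool × Bool × Bool, x ∈ tO k MP (wP edt.1 edt.2.1 edt.2.2) := by
  refine exists_mem_tO k MP (fun edt : Bool × Bool × Bool ↦ wP edt.1 edt.2.1 edt.2.2) ?_ x
  rintro ⟨⟨p, q, j, d⟩, hm⟩ hd
  have hd' : 0 < d := hd
  rw [mem_MP] at hm
  refine ⟨(decide (p = 2 * d - j), decide (q = d + j), decide (0 < j)), 2,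
    ⟨(2 * p - (2 - z (decide (0 < j))) * z (decide (p = 2 * d - j)),
      2 * q - (1 + z (decide (0 < j))) * z (decide (q = d + j)),
      2 * j - z (decide (0 < j)), 2 * d - 1), ?_⟩, ?_⟩
  · rw [mem_MP]
    by_cases a : p = 2 * d - j <;> by_cases b : q = d + j <;> by_cases c : 0 < j <;>
      simp [a, b, c] <;> omega
  · apply Subtype.ext
    simp [wP]
    omega

end

end Pool.Agent.Helper72.VB
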