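import Mathlib
import Pool.Agent.Helper72.TorCover
import Pool.Agent.Helper72.ProjHX

open AlgebraicGeometry CategoryTheory Limits TopologicalSpace Opposite HomogeneousLocalization
open AddMonoidAlgebra

universe u

namespace Pool.Agent.Helper72.VB

theorem isIntegral_TX (k : Type u) [Field k] (M : AddSubmonoid Gn) [TPt M] :
    IsIntegral (TX k M) where
  nonempty := ⟨tgen k M⟩
  component_integral U hU := by
    have hη : tgen k M ∈ U := by
      obtain ⟨x, hx⟩ := hU
      exact tgen_mem hx
    exact (tL_injective U hη).isDomain (tL U hη)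

section

attribute [local instance] MvPolynomial.gradedAlgebra

variable (k : Type u) [Field k] (M : AddSubmonoid Gn) {n : ℕ} (g : Fin (n + 1) → M)
  (hg : ∀ l, tdeg M (g l) = 1)

/-- the surjection from the polynomial ring -/
noncomputable def tφ : MvPolynomial (Fin (n + 1)) k →ₐ[k] TR k M :=
  MvPolynomial.aeval (fun l ↦ tmon k M (g l))

include hg in
lemma tφ_mem (d : ℕ) (P : MvPolynomial (Fin (n + 1)) k)
    (hP : P ∈ MvPolynomial.homogeneousSubmodule (Fin (n + 1)) k d) : tφ k M g P ∈ tG k M d := by
  rw [tφ, MvPolynomial.aeval_def, MvPolynomial.eval₂_eq]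
  refine Submodule.sum_mem _ fun m hm ↦ ?_
  rw [← Algebra.smul_def]
  apply Submodule.smul_mem
  have h1 : ∑ i ∈ m.support, m i • 1 = d := by
    rw [MvPolynomial.mem_homogeneousSubmodule] at hP
    have := hP (MvPolynomial.mem_support_iff.mp hm)
    rw [← this]
    simp [Finsupp.weight_apply, Finsupp.sum]
  rw [← h1]
  exact SetLike.prod_pow_mem_graded (tG k M) _ _ _ fun i _ ↦ tmon_mem k M _ (hg i)

/-- the graded surjection from the polynomial ring -/
noncomputable def tΦ : MvPolynomial.homogeneousSubmodule (Fin (n + 1)) k →+*ᵍ tG k M where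
  __ := (tφ k M g).toRingHom
  map_mem h := tφ_mem k M g hg _ _ h

include hg in
lemma tφ_surjective (h0 : ∀ m : M, tdeg M m = 0 → m = 0)
    (h1 : ∀ (d : ℕ) (m : M), tdeg M m = d + 1 → ∃ l m', m = g l + m') :
    Function.Surjective (tφ k M g) := by
  rw [← AlgHom.range_eq_top, eq_top_iff]
  have key : ∀ (d : ℕ) (m : M), tdeg M m = d → (tmon k M m) ∈ (tφ k M g).range := by
    intro d
    induction d with
    | zero =>
      intro m hm
      rw [h0 m hm]
      exact one_mem _
    | succ d ih =>
      intro m hm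
      obtain ⟨l, m', rfl⟩ := h1 d m hm
      rw [tmon_add]
      refine mul_mem ⟨MvPolynomial.X l, ?_⟩ (ih m' ?_)
      · exact MvPolynomial.aeval_X _ _
      · rw [map_add, hg] at hm
        omega
  intro a _
  rw [← sum_coeff_single a]
  refine Subalgebra.sum_mem _ fun m _ ↦ ?_
  have : (single m (a.coeff m) : TR k M) = a.coeff m • tmon k M m := by
    simp
  rw [this]
  exact Subalgebra.smul_mem _ (key _ m rfl) _

include hg in
theorem isProjectiveOver_TXto (h0 : ∀ m : M, tdeg M m = 0 → m = 0)
    (h1 : ∀ (d : ℕ) (m : M), tdeg M m = d + 1 → ∃ l m', m = g l + m') :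
    IsProjectiveOver (TXto k M) := by
  have hs : Function.Surjective (tΦ k M g hg) := tφ_surjective k M g hg h0 h1
  have h := irrelevant_le_of_surjective (tΦ k M g hg) hs
  refine ⟨n, Proj.map (tΦ k M g hg) h, isClosedImmersion_map (tΦ k M g hg) hs h, ?_⟩
  exact map_toSpec (tΦ k M g hg) (fun c ↦ (tφ k M g).commutes c) h

end

/-- the four generators of the coordinate ring of `X` -/
def gX (l : Fin 4) : MX := vX (decide (l.1 % 2 = 1)) (decide (2 ≤ l.1))

theorem isProjectiveOver_X (k : Type u) [Field k] : IsProjectiveOver (TXto k MX) := by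
  refine isProjectiveOver_TXto k MX (n := 3) gX (fun _ ↦ rfl) ?_ ?_
  · rintro ⟨⟨p, q, j, d⟩, hm⟩ hd
    obtain rfl : d = 0 := hd
    rw [mem_MX] at hm
    apply Subtype.ext
    simp at hm ⊢
    omega
  · rintro d ⟨⟨p, q, j, d'⟩, hm⟩ hd
    obtain rfl : d' = d + 1 := hd
    rw [mem_MX] at hm
    obtain ⟨rfl, h1, h2, h3, h4⟩ := hm
    have key : ∀ e f : Bool, 0 ≤ p - z e → p - z e ≤ d → 0 ≤ q - z f → q - z f ≤ d →
        ∃ l m', (⟨(p, q, 0, d + 1), hm⟩ : MX) = gX l + m' := by
      intro e f a1 a2 a3 a4
      have hl : ∃ l : Fin 4, gX l = vX e f := by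
        cases e <;> cases f
        · exact ⟨0, rfl⟩
        · exact ⟨2, rfl⟩
        · exact ⟨1, rfl⟩
        · exact ⟨3, rfl⟩
      obtain ⟨l, hl⟩ := hl
      refine ⟨l, ⟨(p - z e, q - z f, 0, d), ?_⟩, ?_⟩
      · rw [mem_MX]
        exact ⟨rfl, a1, a2, a3, a4⟩
      · rw [hl]
        apply Subtype.ext
        simp [vX, add_comm]
    push_cast at h2 h4
    rcases eq_or_lt_of_le h1 with rfl | hp
    · rcases eq_or_lt_of_le h3 with rfl | hq
      · exact key false false (by simp) (by simp) (by simp) (by simp)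
      · exact key false true (by simp) (by simp) (by simp; omega) (by simp; omega)
    · rcases eq_or_lt_of_le h3 with rfl | hq
      · exact key true false (by simp; omega) (by simp; omega) (by simp) (by simp)
      · exact key true true (by simp; omega) (by simp; omega) (by simp; omega) (by simp; omega)

end Pool.Agent.Helper72.VB
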