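import Mathlib
import Pool.Agent.Helper72.TorProj

open AlgebraicGeometry CategoryTheory Limits TopologicalSpace Opposite HomogeneousLocalization
open AddMonoidAlgebra

universe u

namespace Pool.Agent.Helper72.VB

section

variable {k : Type u} [Field k] {X : Scheme.{u}} (f : X ⟶ Spec (.of k))

lemma toSpecΓ_const (U : X.Opens) :
    U.toSpecΓ ≫ Spec.map (CommRingCat.ofHom (const f U) : CommRingCat.of k ⟶ Γ(X, U)) =
      U.ι ≫ f := by
  have h1 : (CommRingCat.ofHom (const f U) : CommRingCat.of k ⟶ Γ(X, U)) =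
      (Scheme.ΓSpecIso (.of k)).inv ≫ f.appTop ≫ X.presheaf.map (homOfLE le_top).op := rfl
  rw [h1, Spec.map_comp, Spec.map_comp, Category.assoc,
    Scheme.Opens.toSpecΓ_SpecMap_presheaf_map_top_assoc, ← Scheme.toSpecΓ_naturality_assoc]
  simp

lemma toSpecΓ_cancel (U : X.Opens) {R : CommRingCat.{u}} (a b : R ⟶ Γ(X, U))
    (h : U.toSpecΓ ≫ Spec.map a = U.toSpecΓ ≫ Spec.map b) : a = b := by
  have key : ∀ a : R ⟶ Γ(X, U),
      (Scheme.ΓSpecIso R).inv ≫ (U.toSpecΓ ≫ Spec.map a).appTop ≫ U.topIso.hom = a := by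
    intro a
    rw [Scheme.Hom.comp_appTop, Category.assoc, Scheme.Opens.toSpecΓ_appTop,
      ← Scheme.ΓSpecIso_inv_naturality_assoc, Category.assoc, Iso.inv_hom_id_assoc,
      Iso.inv_hom_id, Category.comp_id]
  rw [← key a, ← key b, h]

end

section

variable {k : Type u} [Field k] {M : AddSubmonoid Gn} [TPt M]

/-- constants -/
noncomputable def tcst (v : M) : k →+* Away (tG k M) (tmon k M v) :=
  (fromZeroRingHom (tG k M) _).comp (algebraMap k (tG k M 0))

lemma const_tO {v : M} (hv : 0 < tdeg M v) :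
    (CommRingCat.ofHom (const (TXto k M) (tO k M v)) :
      CommRingCat.of k ⟶ Γ(TX k M, Proj.basicOpen (tG k M) (tmon k M v))) =
      CommRingCat.ofHom (tcst v) ≫ Proj.awayToSection (tG k M) (tmon k M v) := by
  refine toSpecΓ_cancel (X := TX k M) (Proj.basicOpen (tG k M) (tmon k M v)) _ _ ?_
  refine (toSpecΓ_const (TXto k M) (tO k M v)).trans ?_
  change (Proj.basicOpen (tG k M) (tmon k M v)).ι ≫ TXto k M = _
  have h1 : (Proj.basicOpen (tG k M) (tmon k M v)).ι = (Proj.basicOpenIsoSpec (tG k M) (tmon k M v) (tmon_mem k M v rfl)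
      hv).hom ≫ Proj.awayι (tG k M) (tmon k M v) (tmon_mem k M v rfl) hv := by
    rw [Proj.awayι, Iso.hom_inv_id_assoc]
  rw [h1, TXto, Category.assoc, Proj.awayι_toSpecZero_assoc, Proj.basicOpenIsoSpec_hom,
    Proj.basicOpenToSpec, Category.assoc, ← Spec.map_comp, ← Spec.map_comp]
  rfl

lemma tL_const (V : (TX k M).Opens) (hV : tgen k M ∈ V) (c : k) :
    tL V hV (const (TXto k M) V c) = algebraMap (LR k) (LF k) (single 0 c) := by
  have hη : tgen k M ∈ tO k M (TPt.pt : M) := by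
    intro h
    apply tmon_ne_zero k M (TPt.pt : M)
    exact h
  have hd : 0 < tdeg M (TPt.pt : M) := by
    rw [TPt.deg]
    exact one_pos
  have h1 : tL V hV (const (TXto k M) V c) =
      tL (tO k M (TPt.pt : M)) hη (const (TXto k M) _ c) := rfl
  have h2 := congrArg (fun g : CommRingCat.of k ⟶
    Γ(TX k M, Proj.basicOpen (tG k M) (tmon k M (TPt.pt : M))) ↦
      tL (tO k M (TPt.pt : M)) hη (g c)) (const_tO (k := k) hd)
  rw [h1]
  refine h2.trans ?_
  refine (toL_mk (tψ_injective k M) (genPt (tG k M) one_pos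
    (tmon_mem k M (TPt.pt : M) TPt.deg) (tmon_ne_zero k M _)) ⟨0, _, 1, _⟩).trans ?_
  change tψ k M (single 0 c) / tψ k M 1 = _
  rw [map_one, div_one]
  exact tψ_single k M 0 c

end

end Pool.Agent.Helper72.VB
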