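import Mathlib
import Pool.Agent.Helper72.TorConst

open AlgebraicGeometry CategoryTheory Limits TopologicalSpace Opposite HomogeneousLocalization
open AddMonoidAlgebra

universe u

namespace Pool.Agent.Helper72.VB

lemma dim_le_of_cover {X : Type*} [TopologicalSpace X] {d : WithBot ℕ∞}
    (h : ∀ x : X, ∃ U : Opens X, x ∈ U ∧ topologicalKrullDim U ≤ d) :
    topologicalKrullDim X ≤ d := by
  rw [topologicalKrullDim, Order.krullDim_eq_iSup_coheight]
  refine iSup_le fun Z ↦ ?_
  obtain ⟨x, hx⟩ := Z.2.nonempty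
  obtain ⟨U, hxU, hU⟩ := h x
  have hemb : Topology.IsOpenEmbedding (Subtype.val : U → X) := U.2.isOpenEmbedding_subtypeVal
  let Z' := (IrreducibleCloseds.orderIsoOfIsOpenEmbedding (Subtype.val : U → X) hemb).symm
    ⟨Z, ⟨⟨x, hxU⟩, hx⟩⟩
  have h1 : IrreducibleCloseds.map (Subtype.val : U → X) hemb.continuous Z' = Z :=
    congrArg Subtype.val ((IrreducibleCloseds.orderIsoOfIsOpenEmbedding
      (Subtype.val : U → X) hemb).apply_symm_apply ⟨Z, ⟨⟨x, hxU⟩, hx⟩⟩)
  rw [← h1, hemb.coheight_map]
  exact (Order.coheight_le_krullDim Z').trans hU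

lemma dim_of_affine {X : Scheme.{u}} {U : X.Opens} (hU : IsAffineOpen U) :
    topologicalKrullDim U = ringKrullDim Γ(X, U) := by
  rw [← PrimeSpectrum.topologicalKrullDim_eq_ringKrullDim]
  exact IsHomeomorph.topologicalKrullDim_eq _ (Scheme.homeoOfIso hU.isoSpec).isHomeomorph

section

variable {k : Type u} [Field k]

lemma tgen_mem_tO {M : AddSubmonoid Gn} [TPt M] (m : M) : tgen k M ∈ tO k M m := by
  intro h
  exact tmon_ne_zero k M m h

/-- functions on a chart are generated by constants and monomials -/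
lemma sec_mem_subring {M : AddSubmonoid Gn} [TPt M] {v : M} (hv : 0 < tdeg M v) (C : Set Gp)
    (hC : ∀ (g : Gp) (l : ℕ) (m : M), tdeg M m = l * tdeg M v → g + l • tinc M v = tinc M m →
      g ∈ C)
    (hC' : ∀ g ∈ C, RegOn (tO k M v) g)
    (S : Subring (Sec (TX k M) (tO k M v)))
    (h1 : ∀ c, const (TXto k M) (tO k M v) c ∈ S)
    (h2 : ∀ g (hg : g ∈ C), chi (tO k M v) g (hC' g hg) ∈ S)
    (s : Sec (TX k M) (tO k M v)) : s ∈ S := by
  obtain ⟨Z, hZ, hs⟩ := exists_support hv (tgen_mem_tO v) s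
  have hs' : ∀ g ∈ Z.coeff.support, g ∈ C := by
    intro g hg
    obtain ⟨l, m, hd, h⟩ := hs g hg
    exact hC g l m hd h
  have e : s = ∑ g ∈ Z.coeff.support.attach,
      const (TXto k M) (tO k M v) (Z.coeff g.1) * chi (tO k M v) g.1 (hC' _ (hs' g.1 g.2)) := by
    apply tL_injective _ (tgen_mem_tO v)
    rw [hZ, map_sum]
    have e1 : Z = ∑ g ∈ Z.coeff.support.attach, single g.1 (Z.coeff g.1) := by
      conv_lhs => rw [← sum_coeff_single Z]
      rw [Finsupp.sum, ← Finset.sum_attach]
    conv_lhs => rw [e1]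
    rw [map_sum]
    refine Finset.sum_congr rfl fun g _ ↦ ?_
    rw [map_mul, tL_const, tL_chi, VB.mono, ← map_mul, single_mul_single, zero_add, mul_one]
  rw [e]
  exact Subring.sum_mem _ fun g _ ↦ S.mul_mem (h1 _) (h2 _ (hs' g.1 g.2))

lemma regOn_CX {e d : Bool} {g : Gp} (hg : g ∈ CX e d) : RegOn (tO k MX (vX e d)) g :=
  fun _ hx ↦ mem_reg_of_CX k hx hg

lemma regOn_CP {e d t : Bool} {g : Gp} (hg : g ∈ CP e d t) : RegOn (tO k MP (wP e d t)) g :=
  fun _ hx ↦ mem_reg_of_CP k hx hg

/-- the sign of a chart -/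
def sg (e : Bool) : ℤ := 1 - 2 * z e

lemma sg_sq (e : Bool) : sg e * sg e = 1 := by cases e <;> rfl

lemma regX1 (e d : Bool) : RegOn (tO k MX (vX e d)) (sg e, 0, 0, 0) :=
  regOn_CX (by rw [mem_CX]; cases e <;> cases d <;> simp [sg])

lemma regX2 (e d : Bool) : RegOn (tO k MX (vX e d)) (0, sg d, 0, 0) :=
  regOn_CX (by rw [mem_CX]; cases e <;> cases d <;> simp [sg])

lemma natAbs_sg {e : Bool} {p : ℤ} (h : 0 ≤ (1 - 2 * z e) * p) : (p.natAbs : ℤ) * sg e = p := by
  cases e <;> simp only [sg, z_true, z_false] at * <;> omega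

/-- coordinates on the charts of `X` -/
noncomputable def coordX (e d : Bool) :
    MvPolynomial (Fin 2) k →+* Sec (TX k MX) (tO k MX (vX e d)) :=
  MvPolynomial.eval₂Hom (const (TXto k MX) (tO k MX (vX e d)))
    ![chi _ (sg e, 0, 0, 0) (regX1 e d), chi _ (0, sg d, 0, 0) (regX2 e d)]

/-- exponents -/
def expo (e d : Bool) : (Fin 2 →₀ ℕ) →+ Gp where
  toFun m := (m 0 * sg e, m 1 * sg d, 0, 0)
  map_zero' := by simp
  map_add' m m' := by simp [add_mul]

lemma expo_injective (e d : Bool) : Function.Injective (expo e d) := by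
  intro m m' h
  simp only [expo, AddMonoidHom.coe_mk, ZeroHom.coe_mk, Prod.mk.injEq, and_true] at h
  ext i
  fin_cases i
  · cases e <;> simp [sg] at h ⊢ <;> exact h.1
  · cases d <;> simp [sg] at h ⊢ <;> exact h.2

lemma tL_coordX (e d : Bool) (P : MvPolynomial (Fin 2) k) :
    tL _ (tgen_mem_tO (vX e d)) (coordX e d P) =
      algebraMap (LR k) (LF k) (mapDomain (expo e d) (show AddMonoidAlgebra k (Fin 2 →₀ ℕ) from P)) := by
  have h : (tL _ (tgen_mem_tO (vX e d))).comp (coordX (k := k) e d) =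
      (algebraMap (LR k) (LF k)).comp (mapDomainRingHom k (expo e d)) := by
    apply MvPolynomial.ringHom_ext
    · intro c
      simp only [RingHom.comp_apply, coordX, MvPolynomial.coe_eval₂Hom, MvPolynomial.eval₂_C]
      rw [tL_const]
      congr 1
      refine Eq.trans ?_ (mapDomain_single (R := k) (f := expo e d) (a := 0) (r := c)).symm
      rw [map_zero]
    · intro i
      simp only [RingHom.comp_apply, coordX, MvPolynomial.coe_eval₂Hom, MvPolynomial.eval₂_X]
      have h2 : mapDomainRingHom k (expo e d) (MvPolynomial.X i) =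
          single (expo e d (Finsupp.single i 1)) 1 := mapDomain_single (f := expo e d)
      rw [h2]
      fin_cases i
      · change tL _ _ (chi _ (sg e, 0, 0, 0) (regX1 e d)) = _
        rw [tL_chi, VB.mono]
        congr 2
        simp [expo]
      · change tL _ _ (chi _ (0, sg d, 0, 0) (regX2 e d)) = _
        rw [tL_chi, VB.mono]
        congr 2
        simp [expo]
  exact congrArg (fun g : MvPolynomial (Fin 2) k →+* LF k ↦ g P) h

lemma coordX_bijective (e d : Bool) : Function.Bijective (coordX (k := k) e d) := by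
  constructor
  · intro P Q h
    have h1 := congrArg (tL _ (tgen_mem_tO (vX e d))) h
    rw [tL_coordX, tL_coordX] at h1
    exact mapDomain_injective (expo_injective e d)
      (IsFractionRing.injective (LR k) (LF k) h1)
  · rw [← RingHom.range_eq_top, eq_top_iff]
    intro s _
    refine sec_mem_subring (v := vX e d) (by rw [tdeg_vX]; exact one_pos) (CX e d)
      (fun g l m hd h ↦ CX_of hd h) (fun g hg ↦ regOn_CX hg) _ ?_ ?_ s
    · intro c
      exact ⟨MvPolynomial.C c, MvPolynomial.eval₂_C _ _ _⟩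
    · rintro ⟨p, q, j, l⟩ hg
      obtain ⟨rfl, rfl, h1, h2⟩ := mem_CX.mp hg
      refine ⟨MvPolynomial.monomial (Finsupp.single 0 p.natAbs + Finsupp.single 1 q.natAbs) 1, ?_⟩
      apply tL_injective _ (tgen_mem_tO (vX e d))
      rw [tL_coordX, tL_chi, VB.mono]
      congr 1
      refine (mapDomain_single (f := expo e d)).trans ?_
      congr 1
      simp only [expo, AddMonoidHom.coe_mk, ZeroHom.coe_mk]
      simp only [Finsupp.coe_add, Pi.add_apply, Finsupp.single_eq_same, ne_eq, one_ne_zero,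
        not_false_eq_true, Finsupp.single_eq_of_ne, add_zero, zero_ne_one, zero_add]
      rw [natAbs_sg h1, natAbs_sg h2]

theorem dim_X : topologicalKrullDim (TX k MX) = 2 := by
  have h : ∀ e d, topologicalKrullDim (tO k MX (vX e d)) = 2 := by
    intro e d
    rw [dim_of_affine (isAffineOpen_tO k MX (by rw [tdeg_vX]; exact one_pos))]
    have h1 := ringKrullDim_eq_of_ringEquiv (RingEquiv.ofBijective (coordX (k := k) e d)
      (coordX_bijective e d))
    rw [MvPolynomial.ringKrullDim_of_isNoetherianRing, ringKrullDim_eq_zero_of_field] at h1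
    refine Eq.trans h1.symm ?_
    simp
  apply le_antisymm
  · apply dim_le_of_cover
    intro x
    obtain ⟨ed, hx⟩ := exists_vX k x
    exact ⟨_, hx, (h _ _).le⟩
  · rw [← h false false]
    exact topologicalKrullDim_subspace_le _ _

end

end Pool.Agent.Helper72.VB
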