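import Mathlib
import Pool.Agent.Helper72.VBDefs

open LaurentPolynomial

universe u

namespace Pool.Agent.Helper72.VB

section

variable {k : Type u} [Field k] {R : Type u} [CommRing R]

lemma eval₂_eq_sum (φ : k →+* R) (w : Rˣ) (P : k[T;T⁻¹]) :
    LaurentPolynomial.eval₂ φ w P = ∑ p ∈ P.coeff.support, φ (P.coeff p) * ((w ^ p : Rˣ) : R) := by
  conv_lhs => rw [← AddMonoidAlgebra.sum_coeff_single P]
  rw [Finsupp.sum, map_sum]
  refine Finset.sum_congr rfl fun p _ ↦ ?_
  rw [LaurentPolynomial.single_eq_C_mul_T, LaurentPolynomial.eval₂_C_mul_T]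

lemma eval₂_eq_sum' (φ : k →+* R) (w : Rˣ) (P : k[T;T⁻¹]) (F : Finset ℤ)
    (hF : P.coeff.support ⊆ F) :
    LaurentPolynomial.eval₂ φ w P = ∑ p ∈ F, φ (P.coeff p) * ((w ^ p : Rˣ) : R) := by
  rw [eval₂_eq_sum]
  refine Finset.sum_subset hF fun p _ hp ↦ ?_
  rw [Finsupp.notMem_support_iff] at hp
  rw [hp, map_zero, zero_mul]

lemma laurent_eq_zero [Infinite k] (P : k[T;T⁻¹])
    (h : ∀ c : kˣ, LaurentPolynomial.eval₂ (RingHom.id k) c P = 0) : P = 0 := by
  obtain ⟨n, Q, hQ⟩ := LaurentPolynomial.exists_T_pow P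
  have hQ0 : Q = 0 := by
    apply Polynomial.eq_zero_of_infinite_isRoot
    apply Set.Infinite.mono (s := {c : k | c ≠ 0})
    · intro c hc
      have h1 := h (Units.mk0 c hc)
      have h2 := congrArg (LaurentPolynomial.eval₂ (RingHom.id k) (Units.mk0 c hc)) hQ
      rw [LaurentPolynomial.eval₂_toLaurent, map_mul, h1, zero_mul] at h2
      simpa [Polynomial.IsRoot, Polynomial.eval₂_id] using h2
    · exact Set.Infinite.mono (fun x hx ↦ by simpa using hx) (Set.finite_singleton (0 : k)).infinite_compl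
  rw [hQ0, map_zero] at hQ
  have h3 := congrArg (· * (LaurentPolynomial.T (-n) : k[T;T⁻¹])) hQ
  simp only [zero_mul, LaurentPolynomial.mul_T_assoc] at h3
  simpa using h3.symm

lemma eval₂_comp {S : Type u} [CommRing S] (φ : k →+* R) (w : Rˣ) (f : R →+* S)
    (P : k[T;T⁻¹]) :
    f (LaurentPolynomial.eval₂ φ w P) =
      LaurentPolynomial.eval₂ (f.comp φ) (Units.map f.toMonoidHom w) P := by
  rw [eval₂_eq_sum, eval₂_eq_sum, map_sum]
  refine Finset.sum_congr rfl fun p _ ↦ ?_
  rw [map_mul, ← map_zpow]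
  rfl

end

/-- the matrix `diag (l, m)` -/
def dg {R : Type u} [CommRing R] (l m : Rˣ) : GL (Fin 2) R where
  val := !![(l : R), 0; 0, (m : R)]
  inv := !![((l⁻¹ : Rˣ) : R), 0; 0, ((m⁻¹ : Rˣ) : R)]
  val_inv := by
    ext i j
    fin_cases i <;> fin_cases j <;> simp [Matrix.mul_apply]
  inv_val := by
    ext i j
    fin_cases i <;> fin_cases j <;> simp [Matrix.mul_apply]

section

variable {R : Type u} [CommRing R]

lemma dg_mul (l m l' m' : Rˣ) : dg l m * dg l' m' = dg (l * l') (m * m') := by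
  apply Units.ext
  ext i j
  fin_cases i <;> fin_cases j <;> simp [dg, Matrix.mul_apply]

lemma dg_one : dg (1 : Rˣ) 1 = 1 := by
  apply Units.ext
  ext i j
  fin_cases i <;> fin_cases j <;> simp [dg]

lemma dg_scalar (m : Rˣ) : dg m m = Matrix.GeneralLinearGroup.scalar (Fin 2) m := by
  apply Units.ext
  ext i j
  fin_cases i <;> fin_cases j <;> simp [dg, Matrix.GeneralLinearGroup.scalar]

lemma mapGL_dg {S : Type u} [CommRing S] (f : R →+* S) (l m : Rˣ) :
    mapGL f (dg l m) = dg (Units.map f.toMonoidHom l) (Units.map f.toMonoidHom m) := by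
  apply Units.ext
  ext i j
  fin_cases i <;> fin_cases j <;> simp [dg, mapGL]

lemma mapGL_apply {r : ℕ} {S : Type u} [CommRing S] (f : R →+* S) (g : GL (Fin r) R)
    (a b : Fin r) : (mapGL f g : Matrix (Fin r) (Fin r) S) a b =
      f ((g : Matrix (Fin r) (Fin r) R) a b) := rfl

end

section

variable {k : Type u} [Field k] {r' : ℕ} (ρ : AlgRep k 2 r')

/-- the universal unit -/
noncomputable def unT (k : Type u) [Field k] : k[T;T⁻¹]ˣ where
  val := LaurentPolynomial.T 1
  inv := LaurentPolynomial.T (-1)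
  val_inv := by rw [← LaurentPolynomial.T_add]; simp
  inv_val := by rw [← LaurentPolynomial.T_add]; simp

lemma eval₂_unT {R : Type u} [CommRing R] (φ : k →+* R) (w : Rˣ) :
    Units.map (LaurentPolynomial.eval₂ φ w).toMonoidHom (unT k) = w := by
  apply Units.ext
  change LaurentPolynomial.eval₂ φ w (LaurentPolynomial.T 1) = w
  rw [LaurentPolynomial.eval₂_T, zpow_one]

lemma eval₂_comp_C {R : Type u} [CommRing R] (φ : k →+* R) (w : Rˣ) :
    (LaurentPolynomial.eval₂ φ w).comp LaurentPolynomial.C = φ :=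
  RingHom.ext fun c ↦ LaurentPolynomial.eval₂_C _ _ c

/-- the value of the representation at a universal matrix -/
lemma rep_dg {R : Type u} [CommRing R] (φ : k →+* R) (w : Rˣ) :
    ρ.map R φ (dg w 1) = mapGL (LaurentPolynomial.eval₂ φ w)
      (ρ.map k[T;T⁻¹] LaurentPolynomial.C (dg (unT k) 1)) := by
  rw [← ρ.natural, mapGL_dg, eval₂_unT, eval₂_comp_C, map_one]

lemma rep_scalar' {R : Type u} [CommRing R] (φ : k →+* R) (w : Rˣ) :
    ρ.map R φ (dg w w) = mapGL (LaurentPolynomial.eval₂ φ w)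
      (ρ.map k[T;T⁻¹] LaurentPolynomial.C (dg (unT k) (unT k))) := by
  rw [← ρ.natural, mapGL_dg, eval₂_unT, eval₂_comp_C]

lemma rep_scalar [Infinite k] (hρ : ρ.FactorsThroughPGL) {R : Type u} [CommRing R] (φ : k →+* R)
    (w : Rˣ) : ρ.map R φ (dg w w) = 1 := by
  rw [rep_scalar']
  have : ρ.map k[T;T⁻¹] LaurentPolynomial.C (dg (unT k) (unT k)) = 1 := by
    apply Units.ext
    ext1 a b
    rw [← sub_eq_zero]
    apply laurent_eq_zero
    intro c
    have h1 := hρ c
    rw [← dg_scalar, rep_scalar'] at h1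
    have h2 := congrArg (fun z : GL (Fin r') k ↦ (z : Matrix (Fin r') (Fin r') k) a b) h1
    simp only [mapGL_apply] at h2
    rw [map_sub, h2]
    simp only [Units.val_one, Matrix.one_apply]
    split_ifs <;> simp
  rw [this, map_one]

/-- the coefficient matrices of the one-parameter subgroup -/
noncomputable def coefM (p : ℤ) : Matrix (Fin r') (Fin r') k :=
  Matrix.of fun a b ↦ ((ρ.map k[T;T⁻¹] LaurentPolynomial.C (dg (unT k) 1) :
    Matrix (Fin r') (Fin r') k[T;T⁻¹]) a b).coeff p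

/-- a finite set of exponents containing all supports -/
noncomputable def expF : Finset ℤ :=
  Finset.univ.biUnion fun ab : Fin r' × Fin r' ↦
    ((ρ.map k[T;T⁻¹] LaurentPolynomial.C (dg (unT k) 1) :
      Matrix (Fin r') (Fin r') k[T;T⁻¹]) ab.1 ab.2).coeff.support

lemma coefM_eq_zero {p : ℤ} (hp : p ∉ expF ρ) : coefM ρ p = 0 := by
  ext a b
  by_contra h
  apply hp
  rw [expF, Finset.mem_biUnion]
  exact ⟨(a, b), Finset.mem_univ _, Finsupp.mem_support_iff.mpr h⟩

lemma rep_dg_apply {R : Type u} [CommRing R] (φ : k →+* R) (w : Rˣ) (a b : Fin r') :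
    (ρ.map R φ (dg w 1) : Matrix (Fin r') (Fin r') R) a b =
      ∑ p ∈ expF ρ, φ (coefM ρ p a b) * ((w ^ p : Rˣ) : R) := by
  rw [rep_dg, mapGL_apply]
  apply eval₂_eq_sum'
  intro p hp
  rw [expF, Finset.mem_biUnion]
  exact ⟨(a, b), Finset.mem_univ _, hp⟩

lemma sum_coefM : ∑ p ∈ expF ρ, coefM ρ p = 1 := by
  ext a b
  have h := rep_dg_apply ρ (RingHom.id k) 1 a b
  rw [dg_one, map_one] at h
  rw [Matrix.sum_apply]
  simpa using h.symm

lemma coefM_identity (c : kˣ) (q : ℤ) :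
    ((c ^ q : kˣ) : k) • coefM ρ q =
      ∑ p ∈ expF ρ, ((c ^ p : kˣ) : k) • (coefM ρ p * coefM ρ q) := by
  have h1 : ρ.map k[T;T⁻¹] LaurentPolynomial.C
      (dg (Units.map (LaurentPolynomial.C (R := k)).toMonoidHom c * unT k) 1) =
      mapGL LaurentPolynomial.C (ρ.map k (RingHom.id k) (dg c 1)) *
        ρ.map k[T;T⁻¹] LaurentPolynomial.C (dg (unT k) 1) := by
    rw [← ρ.natural, mapGL_dg, map_one, RingHom.comp_id, ← map_mul, dg_mul, one_mul]
  ext a d
  have h2 := congrArg (fun z : GL (Fin r') k[T;T⁻¹] ↦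
    ((z : Matrix (Fin r') (Fin r') k[T;T⁻¹]) a d).coeff q) h1
  beta_reduce at h2
  rw [rep_dg_apply, Units.val_mul, Matrix.mul_apply] at h2
  have h3 : ∀ p : ℤ, (LaurentPolynomial.C (coefM ρ p a d) *
      (((Units.map (LaurentPolynomial.C (R := k)).toMonoidHom c * unT k) ^ p :
        k[T;T⁻¹]ˣ) : k[T;T⁻¹])) =
      AddMonoidAlgebra.single p (coefM ρ p a d * ((c ^ p : kˣ) : k)) := by
    intro p
    have h4 : (((unT k) ^ p : k[T;T⁻¹]ˣ) : k[T;T⁻¹]) = LaurentPolynomial.T p := by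
      induction p using Int.induction_on with
      | zero => simp
      | succ i hi =>
        rw [zpow_add_one, Units.val_mul, hi, LaurentPolynomial.T_add]
        rfl
      | pred i hi =>
        rw [zpow_sub_one, Units.val_mul, hi, LaurentPolynomial.T_sub]
        rfl
    rw [mul_zpow, Units.val_mul, h4, ← map_zpow]
    change LaurentPolynomial.C (coefM ρ p a d) * (LaurentPolynomial.C ((c ^ p : kˣ) : k) *
      LaurentPolynomial.T p) = _
    rw [← mul_assoc, ← map_mul, ← LaurentPolynomial.single_eq_C_mul_T]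
  rw [Finset.sum_congr rfl fun p _ ↦ h3 p] at h2
  have h6 : ∀ (F : Finset ℤ) (g : ℤ → k),
      (∑ p ∈ F, (AddMonoidAlgebra.single p (g p) : k[T;T⁻¹])).coeff q =
        if q ∈ F then g q else 0 := by
    intro F g
    rw [AddMonoidAlgebra.coeff_sum, Finsupp.finsetSum_apply]
    simp only [AddMonoidAlgebra.coeff_single, Finsupp.single_apply, Finset.sum_ite_eq']
  have h7 : (∑ j, ((mapGL LaurentPolynomial.C (ρ.map k (RingHom.id k) (dg c 1)) :
      Matrix (Fin r') (Fin r') k[T;T⁻¹]) a j) * ((ρ.map k[T;T⁻¹] LaurentPolynomial.C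
        (dg (unT k) 1) : Matrix (Fin r') (Fin r') k[T;T⁻¹]) j d)).coeff q =
      ∑ j, (ρ.map k (RingHom.id k) (dg c 1) : Matrix (Fin r') (Fin r') k) a j *
        coefM ρ q j d := by
    rw [AddMonoidAlgebra.coeff_sum, Finsupp.finsetSum_apply]
    refine Finset.sum_congr rfl fun j _ ↦ ?_
    rw [mapGL_apply, ← LaurentPolynomial.smul_eq_C_mul]
    rfl
  rw [h6, h7] at h2
  have h8 : (if q ∈ expF ρ then coefM ρ q a d * ((c ^ q : kˣ) : k) else 0) =
      coefM ρ q a d * ((c ^ q : kˣ) : k) := by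
    split_ifs with hq
    · rfl
    · rw [coefM_eq_zero ρ hq]
      simp
  rw [h8] at h2
  rw [Matrix.smul_apply, smul_eq_mul, mul_comm, h2, Matrix.sum_apply]
  simp_rw [rep_dg_apply, Matrix.smul_apply, Matrix.mul_apply, Finset.sum_mul, smul_eq_mul,
    Finset.mul_sum]
  rw [Finset.sum_comm]
  refine Finset.sum_congr rfl fun p _ ↦ Finset.sum_congr rfl fun j _ ↦ ?_
  simp only [RingHom.id_apply]
  ring

lemma coefM_mul [Infinite k] (p q : ℤ) :
    coefM ρ p * coefM ρ q = if p = q then coefM ρ q else 0 := by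
  ext a d
  let P : k[T;T⁻¹] := ∑ p ∈ expF ρ, AddMonoidAlgebra.single p ((coefM ρ p * coefM ρ q) a d) -
    AddMonoidAlgebra.single q (coefM ρ q a d)
  have hP : P = 0 := by
    apply laurent_eq_zero
    intro c
    have h := congrArg (fun z : Matrix (Fin r') (Fin r') k ↦ z a d) (coefM_identity ρ c q)
    simp only [Matrix.smul_apply, Matrix.sum_apply, smul_eq_mul] at h
    simp only [P, map_sub, map_sum, LaurentPolynomial.single_eq_C_mul_T,
      LaurentPolynomial.eval₂_C_mul_T, RingHom.id_apply]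
    rw [sub_eq_zero, mul_comm (coefM ρ q a d), h]
    exact Finset.sum_congr rfl fun p _ ↦ mul_comm _ _
  by_cases hp : p ∈ expF ρ
  · have h1 := congrArg (fun z : k[T;T⁻¹] ↦ z.coeff p) hP
    simp only [P, AddMonoidAlgebra.coeff_sub, AddMonoidAlgebra.coeff_sum,
      AddMonoidAlgebra.coeff_single, AddMonoidAlgebra.coeff_zero] at h1
    simp only [Finsupp.coe_sub, Finsupp.coe_zero, Pi.sub_apply, Finsupp.finsetSum_apply,
      Finsupp.single_apply, Finset.sum_ite_eq', hp, if_true, Pi.zero_apply] at h1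
    rw [sub_eq_zero] at h1
    rw [h1]
    split_ifs with h2 h3 h3
    · rfl
    · exact absurd h2.symm h3
    · exact absurd h3.symm h2
    · rfl
  · rw [coefM_eq_zero ρ hp, Matrix.zero_mul]
    split_ifs with h
    · rw [← h, coefM_eq_zero ρ hp]
    · rfl

/-- the value of the representation at a diagonal matrix -/
lemma rep_diag [Infinite k] (hρ : ρ.FactorsThroughPGL) {R : Type u} [CommRing R] (φ : k →+* R)
    (l m : Rˣ) (a b : Fin r') :
    (ρ.map R φ (dg l m) : Matrix (Fin r') (Fin r') R) a b =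
      ∑ p ∈ expF ρ, φ (coefM ρ p a b) * (((l * m⁻¹) ^ p : Rˣ) : R) := by
  have h : dg l m = dg (l * m⁻¹) 1 * dg m m := by
    rw [dg_mul, one_mul, inv_mul_cancel_right]
  rw [h, map_mul, rep_scalar ρ hρ, mul_one, rep_dg_apply]

end

end Pool.Agent.Helper72.VB
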