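import Mathlib
import Pool.Agent.Helper72.VBAlg

open AlgebraicGeometry CategoryTheory TopologicalSpace Opposite

universe u

namespace Pool.Agent.Helper72.VB

variable {X : Scheme.{u}} {k : Type u} [Field k] [Infinite k] (f : X ⟶ Spec (.of k))

lemma nz_of_isUnit {V : X.Opens} {s : Sec X V} (hs : IsUnit s) : nz s = V :=
  Scheme.basicOpen_of_isUnit X hs

theorem semistable_of (E : VSheaf X 2) (l m : ∀ i j, (Sec X (E.U i ⊓ E.U j))ˣ)
    (hg : ∀ i j, E.g i j = dg (l i j) (m i j))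
    (h0 : ∀ h : ∀ i, Sec X (E.U i),
      (∀ i j, res (inf_le_left : E.U i ⊓ E.U j ≤ E.U i) (h i) = res inf_le_right (h j)) →
      ∃ c : k, ∀ i, h i = const f _ c)
    (hp : ∀ p : ℤ, p ≠ 0 → ∀ h : ∀ i, Sec X (E.U i),
      (∀ i j, res (inf_le_left : E.U i ⊓ E.U j ≤ E.U i) (h i) =
        (((l i j * (m i j)⁻¹) ^ p : (Sec X (E.U i ⊓ E.U j))ˣ) : Sec X (E.U i ⊓ E.U j)) *
          res inf_le_right (h j)) → ∀ i, h i = 0) :
    ¬ E.IsUnstable f := by
  rintro ⟨r', ρ, hρ, s, hs, ⟨i0, a0, hne⟩, x, hx⟩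
  let h : ℤ → Fin r' → ∀ i, Sec X (E.U i) := fun p a i ↦
    ∑ b, const f (E.U i) (coefM ρ p a b) * s i b
  have hs' : ∀ i j b, res (inf_le_left : E.U i ⊓ E.U j ≤ E.U i) (s i b) =
      ∑ c, (∑ q ∈ expF ρ, const f _ (coefM ρ q b c) *
        (((l i j * (m i j)⁻¹) ^ q : (Sec X (E.U i ⊓ E.U j))ˣ) : Sec X (E.U i ⊓ E.U j))) *
          res inf_le_right (s j c) := by
    intro i j b
    have h1 := congrFun (hs i j) b
    refine h1.trans ?_
    change ∑ c, ((ρ.map _ (const f _) (E.g i j) : GL (Fin r') (Sec X (E.U i ⊓ E.U j))) :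
      Matrix (Fin r') (Fin r') (Sec X (E.U i ⊓ E.U j))) b c *
        res (inf_le_right : E.U i ⊓ E.U j ≤ E.U j) (s j c) = _
    refine Finset.sum_congr rfl fun c _ ↦ ?_
    rw [hg, rep_diag ρ hρ]
  have hc : ∀ p a i j, res (inf_le_left : E.U i ⊓ E.U j ≤ E.U i) (h p a i) =
        (((l i j * (m i j)⁻¹) ^ p : (Sec X (E.U i ⊓ E.U j))ˣ) : Sec X (E.U i ⊓ E.U j)) *
          res inf_le_right (h p a j) := by
    intro p a i j
    simp only [h, map_sum, map_mul]
    have e1 : ∀ c : k, res (inf_le_left : E.U i ⊓ E.U j ≤ E.U i) (const f (E.U i) c) =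
        const f (E.U i ⊓ E.U j) c := fun c ↦ congrArg (fun g : k →+* _ ↦ g c) (res_const f _)
    have e2 : ∀ c : k, res (inf_le_right : E.U i ⊓ E.U j ≤ E.U j) (const f (E.U j) c) =
        const f (E.U i ⊓ E.U j) c := fun c ↦ congrArg (fun g : k →+* _ ↦ g c) (res_const f _)
    simp only [e1, e2, hs' i j]
    have e3 : ∀ c q, ∑ b, const f (E.U i ⊓ E.U j) (coefM ρ p a b) *
        const f (E.U i ⊓ E.U j) (coefM ρ q b c) =
        if p = q then const f (E.U i ⊓ E.U j) (coefM ρ p a c) else 0 := by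
      intro c q
      simp only [← map_mul, ← map_sum]
      rw [← Matrix.mul_apply, coefM_mul]
      split_ifs with hpq
      · rw [hpq]
      · rw [Matrix.zero_apply, map_zero]
    have e4 : ∀ c, ∑ b, const f (E.U i ⊓ E.U j) (coefM ρ p a b) *
        (∑ q ∈ expF ρ, const f _ (coefM ρ q b c) *
        (((l i j * (m i j)⁻¹) ^ q : (Sec X (E.U i ⊓ E.U j))ˣ) : Sec X (E.U i ⊓ E.U j))) =
        const f (E.U i ⊓ E.U j) (coefM ρ p a c) *
          (((l i j * (m i j)⁻¹) ^ p : (Sec X (E.U i ⊓ E.U j))ˣ) : Sec X (E.U i ⊓ E.U j)) := by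
      intro c
      simp only [Finset.mul_sum]
      rw [Finset.sum_comm]
      have e5 : ∀ q, ∑ b, const f (E.U i ⊓ E.U j) (coefM ρ p a b) *
          (const f (E.U i ⊓ E.U j) (coefM ρ q b c) *
          (((l i j * (m i j)⁻¹) ^ q : (Sec X (E.U i ⊓ E.U j))ˣ) : Sec X (E.U i ⊓ E.U j))) =
          if p = q then const f (E.U i ⊓ E.U j) (coefM ρ p a c) *
          (((l i j * (m i j)⁻¹) ^ q : (Sec X (E.U i ⊓ E.U j))ˣ) : Sec X (E.U i ⊓ E.U j)) else 0 := by
        intro q
        simp only [← mul_assoc, ← Finset.sum_mul]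
        rw [e3]
        split_ifs <;> simp
      rw [Finset.sum_congr rfl fun q _ ↦ e5 q, Finset.sum_ite_eq]
      split_ifs with hF
      · rfl
      · rw [coefM_eq_zero ρ hF]
        simp
    simp only [Finset.mul_sum]
    rw [Finset.sum_comm]
    refine Finset.sum_congr rfl fun c _ ↦ ?_
    simp only [← mul_assoc, ← Finset.sum_mul] at e4 ⊢
    rw [e4 c]
    ring
  have hsum : ∀ i a, s i a = h 0 a i := by
    intro i a
    have e1 : s i a = ∑ p ∈ expF ρ, h p a i := by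
      simp only [h]
      rw [Finset.sum_comm]
      simp only [← Finset.sum_mul, ← map_sum]
      have e2 : ∀ b, ∑ p ∈ expF ρ, coefM ρ p a b = (1 : Matrix (Fin r') (Fin r') k) a b := by
        intro b
        rw [← sum_coefM ρ, Matrix.sum_apply]
      simp only [e2, Matrix.one_apply]
      rw [Finset.sum_eq_single a]
      · simp
      · intro b _ hb
        rw [if_neg (Ne.symm hb), map_zero, zero_mul]
      · intro ha
        exact absurd (Finset.mem_univ _) ha
    by_cases hF : (0 : ℤ) ∈ expF ρ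
    · rw [e1, Finset.sum_eq_single_of_mem 0 hF]
      intro p _ hp0
      exact hp p hp0 (h p a) (hc p a) i
    · rw [e1, Finset.sum_eq_zero]
      · simp [h, coefM_eq_zero ρ hF]
      · intro p hpF
        exact hp p (by rintro rfl; exact hF hpF) (h p a) (hc p a) i
  obtain ⟨c, hc0⟩ := h0 (h 0 a0) (fun i j ↦ by simpa using hc 0 a0 i j)
  have hc1 : c ≠ 0 := by
    rintro rfl
    apply hne
    rw [hsum, hc0, map_zero]
  have hxU : x ∈ (⨆ i, E.U i : X.Opens) := by
    rw [E.cover]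
    trivial
  obtain ⟨i, hi⟩ := Opens.mem_iSup.mp hxU
  apply hx i a0
  rw [hsum, hc0, nz_of_isUnit]
  · exact hi
  · exact (isUnit_iff_ne_zero.mpr hc1).map (const f (E.U i))

end Pool.Agent.Helper72.VB
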