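import Mathlib
import Pool.Agent.Helper72.TorDim
import Pool.Agent.Helper72.VBSemi

open AlgebraicGeometry CategoryTheory Limits TopologicalSpace Opposite HomogeneousLocalization
open AddMonoidAlgebra

universe u

namespace Pool.Agent.Helper72.VB

section

variable {k : Type u} [Field k]

/-- the charts of `X` -/
noncomputable def UX (i : Bool × Bool) : (TX k MX).Opens := tO k MX (vX i.1 i.2)

/-- exponents of the local generators of `𝒪(a, b)` -/
def oX (a b : ℤ) (i : Bool × Bool) : Gp := (a * z i.1, b * z i.2, 0, 0)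

lemma regOn_oX (a b : ℤ) (i j : Bool × Bool) : RegOn (UX (k := k) i ⊓ UX j) (oX a b j - oX a b i) := by
  rintro x ⟨hi, hj⟩
  obtain ⟨e, d⟩ := i
  obtain ⟨e', d'⟩ := j
  have h1 : ∀ A : ℤ, (e = e' → A = 0) → ((A, 0, 0, 0) : Gp) ∈ reg k MX x := by
    intro A hA
    by_cases h : 0 ≤ (1 - 2 * z e) * A
    · exact mem_reg_of_CX k hi (mem_CX.mpr ⟨rfl, rfl, h, by simp⟩)
    · refine mem_reg_of_CX k hj (mem_CX.mpr ⟨rfl, rfl, ?_, by simp⟩)
      cases e <;> cases e' <;> simp at h hA ⊢ <;> omega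
  have h2 : ∀ A : ℤ, (d = d' → A = 0) → ((0, A, 0, 0) : Gp) ∈ reg k MX x := by
    intro A hA
    by_cases h : 0 ≤ (1 - 2 * z d) * A
    · exact mem_reg_of_CX k hi (mem_CX.mpr ⟨rfl, rfl, by simp, h⟩)
    · refine mem_reg_of_CX k hj (mem_CX.mpr ⟨rfl, rfl, by simp, ?_⟩)
      cases d <;> cases d' <;> simp at h hA ⊢ <;> omega
  have h3 : oX a b (e', d') - oX a b (e, d) = (a * z e' - a * z e, 0, 0, 0) +
      (0, b * z d' - b * z d, 0, 0) := by
    simp [oX]
    rfl
  rw [h3]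
  exact add_mem (h1 _ (by rintro rfl; simp)) (h2 _ (by rintro rfl; simp))

lemma regOn_oX' (a b : ℤ) (i j : Bool × Bool) :
    RegOn (UX (k := k) i ⊓ UX j) (-(oX a b j - oX a b i)) := by
  rw [neg_sub, inf_comm]
  exact regOn_oX a b j i

/-- transition functions of `𝒪(a, b)` -/
noncomputable def tr (a b : ℤ) (i j : Bool × Bool) : (Sec (TX k MX) (UX i ⊓ UX j))ˣ :=
  chiU _ (oX a b j - oX a b i) (regOn_oX a b i j) (regOn_oX' a b i j)

lemma mapGL_dg' {X : Scheme.{u}} {V W : X.Opens} (h : V ≤ W) (l m : (Sec X W)ˣ) :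
    mapGL (res h) (dg l m) = dg (resU h l) (resU h m) := mapGL_dg (res h) l m

lemma tr_cocycle (a b : ℤ) (i j l : Bool × Bool) (W : (TX k MX).Opens) (hi : W ≤ UX i)
    (hj : W ≤ UX j) (hl : W ≤ UX l) :
    resU (le_inf hi hj) (tr a b i j) * resU (le_inf hj hl) (tr a b j l) =
      resU (le_inf hi hl) (tr a b i l) := by
  rw [tr, tr, tr, resU_chiU, resU_chiU, resU_chiU, chiU_mul]
  apply chiU_congr
  abel

lemma E_cocycle : IsCocycle (UX (k := k)) fun i j ↦ dg (tr 1 1 i j) (tr 2 0 i j) := by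
  intro i j l W hi hj hl
  change mapGL (res _) _ * mapGL (res _) _ = mapGL (res _) _
  rw [mapGL_dg', mapGL_dg', mapGL_dg', dg_mul, tr_cocycle 1 1 i j l W hi hj hl,
    tr_cocycle 2 0 i j l W hi hj hl]

/-- the vector sheaf `E = 𝒪(1, 1) ⊕ 𝒪(2, 0)` on `X = ℙ¹ × ℙ¹` -/
noncomputable def E : VSheaf (TX k MX) 2 where
  ι := Bool × Bool
  U := UX
  affine i := isAffineOpen_tO k MX (by rw [tdeg_vX]; exact one_pos)
  cover := by
    rw [eq_top_iff]
    intro x _
    obtain ⟨ed, hx⟩ := exists_vX k x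
    exact Opens.mem_iSup.mpr ⟨ed, hx⟩
  g i j := dg (tr 1 1 i j) (tr 2 0 i j)
  cocycle := E_cocycle

lemma mono_zpow (g : Gp) (p : ℤ) : (VB.mono g : LF k) ^ p = VB.mono (p • g) := by
  induction p using Int.induction_on with
  | zero => simp [mono_zero]
  | succ i hi => rw [zpow_add_one₀ (mono_ne_zero k _), hi, add_smul, one_smul, mono_add]
  | pred i hi =>
    rw [zpow_sub_one₀ (mono_ne_zero k _), hi, sub_smul, one_smul, sub_eq_add_neg, mono_add]
    congr 1
    apply inv_eq_of_mul_eq_one_right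
    rw [← mono_add, add_neg_cancel, mono_zero]

lemma tr_val_zpow (a b : ℤ) (i j : Bool × Bool) (p : ℤ) (hV : tgen k MX ∈ UX i ⊓ UX j) :
    tL _ hV ((tr a b i j ^ p : (Sec (TX k MX) (UX i ⊓ UX j))ˣ) : Sec (TX k MX) (UX i ⊓ UX j)) =
      VB.mono (p • (oX a b j - oX a b i)) := by
  have h0 : tL _ hV ((tr a b i j : (Sec (TX k MX) (UX i ⊓ UX j))ˣ) :
      Sec (TX k MX) (UX i ⊓ UX j)) = VB.mono (oX a b j - oX a b i) :=
    tL_chi (regOn_oX a b i j) hV
  have h1 : ((Units.map (tL _ hV).toMonoidHom (tr a b i j ^ p) : (LF k)ˣ) : LF k) =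
      (((Units.map (tL _ hV).toMonoidHom (tr a b i j) : (LF k)ˣ) : LF k)) ^ p := by
    rw [map_zpow, Units.val_zpow_eq_zpow_val]
  refine h1.trans (Eq.trans ?_ (mono_zpow _ p))
  exact congrArg (· ^ p) h0

lemma UX_gen (i : Bool × Bool) : tgen k MX ∈ UX (k := k) i := tgen_mem_tO _

/-- support of the global sections of the line sheaf `𝒪(-p, p)` -/
lemma support_aux (p : ℤ) (h : ∀ i : Bool × Bool, Sec (TX k MX) (UX i))
    (hh : ∀ i j, tL _ (UX_gen i) (h i) =
      VB.mono (p • (oX (-1) 1 j - oX (-1) 1 i)) * tL _ (UX_gen j) (h j)) :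
    ∃ Z : LR k, tL _ (UX_gen (false, false)) (h (false, false)) = algebraMap (LR k) (LF k) Z ∧
      ∀ g ∈ Z.coeff.support, 0 ≤ g.1 ∧ g.1 ≤ -p ∧ 0 ≤ g.2.1 ∧ g.2.1 ≤ p ∧ g.2.2.1 = 0 ∧
        g.2.2.2 = 0 := by
  obtain ⟨Z, hZ, hs⟩ := exists_support (v := vX false false) (by rw [tdeg_vX]; exact one_pos)
    (tgen_mem_tO _) (h (false, false))
  have hC : ∀ g ∈ Z.coeff.support, g ∈ CX false false := by
    intro g hg
    obtain ⟨l, m, hd, e⟩ := hs g hg
    exact CX_of hd e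
  have key : ∀ e d : Bool, ∀ g ∈ Z.coeff.support,
      g - p • oX (-1) 1 (e, d) ∈ CX e d := by
    intro e d g hg
    obtain ⟨Z', hZ', hs'⟩ := exists_support (v := vX e d) (by rw [tdeg_vX]; exact one_pos)
      (tgen_mem_tO _) (h (e, d))
    have h1 := hh (false, false) (e, d)
    have h2 : (oX (-1) 1 (false, false) : Gp) = 0 := rfl
    rw [h2, sub_zero] at h1
    have h3 : algebraMap (LR k) (LF k) Z = algebraMap (LR k) (LF k)
        (Z' * single (p • oX (-1) 1 (e, d)) 1) := by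
      rw [map_mul]
      exact hZ.symm.trans (h1.trans ((congrArg (VB.mono (p • oX (-1) 1 (e, d)) * ·) hZ').trans
        (mul_comm _ _)))
    have h4 := IsFractionRing.injective (LR k) (LF k) h3
    have h5 : g - p • oX (-1) 1 (e, d) ∈ Z'.coeff.support := by
      rw [Finsupp.mem_support_iff] at hg ⊢
      intro h6
      apply hg
      rw [h4, AddMonoidAlgebra.coeff_mul_single_eq_coeff_mul (x := Z') (r := (1 : k))
        (m := p • oX (-1) 1 (e, d)) (m₁ := g) (g - p • oX (-1) 1 (e, d))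
        (fun a _ ↦ eq_sub_iff_add_eq.symm), h6, zero_mul]
    obtain ⟨l, m, hd, e⟩ := hs' _ h5
    exact CX_of hd e
  refine ⟨Z, hZ, fun g hg ↦ ?_⟩
  have a1 := key false false g hg
  have a2 := key true false g hg
  have a3 := key false true g hg
  obtain ⟨g1, g2, g3, g4⟩ := g
  simp [oX, CX] at a1 a2 a3
  simp only
  omega

theorem E_semistable [Infinite k] : ¬ (E (k := k)).IsUnstable (TXto k MX) := by
  have hw : ∀ i j, (tr 1 1 i j * (tr 2 0 i j)⁻¹ : (Sec (TX k MX) (UX i ⊓ UX j))ˣ) =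
      tr (-1) 1 i j := by
    intro i j
    rw [mul_inv_eq_iff_eq_mul, tr, tr, tr, chiU_mul]
    apply chiU_congr
    simp only [oX, Prod.mk_sub_mk, Prod.mk_add_mk, Prod.mk.injEq]
    refine ⟨by ring, by ring, by ring, by ring⟩
  have hgen : ∀ i j : Bool × Bool, tgen k MX ∈ UX i ⊓ UX j := fun i j ↦ ⟨UX_gen i, UX_gen j⟩
  have hh : ∀ (p : ℤ) (h : ∀ i : Bool × Bool, Sec (TX k MX) (UX i)),
      (∀ i j, res (inf_le_left : UX i ⊓ UX j ≤ UX i) (h i) =
        ((tr (-1) 1 i j ^ p : (Sec (TX k MX) (UX i ⊓ UX j))ˣ) : Sec (TX k MX) (UX i ⊓ UX j)) *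
          res inf_le_right (h j)) →
      ∀ i j, tL _ (UX_gen i) (h i) =
        VB.mono (p • (oX (-1) 1 j - oX (-1) 1 i)) * tL _ (UX_gen j) (h j) := by
    intro p h hs i j
    have := congrArg (tL _ (hgen i j)) (hs i j)
    rw [map_mul, tr_val_zpow, tL_res, tL_res] at this
    exact this
  refine semistable_of (TXto k MX) E (fun i j ↦ tr 1 1 i j) (fun i j ↦ tr 2 0 i j)
    (fun _ _ ↦ rfl) ?_ ?_
  · intro h hs
    have hs' : ∀ i j, res (inf_le_left : UX i ⊓ UX j ≤ UX i) (h i) =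
        ((tr (-1) 1 i j ^ (0 : ℤ) : (Sec (TX k MX) (UX i ⊓ UX j))ˣ) :
          Sec (TX k MX) (UX i ⊓ UX j)) * res inf_le_right (h j) := by
      intro i j
      rw [zpow_zero, Units.val_one]
      exact (hs i j).trans (one_mul _).symm
    have h1 := hh 0 h hs'
    obtain ⟨Z, hZ, hg⟩ := support_aux 0 h h1
    refine ⟨Z.coeff 0, fun i ↦ ?_⟩
    apply tL_injective _ (UX_gen i)
    have h2 := h1 i (false, false)
    rw [zero_smul, mono_zero, one_mul] at h2
    refine h2.trans (hZ.trans ?_)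
    refine Eq.trans ?_ (tL_const _ (UX_gen i) _).symm
    congr 1
    ext g
    rw [AddMonoidAlgebra.coeff_single, Finsupp.single_apply]
    split_ifs with h0
    · rw [h0]
    · by_contra hne
      have := hg g (Finsupp.mem_support_iff.mpr hne)
      apply h0
      obtain ⟨g1, g2, g3, g4⟩ := g
      simp only at this
      refine Prod.ext ?_ (Prod.ext ?_ (Prod.ext ?_ ?_)) <;> simp <;> omega
  · intro p hp h hs i
    have hs' : ∀ i j, res (inf_le_left : UX i ⊓ UX j ≤ UX i) (h i) =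
        ((tr (-1) 1 i j ^ p : (Sec (TX k MX) (UX i ⊓ UX j))ˣ) :
          Sec (TX k MX) (UX i ⊓ UX j)) * res inf_le_right (h j) := by
      intro i j
      rw [← hw]
      exact hs i j
    have h1 := hh p h hs'
    obtain ⟨Z, hZ, hg⟩ := support_aux p h h1
    have hZ0 : Z = 0 := by
      ext g
      by_contra hne
      have := hg g (Finsupp.mem_support_iff.mpr hne)
      omega
    apply tL_injective _ (UX_gen i)
    have h2 := h1 i (false, false)
    rw [hZ, hZ0, map_zero, mul_zero] at h2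
    exact h2.trans (map_zero _).symm

end

end Pool.Agent.Helper72.VB
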