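import Mathlib
import Pool.Agent.Helper72.TorE

open AlgebraicGeometry CategoryTheory Limits TopologicalSpace Opposite HomogeneousLocalization
open AddMonoidAlgebra

universe u

namespace Pool.Agent.Helper72.VB

section

variable {R : Type u} [CommRing R] (l m : Rˣ)

lemma bind_dg0 : MvPolynomial.bind₁ (fun b : Fin 2 ↦ ∑ a : Fin 2,
    MvPolynomial.C ((dg l m : Matrix (Fin 2) (Fin 2) R) a b) * MvPolynomial.X a)
      (MvPolynomial.X 0 : MvPolynomial (Fin 2) R) = MvPolynomial.C (l : R) * MvPolynomial.X 0 := by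
  rw [MvPolynomial.bind₁_X_right, Fin.sum_univ_two]
  simp [dg]

lemma bind_dg1 : MvPolynomial.bind₁ (fun b : Fin 2 ↦ ∑ a : Fin 2,
    MvPolynomial.C ((dg l m : Matrix (Fin 2) (Fin 2) R) a b) * MvPolynomial.X a)
      (MvPolynomial.X 1 : MvPolynomial (Fin 2) R) = MvPolynomial.C (m : R) * MvPolynomial.X 1 := by
  rw [MvPolynomial.bind₁_X_right, Fin.sum_univ_two]
  simp [dg]

lemma bind_dg (c : R) (s t : ℕ) : MvPolynomial.bind₁ (fun b : Fin 2 ↦ ∑ a : Fin 2,
    MvPolynomial.C ((dg l m : Matrix (Fin 2) (Fin 2) R) a b) * MvPolynomial.X a)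
      (MvPolynomial.C c * (MvPolynomial.X 0 ^ s * MvPolynomial.X 1 ^ t)) =
    MvPolynomial.C (c * ((l : R) ^ s * (m : R) ^ t)) *
      (MvPolynomial.X 0 ^ s * MvPolynomial.X 1 ^ t) := by
  rw [map_mul, map_mul, map_pow, map_pow, bind_dg0, bind_dg1, MvPolynomial.bind₁_C_right]
  simp only [map_mul, map_pow, mul_pow]
  ring

end

section

variable {k : Type u} [Field k]

/-- index set of a family of sections of the symmetric powers -/
abbrev Idx (n : ℕ) := Fin (n / 2 + 1) × Fin (n + 1) × Fin (n / 2 + 1)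

/-- exponents of the sections in the chart `i` -/
def gI (n : ℕ) (l : Idx n) (i : Bool × Bool) : Gp :=
  ((((l.2.1 : ℕ) : ℤ), ((l.2.2 : ℕ) : ℤ), (0 : ℤ), (0 : ℤ)) : Gp) -
    oX (2 * n - (n - l.1 : ℕ)) (n - l.1 : ℕ) i

lemma gI_mem (n : ℕ) (l : Idx n) (i : Bool × Bool) : gI n l i ∈ CX i.1 i.2 := by
  obtain ⟨⟨α, hα⟩, ⟨β, hβ⟩, ⟨γ, hγ⟩⟩ := l
  obtain ⟨e, d⟩ := i
  simp only [gI, oX, Prod.mk_sub_mk, mem_CX]
  have h1 : α ≤ n / 2 := by omega
  have h2 : β ≤ n := by omega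
  have h3 : γ ≤ n / 2 := by omega
  refine ⟨by simp, by simp, ?_, ?_⟩
  · cases e <;> simp <;> omega
  · cases d <;> simp <;> omega

lemma regOn_UX {i : Bool × Bool} {g : Gp} (hg : g ∈ CX i.1 i.2) : RegOn (UX (k := k) i) g :=
  regOn_CX hg

/-- a family of sections of the symmetric powers -/
noncomputable def secI (n : ℕ) (l : Idx n) (i : Bool × Bool) :
    MvPolynomial (Fin 2) (Sec (TX k MX) (UX i)) :=
  MvPolynomial.C (chi (UX i) (gI n l i) (regOn_UX (gI_mem n l i))) *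
    (MvPolynomial.X 0 ^ (n - l.1 : ℕ) * MvPolynomial.X 1 ^ (l.1 : ℕ))

lemma chi_pow {M : AddSubmonoid Gn} [TPt M] {V : (TX k M).Opens} {g : Gp} (hg : RegOn V g)
    (n : ℕ) (hn : RegOn V (n • g)) : chi V g hg ^ n = chi V (n • g) hn := by
  apply tsec_ext
  intro hV
  rw [map_pow, tL_chi, tL_chi]
  have := mono_zpow (k := k) g n
  simpa using this

lemma secI_isSymSection (n : ℕ) (l : Idx n) : (E (k := k)).IsSymSection n (secI n l) := by
  have hl : n - (l.1 : ℕ) + (l.1 : ℕ) = n := by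
    have := l.1.2
    omega
  constructor
  · intro i
    have h1 := ((MvPolynomial.isHomogeneous_C (Fin 2)
      (chi (UX i) (gI n l i) (regOn_UX (k := k) (gI_mem n l i)))).mul
      (((MvPolynomial.isHomogeneous_X (Sec (TX k MX) (UX i)) (0 : Fin 2)).pow (n - l.1 : ℕ)).mul
        ((MvPolynomial.isHomogeneous_X (Sec (TX k MX) (UX i)) (1 : Fin 2)).pow (l.1 : ℕ))))
    have h2 : 0 + (1 * (n - (l.1 : ℕ)) + 1 * (l.1 : ℕ)) = n := by omega
    rw [h2] at h1
    exact h1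
  · intro i j
    have e2 : MvPolynomial.map (res (inf_le_left : UX i ⊓ UX j ≤ UX i)) (secI (k := k) n l i) =
        MvPolynomial.C (chi _ (gI n l i) ((regOn_UX (gI_mem n l i)).mono inf_le_left)) *
          (MvPolynomial.X 0 ^ (n - l.1 : ℕ) * MvPolynomial.X 1 ^ (l.1 : ℕ)) := by
      rw [secI, map_mul, map_mul, map_pow, map_pow, MvPolynomial.map_C, MvPolynomial.map_X,
        MvPolynomial.map_X, res_chi]
    have e3 : MvPolynomial.map (res (inf_le_right : UX i ⊓ UX j ≤ UX j)) (secI (k := k) n l j) =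
        MvPolynomial.C (chi _ (gI n l j) ((regOn_UX (gI_mem n l j)).mono inf_le_right)) *
          (MvPolynomial.X 0 ^ (n - l.1 : ℕ) * MvPolynomial.X 1 ^ (l.1 : ℕ)) := by
      rw [secI, map_mul, map_mul, map_pow, map_pow, MvPolynomial.map_C, MvPolynomial.map_X,
        MvPolynomial.map_X, res_chi]
    refine e2.trans (Eq.trans ?_ (congrArg _ e3).symm)
    refine Eq.trans ?_ (bind_dg (tr 1 1 i j) (tr 2 0 i j) _ _ _).symm
    congr 2
    apply tsec_ext
    intro hV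
    rw [map_mul, map_mul, map_pow, map_pow, tL_chi, tL_chi]
    have h0 : ∀ a b, tL _ hV ((tr a b i j : (Sec (TX k MX) (UX i ⊓ UX j))ˣ) :
        Sec (TX k MX) (UX i ⊓ UX j)) = VB.mono (oX a b j - oX a b i) := fun a b ↦
      tL_chi (regOn_oX a b i j) hV
    have h1 : ∀ (g : Gp) (n : ℕ), (VB.mono g : LF k) ^ n = VB.mono (n • g) := by
      intro g n
      have := mono_zpow (k := k) g n
      simpa using this
    rw [h0, h0, h1, h1, ← mono_add, ← mono_add]
    congr 1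
    simp only [gI, oX, Prod.mk_sub_mk, Prod.smul_mk, Prod.mk_add_mk, nsmul_eq_mul, Prod.mk.injEq]
    have hl' : (((n - l.1 : ℕ) : ℤ)) = n - (l.1 : ℕ) := by
      have := l.1.2
      omega
    rw [hl']
    refine ⟨by ring, by ring, by ring, by ring⟩

lemma secI_independent (n : ℕ) (c : Idx n → k)
    (h : ∑ l, MvPolynomial.C (const (TXto k MX) (UX (false, false)) (c l)) *
      secI n l (false, false) = 0) : c = 0 := by
  let ev : MvPolynomial (Fin 2) (Sec (TX k MX) (UX (false, false))) →+* LF k :=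
    MvPolynomial.eval₂Hom (tL _ (UX_gen (false, false))) ![VB.mono (0, 0, 1, 0), 1]
  let ex : Idx n → Gp := fun l ↦ (((l.2.1 : ℕ) : ℤ), ((l.2.2 : ℕ) : ℤ), ((n - l.1 : ℕ) : ℤ), (0 : ℤ))
  have hex : Function.Injective ex := by
    rintro ⟨⟨α, hα⟩, ⟨β, hβ⟩, ⟨γ, hγ⟩⟩ ⟨⟨α', hα'⟩, ⟨β', hβ'⟩, ⟨γ', hγ'⟩⟩ h
    simp only [ex, Prod.mk.injEq] at h ⊢
    simp only [Fin.mk.injEq]
    omega
  have h1 := congrArg ev h
  rw [map_sum, map_zero] at h1
  have h2 : ∀ l, ev (MvPolynomial.C (const (TXto k MX) (UX (false, false)) (c l)) *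
      secI n l (false, false)) = algebraMap (LR k) (LF k) (single (ex l) (c l)) := by
    intro l
    simp only [ev, secI, map_mul, map_pow, MvPolynomial.coe_eval₂Hom, MvPolynomial.eval₂_C,
      MvPolynomial.eval₂_X]
    change _ * (_ * (VB.mono (0, 0, 1, 0) ^ _ * 1 ^ _)) = _
    rw [one_pow, mul_one, tL_const, tL_chi]
    have h3 : (VB.mono (0, 0, 1, 0) : LF k) ^ (n - l.1 : ℕ) =
        VB.mono ((n - l.1 : ℕ) • (0, 0, 1, 0)) := by
      have := mono_zpow (k := k) (0, 0, 1, 0) ((n - l.1 : ℕ) : ℤ)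
      simpa using this
    rw [h3, ← mono_add, VB.mono, ← map_mul, single_mul_single, zero_add, mul_one]
    congr 2
    simp [gI, oX, ex]
  rw [Finset.sum_congr rfl fun l _ ↦ h2 l, ← map_sum,
    map_eq_zero_iff _ (IsFractionRing.injective (LR k) (LF k))] at h1
  funext l
  have h3 := congrArg (fun Z : LR k ↦ Z.coeff (ex l)) h1
  simp only [AddMonoidAlgebra.coeff_sum, Finsupp.finsetSum_apply, AddMonoidAlgebra.coeff_single,
    AddMonoidAlgebra.coeff_zero, Finsupp.coe_zero, Pi.zero_apply] at h3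
  rw [Finset.sum_eq_single l] at h3
  · simpa using h3
  · intro l' _ hl'
    rw [Finsupp.single_eq_of_ne]
    exact fun h ↦ hl' (hex h.symm)
  · intro hl
    exact absurd (Finset.mem_univ _) hl

theorem E_big : (E (k := k)).IsBig (TXto k MX) := by
  refine ⟨2, by rw [dim_X]; rfl, 1 / 4, 1, 0, by norm_num, one_pos, fun n _ _ ↦ ?_⟩
  refine ⟨Fintype.card (Idx n), ?_, ?_⟩
  · have h1 : Fintype.card (Idx n) = (n / 2 + 1) * ((n + 1) * (n / 2 + 1)) := by
      simp [Idx]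
    rw [h1]
    have h2 : (n : ℝ) ≤ 2 * ((n / 2 : ℕ) + 1) := by
      have : n ≤ 2 * (n / 2 + 1) := by omega
      exact_mod_cast this
    have h3 : (2 : ℕ) + 2 - 1 = 3 := rfl
    rw [h3]
    push_cast
    set m : ℝ := ((n / 2 : ℕ) : ℝ) with hm
    have hn : (0 : ℝ) ≤ n := Nat.cast_nonneg n
    have hm0 : (0 : ℝ) ≤ m := Nat.cast_nonneg _
    have h4 : (n : ℝ) ^ 2 ≤ (2 * (m + 1)) ^ 2 := pow_le_pow_left₀ hn h2 2
    have h5 : (n : ℝ) ^ 3 = n ^ 2 * n := by ring
    rw [h5]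
    have h6 : (n : ℝ) ^ 2 * n ≤ (2 * (m + 1)) ^ 2 * (n + 1) :=
      mul_le_mul h4 (by linarith) hn (by positivity)
    nlinarith
  · let eqv : Fin (Fintype.card (Idx n)) ≃ Idx n := (Fintype.equivFin (Idx n)).symm
    refine ⟨fun l ↦ secI n (eqv l), fun l ↦ secI_isSymSection n _, fun c hc ↦ ?_⟩
    have h1 := secI_independent (k := k) n (fun l ↦ c (eqv.symm l)) (by
      refine Eq.trans ?_ (hc (false, false))
      rw [← Equiv.sum_comp eqv]
      refine Finset.sum_congr rfl fun l _ ↦ ?_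
      rw [Equiv.symm_apply_apply]
      rfl)
    funext l
    have := congrFun h1 (eqv l)
    simpa using this

end

end Pool.Agent.Helper72.VB
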