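import Mathlib
import Pool.Agent.Helper72.TorBig

open AlgebraicGeometry CategoryTheory Limits TopologicalSpace Opposite

universe u v

namespace Pool.Agent.Helper72.VB

section

variable {P X : Scheme.{u}}

/-- a ring homomorphism between rings of functions, as a morphism of affine schemes -/
noncomputable def spc {U : X.Opens} {D : P.Opens} (θ : Sec X U →+* Sec P D) :
    Spec Γ(P, D) ⟶ Spec Γ(X, U) :=
  Spec.map (CommRingCat.ofHom θ : Γ(X, U) ⟶ Γ(P, D))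

lemma spc_comp {U U' : X.Opens} {D D' : P.Opens} (hU : U' ≤ U) (hD : D' ≤ D)
    (θ : Sec X U →+* Sec P D) (θ' : Sec X U' →+* Sec P D')
    (h : ∀ a, θ' (res hU a) = res hD (θ a)) :
    Spec.map (P.presheaf.map (homOfLE hD).op) ≫ spc θ =
      spc θ' ≫ Spec.map (X.presheaf.map (homOfLE hU).op) := by
  rw [spc, spc, ← Spec.map_comp, ← Spec.map_comp]
  congr 1
  ext a
  exact (h a).symm

lemma restrict_chart {U U' : X.Opens} {D D' : P.Opens} (hU : U' ≤ U) (hD : D' ≤ D)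
    (aU : IsAffineOpen U) (aU' : IsAffineOpen U')
    (θ : Sec X U →+* Sec P D) (θ' : Sec X U' →+* Sec P D')
    (h : ∀ a, θ' (res hU a) = res hD (θ a)) :
    P.homOfLE hD ≫ D.toSpecΓ ≫ spc θ ≫ aU.fromSpec = D'.toSpecΓ ≫ spc θ' ≫ aU'.fromSpec := by
  rw [← Scheme.Opens.toSpecΓ_SpecMap_presheaf_map_assoc, ← Category.assoc (Spec.map _) (spc θ),
    spc_comp hU hD θ θ' h, Category.assoc, aU.map_fromSpec aU']

theorem exists_glue {s : Type v} (D : s → P.Opens) (hD : ⨆ i, D i = ⊤)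
    (U : s → X.Opens) (hU : ∀ i, IsAffineOpen (U i)) (hUU : ∀ i j, IsAffineOpen (U i ⊓ U j))
    (θ : ∀ i, Sec X (U i) →+* Sec P (D i))
    (θ' : ∀ i j, Sec X (U i ⊓ U j) →+* Sec P (D i ⊓ D j))
    (h : ∀ i j a, θ' i j (res inf_le_left a) = res inf_le_left (θ i a))
    (h' : ∀ i j a, θ' i j (res inf_le_right a) = res inf_le_right (θ j a)) :
    ∃ π : P ⟶ X, ∀ i, (D i).ι ≫ π = (D i).toSpecΓ ≫ spc (θ i) ≫ (hU i).fromSpec := by
  let g : ∀ i : s, (D i).toScheme ⟶ X := fun i ↦ (D i).toSpecΓ ≫ spc (θ i) ≫ (hU i).fromSpec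
  have hf : ∀ x y : s, pullback.fst (D x).ι (D y).ι ≫ g x = pullback.snd (D x).ι (D y).ι ≫ g y := by
    intro x y
    have hp := isPullback_opens_inf (D x) (D y)
    rw [← hp.isoPullback_inv_fst, ← hp.isoPullback_inv_snd, Category.assoc, Category.assoc,
      restrict_chart (inf_le_left : U x ⊓ U y ≤ U x) (inf_le_left : D x ⊓ D y ≤ D x) (hU x)
        (hUU x y) (θ x) (θ' x y) (h x y),
      restrict_chart (inf_le_right : U x ⊓ U y ≤ U y) (inf_le_right : D x ⊓ D y ≤ D y) (hU y)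
        (hUU x y) (θ y) (θ' x y) (h' x y)]
  exact ⟨(P.openCoverOfIsOpenCover D hD).glueMorphisms g hf,
    fun i ↦ (P.openCoverOfIsOpenCover D hD).ι_glueMorphisms g hf i⟩

variable {U : X.Opens} {D : P.Opens} {θ : Sec X U →+* Sec P D} {π : P ⟶ X}
  {hU : IsAffineOpen U} (h : D.ι ≫ π = D.toSpecΓ ≫ spc θ ≫ hU.fromSpec)

include h in
lemma chart_le : D ≤ π ⁻¹ᵁ U := by
  intro x hx
  have h1 : π x = (D.toSpecΓ ≫ spc θ ≫ hU.fromSpec) ⟨x, hx⟩ := by
    rw [← h]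
    rfl
  change π x ∈ U
  rw [h1]
  have h2 : hU.fromSpec ((D.toSpecΓ ≫ spc θ) ⟨x, hx⟩) ∈ Set.range hU.fromSpec := ⟨_, rfl⟩
  rw [hU.range_fromSpec] at h2
  exact h2

include h in
lemma res_pull (a : Sec X U) : res (chart_le h) (pull π U a) = θ a := by
  have h1 : π.appLE U D (chart_le h) = (CommRingCat.ofHom θ : Γ(X, U) ⟶ Γ(P, D)) := by
    apply toSpecΓ_cancel
    rw [Scheme.Opens.toSpecΓ_SpecMap_appLE]
    rw [← cancel_mono hU.fromSpec, Category.assoc, hU.toSpecΓ_fromSpec, Scheme.Hom.resLE_comp_ι, h]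
    rfl
  exact congrArg (fun g : Γ(X, U) ⟶ Γ(P, D) ↦ g a) h1

include h in
lemma fromSpec_comp (hD : IsAffineOpen D) : hD.fromSpec ≫ π = spc θ ≫ hU.fromSpec := by
  rw [IsAffineOpen.fromSpec, Category.assoc, h, hD.isoSpec_inv_toSpecΓ_assoc]

include h in
/-- a section of `θ` gives points in the fibres -/
lemma exists_point (hD : IsAffineOpen D) (σ : Sec P D →+* Sec X U) (hσ : ∀ a, σ (θ a) = a)
    (x : X) (hx : x ∈ U) :
    ∃ y : P, y ∈ D ∧ π y = x ∧ ∀ t : Sec P D, σ t = 0 → y ∉ nz t := by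
  have h0 : x ∈ Set.range hU.fromSpec := by
    rw [hU.range_fromSpec]
    exact hx
  obtain ⟨x', rfl⟩ := h0
  let τ : Spec Γ(X, U) ⟶ Spec Γ(P, D) := Spec.map (CommRingCat.ofHom σ : Γ(P, D) ⟶ Γ(X, U))
  have hτ : τ ≫ spc θ = 𝟙 _ := by
    rw [spc, ← Spec.map_comp, ← Spec.map_id]
    congr 1
    ext a
    exact hσ a
  refine ⟨hD.fromSpec (τ x'), ?_, ?_, ?_⟩
  · have h2 : hD.fromSpec (τ x') ∈ Set.range hD.fromSpec := ⟨_, rfl⟩
    rw [hD.range_fromSpec] at h2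
    exact h2
  · have h3 : π (hD.fromSpec (τ x')) = (τ ≫ hD.fromSpec ≫ π) x' := rfl
    rw [h3, fromSpec_comp h hD, ← Category.assoc, hτ, Category.id_comp]
  · intro t ht hy
    have h4 : τ x' ∈ hD.fromSpec ⁻¹ᵁ (P.basicOpen (show Γ(P, D) from t)) := hy
    rw [hD.fromSpec_preimage_basicOpen] at h4
    have h5 : σ t ∉ (show PrimeSpectrum Γ(X, U) from x').asIdeal := h4
    rw [ht] at h5
    exact h5 (Ideal.zero_mem _)

end

end Pool.Agent.Helper72.VB
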