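import Mathlib
import Pool.Agent.Helper72.VBGlue

open AlgebraicGeometry CategoryTheory Limits TopologicalSpace Opposite HomogeneousLocalization
open AddMonoidAlgebra

universe u

namespace Pool.Agent.Helper72.VB

section

variable {k : Type u} [Field k]

/-- the charts of `P` -/
noncomputable def DP (w : Bool × Bool × Bool) : (TX k MP).Opens := tO k MP (wP w.1 w.2.1 w.2.2)

/-- the chart of `X` below a chart of `P` -/
def cw (w : Bool × Bool × Bool) : Bool × Bool := (w.1, w.2.1)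

lemma DP_gen (w : Bool × Bool × Bool) : tgen k MP ∈ DP (k := k) w := tgen_mem_tO _

lemma DP_gen2 (w w' : Bool × Bool × Bool) : tgen k MP ∈ DP (k := k) w ⊓ DP w' :=
  ⟨DP_gen w, DP_gen w'⟩

lemma UX_gen2 (i j : Bool × Bool) : tgen k MX ∈ UX (k := k) i ⊓ UX j := ⟨UX_gen i, UX_gen j⟩

lemma isAffineOpen_UX (i : Bool × Bool) : IsAffineOpen (UX (k := k) i) :=
  isAffineOpen_tO k MX (by rw [tdeg_vX]; exact one_pos)

lemma isAffineOpen_DP (w : Bool × Bool × Bool) : IsAffineOpen (DP (k := k) w) :=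
  isAffineOpen_tO k MP (by rw [tdeg_wP]; exact one_pos)

lemma isAffineOpen_UX_inf (i j : Bool × Bool) : IsAffineOpen (UX (k := k) i ⊓ UX j) := by
  rw [UX, UX, ← tO_add]
  exact isAffineOpen_tO k MX (by rw [map_add, tdeg_vX]; exact Nat.succ_pos _)

lemma DP_cover : ⨆ w, DP (k := k) w = ⊤ := by
  rw [eq_top_iff]
  intro x _
  obtain ⟨w, hx⟩ := exists_wP k x
  exact Opens.mem_iSup.mpr ⟨w, hx⟩

lemma CX_subset_CP {e d : Bool} (t : Bool) {g : Gp} (hg : g ∈ CX e d) : g ∈ CP e d t := by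
  obtain ⟨p, q, j, l⟩ := g
  rw [mem_CX] at hg
  obtain ⟨rfl, rfl, h1, h2⟩ := hg
  rw [mem_CP]
  simpa using ⟨h1, h2⟩

lemma mem_reg_DP {w : Bool × Bool × Bool} {y : TX k MP} (hy : y ∈ DP w) {g : Gp}
    (hg : g ∈ CP w.1 w.2.1 w.2.2) : g ∈ reg k MP y := mem_reg_of_CP k hy hg

/-- sections over a chart of `X` -/
lemma support_UX (i : Bool × Bool) (s : Sec (TX k MX) (UX i)) :
    ∃ Z : LR k, tL _ (UX_gen i) s = algebraMap (LR k) (LF k) Z ∧
      ∀ g ∈ Z.coeff.support, g ∈ CX i.1 i.2 := by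
  obtain ⟨Z, hZ, hs⟩ := exists_support (v := vX i.1 i.2) (by rw [tdeg_vX]; exact one_pos)
    (tgen_mem_tO _) s
  refine ⟨Z, hZ, fun g hg ↦ ?_⟩
  obtain ⟨l, m, hd, e⟩ := hs g hg
  exact CX_of hd e

/-- sections over a chart of `P` -/
lemma support_DP (w : Bool × Bool × Bool) (s : Sec (TX k MP) (DP w)) :
    ∃ Z : LR k, tL _ (DP_gen w) s = algebraMap (LR k) (LF k) Z ∧
      ∀ g ∈ Z.coeff.support, g ∈ CP w.1 w.2.1 w.2.2 := by
  obtain ⟨Z, hZ, hs⟩ := exists_support (v := wP w.1 w.2.1 w.2.2) (by rw [tdeg_wP]; exact one_pos)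
    (tgen_mem_tO _) s
  refine ⟨Z, hZ, fun g hg ↦ ?_⟩
  obtain ⟨l, m, hd, e⟩ := hs g hg
  exact CP_of hd e

/-- sections over the intersection of two charts of `X` -/
lemma support_inf (i j : Bool × Bool) (hV : tgen k MX ∈ UX i ⊓ UX j)
    (s : Sec (TX k MX) (UX i ⊓ UX j)) :
    ∃ Z : LR k, tL _ hV s = algebraMap (LR k) (LF k) Z ∧
      ∀ g ∈ Z.coeff.support, ∃ g1 ∈ CX i.1 i.2, ∃ g2 ∈ CX j.1 j.2, g = g1 + g2 := by
  have key : ∀ (V : (TX k MX).Opens) (_ : V = tO k MX (vX i.1 i.2 + vX j.1 j.2))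
      (hV : tgen k MX ∈ V) (s : Sec (TX k MX) V),
      ∃ Z : LR k, tL _ hV s = algebraMap (LR k) (LF k) Z ∧
        ∀ g ∈ Z.coeff.support, ∃ g1 ∈ CX i.1 i.2, ∃ g2 ∈ CX j.1 j.2, g = g1 + g2 := by
    rintro V rfl hV s
    obtain ⟨Z, hZ, hs⟩ := exists_support (v := vX i.1 i.2 + vX j.1 j.2)
      (by rw [map_add, tdeg_vX]; exact Nat.succ_pos _) hV s
    refine ⟨Z, hZ, fun g hg ↦ ?_⟩
    obtain ⟨l, m, hd, h⟩ := hs g hg
    obtain ⟨p, q, j', l'⟩ := g
    obtain ⟨⟨p', q', j'', d'⟩, hm⟩ := m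
    rw [mem_MX] at hm
    obtain rfl : d' = l * (1 + 1) := hd
    rw [map_add, tinc_vX, tinc_vX] at h
    obtain ⟨e, d⟩ := i
    obtain ⟨e', f'⟩ := j
    simp only [Prod.mk_add_mk, Prod.smul_mk, tinc, AddMonoidHom.coe_mk, ZeroHom.coe_mk,
      Prod.mk.injEq, nsmul_eq_mul, Nat.cast_mul, Nat.cast_add, Nat.cast_one] at h
    obtain ⟨hj, h1, h2, h3, h4⟩ := hm
    obtain ⟨k1, k2, k3, k4⟩ := h
    push_cast at h2 h4
    obtain ⟨a, ha⟩ : ∃ a, a = min p' l := ⟨_, rfl⟩
    obtain ⟨b, hb⟩ : ∃ b, b = min q' l := ⟨_, rfl⟩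
    refine ⟨(a - l * z e, b - l * z d, 0, 0), ?_, (p' - a - l * z e', q' - b - l * z f', 0, 0),
      ?_, ?_⟩
    · rw [mem_CX]
      cases e <;> cases d <;> simp <;> omega
    · rw [mem_CX]
      cases e' <;> cases f' <;> simp <;> omega
    · simp only [Prod.mk_add_mk, Prod.mk.injEq]
      refine ⟨by linarith, by linarith, by linarith, by linarith⟩
  exact key _ (by rw [tO_add]; rfl) hV s

/-- a homomorphism from functions on an open subset of `X` to functions on an open subset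
of `P` -/
theorem exists_theta {V : (TX k MX).Opens} (hV : tgen k MX ∈ V) {W : (TX k MP).Opens}
    (hW : tgen k MP ∈ W) (h : ∀ s : Sec (TX k MX) V, ∀ y ∈ W, tL V hV s ∈
      (toL (tG k MP) (tψ k MP) (tψ_injective k MP) y).range) :
    ∃ θ : Sec (TX k MX) V →+* Sec (TX k MP) W, ∀ s, tL W hW (θ s) = tL V hV s := by
  have h1 : ∀ s, ∃ t : Sec (TX k MP) W, tL W hW t = tL V hV s := by
    intro s
    obtain ⟨t, ht⟩ := exists_tL_eq W (tL V hV s) (h s)
    exact ⟨t, ht hW⟩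
  choose θ hθ using h1
  refine ⟨{ toFun := θ
            map_one' := tL_injective W hW ?_
            map_mul' := fun a b ↦ tL_injective W hW ?_
            map_zero' := tL_injective W hW ?_
            map_add' := fun a b ↦ tL_injective W hW ?_ }, hθ⟩
  · rw [hθ, map_one, map_one]
  · rw [map_mul, hθ, hθ, hθ, map_mul]
  · rw [hθ, map_zero, map_zero]
  · rw [map_add, hθ, hθ, hθ, map_add]

lemma exists_thetaD (w : Bool × Bool × Bool) :
    ∃ θ : Sec (TX k MX) (UX (cw w)) →+* Sec (TX k MP) (DP w),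
      ∀ s, tL _ (DP_gen w) (θ s) = tL _ (UX_gen (cw w)) s := by
  refine exists_theta (UX_gen (cw w)) (DP_gen w) fun s y hy ↦ ?_
  obtain ⟨Z, hZ, hs⟩ := support_UX (cw w) s
  rw [hZ]
  exact mem_range_of_support k MP y Z fun g hg ↦ mem_reg_DP hy (CX_subset_CP _ (hs g hg))

/-- functions on a chart of `X`, as functions on a chart of `P` -/
noncomputable def thetaD (w : Bool × Bool × Bool) :
    Sec (TX k MX) (UX (cw w)) →+* Sec (TX k MP) (DP w) := (exists_thetaD w).choose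

lemma tL_thetaD (w : Bool × Bool × Bool) (s : Sec (TX k MX) (UX (cw w))) :
    tL _ (DP_gen w) (thetaD w s) = tL _ (UX_gen (cw w)) s := (exists_thetaD w).choose_spec s

lemma exists_thetaI (w w' : Bool × Bool × Bool) :
    ∃ θ : Sec (TX k MX) (UX (cw w) ⊓ UX (cw w')) →+* Sec (TX k MP) (DP w ⊓ DP w'),
      ∀ s, tL _ (DP_gen2 w w') (θ s) = tL _ (UX_gen2 (cw w) (cw w')) s := by
  refine exists_theta (UX_gen2 (cw w) (cw w')) (DP_gen2 w w') fun s y hy ↦ ?_
  obtain ⟨Z, hZ, hs⟩ := support_inf (cw w) (cw w') (UX_gen2 (cw w) (cw w')) s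
  rw [hZ]
  refine mem_range_of_support k MP y Z fun g hg ↦ ?_
  obtain ⟨g1, h1, g2, h2, rfl⟩ := hs g hg
  exact add_mem (mem_reg_DP hy.1 (CX_subset_CP _ h1)) (mem_reg_DP hy.2 (CX_subset_CP _ h2))

theorem exists_piP : ∃ π : TX k MP ⟶ TX k MX, ∀ w : Bool × Bool × Bool,
    (DP w).ι ≫ π = (DP w).toSpecΓ ≫ spc (thetaD w) ≫ (isAffineOpen_UX (cw w)).fromSpec := by
  choose θ' hθ' using exists_thetaI (k := k)
  refine exists_glue (s := Bool × Bool × Bool) DP DP_cover (fun w ↦ UX (cw w))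
    (fun w ↦ isAffineOpen_UX (cw w)) (fun w w' ↦ isAffineOpen_UX_inf _ _) thetaD θ' ?_ ?_
  · intro i j a
    apply tL_injective _ (DP_gen2 i j)
    rw [hθ', tL_res, tL_res, tL_thetaD]
  · intro i j a
    apply tL_injective _ (DP_gen2 i j)
    rw [hθ', tL_res, tL_res, tL_thetaD]

/-- the projection `P → X` -/
noncomputable def piP : TX k MP ⟶ TX k MX := exists_piP.choose

lemma piP_chart (w : Bool × Bool × Bool) : (DP (k := k) w).ι ≫ piP =
    (DP w).toSpecΓ ≫ spc (thetaD w) ≫ (isAffineOpen_UX (cw w)).fromSpec :=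
  exists_piP.choose_spec w

lemma DP_le (w : Bool × Bool × Bool) : DP (k := k) w ≤ piP ⁻¹ᵁ (UX (cw w)) :=
  chart_le (piP_chart w)

lemma res_pull_piP (w : Bool × Bool × Bool) (a : Sec (TX k MX) (UX (cw w))) :
    res (DP_le w) (pull piP (UX (cw w)) a) = thetaD w a :=
  res_pull (piP_chart w) a

lemma pull_res {P X : Scheme.{u}} (π : P ⟶ X) {V W : X.Opens} (h : V ≤ W) (a : Sec X W) :
    pull π V (res h a) = res (V := π ⁻¹ᵁ V) (W := π ⁻¹ᵁ W) (fun _ hx ↦ h hx) (pull π W a) :=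
  congrArg (fun g : Γ(X, W) ⟶ Γ(P, π ⁻¹ᵁ V) ↦ g a) (π.naturality (homOfLE h).op)

lemma mem_nz_pull {P X : Scheme.{u}} (π : P ⟶ X) {V : X.Opens} (a : Sec X V) (y : P) :
    y ∈ nz (pull π V a) ↔ π y ∈ nz a := by
  have h := Scheme.preimage_basicOpen π (show Γ(X, V) from a)
  exact (iff_of_eq (congrArg (fun W : P.Opens ↦ y ∈ W) h)).symm

/-- the generic point of `P` lies over the charts of `X` -/
lemma gen_mem_pre (i : Bool × Bool) : tgen k MP ∈ piP (k := k) ⁻¹ᵁ (UX i) :=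
  DP_le (i.1, i.2, false) (DP_gen _)

lemma gen_mem_pre2 (i j : Bool × Bool) : tgen k MP ∈ piP (k := k) ⁻¹ᵁ (UX i ⊓ UX j) :=
  ⟨gen_mem_pre i, gen_mem_pre j⟩

lemma tL_pull (i : Bool × Bool) (a : Sec (TX k MX) (UX i)) :
    tL _ (gen_mem_pre i) (pull piP (UX i) a) = tL _ (UX_gen i) a := by
  have h1 := tL_thetaD (i.1, i.2, false) a
  rw [← res_pull_piP (i.1, i.2, false) a] at h1
  exact h1

/-- the pull-back of a monomial -/
lemma tL_pull_chi (i j : Bool × Bool) {g1 g2 : Gp} (h1 : g1 ∈ CX i.1 i.2) (h2 : g2 ∈ CX j.1 j.2)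
    (h : RegOn (UX (k := k) i ⊓ UX j) (g1 + g2)) :
    tL _ (gen_mem_pre2 i j) (pull piP (UX i ⊓ UX j) (chi _ (g1 + g2) h)) = VB.mono (g1 + g2) := by
  have e : chi _ (g1 + g2) h =
      res (inf_le_left : UX i ⊓ UX j ≤ UX i) (chi (UX i) g1 (regOn_UX h1)) *
        res (inf_le_right : UX i ⊓ UX j ≤ UX j) (chi (UX j) g2 (regOn_UX h2)) := by
    rw [res_chi, res_chi, chi_mul]
  rw [e, map_mul, pull_res, pull_res, map_mul, mono_add]
  congr 1
  · rw [tL_res, tL_pull, tL_chi]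
  · rw [tL_res, tL_pull, tL_chi]

lemma comb_mem (e d e' d' t : Bool) (S : AddSubmonoid Gp)
    (b1 : ((z e' - z e, 0, 0, 0) : Gp) ∈ S) (b2 : ((0, z d' - z d, 0, 0) : Gp) ∈ S) :
    (((2 - z t) * (z e' - z e), (1 + z t) * (z d' - z d), 0, 0) : Gp) ∈ S := by
  cases t
  · have := add_mem (add_mem b1 b1) b2
    convert this using 1
    simp only [Prod.mk_add_mk, z_false, Prod.mk.injEq]
    refine ⟨by ring, by ring, rfl, rfl⟩
  · have := add_mem (add_mem b1 b2) b2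
    convert this using 1
    simp only [Prod.mk_add_mk, z_true, Prod.mk.injEq]
    refine ⟨by ring, by ring, rfl, rfl⟩

/-- the inverse image of a chart of `X` -/
lemma pre_UX (i : Bool × Bool) :
    piP (k := k) ⁻¹ᵁ (UX i) = DP (i.1, i.2, false) ⊔ DP (i.1, i.2, true) := by
  apply le_antisymm
  · intro y hy
    obtain ⟨⟨e', d', t⟩, hw⟩ := exists_wP k y
    obtain ⟨e, d⟩ := i
    have hw' : y ∈ DP (e', d', t) := hw
    have h1 : piP y ∈ UX (e', d') := DP_le (e', d', t) hw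
    have h2 : piP y ∈ UX (e, d) := hy
    let g0 : Gp := (z e - z e', z d - z d', 0, 0)
    have hg0 : g0 ∈ CX e' d' := by
      rw [mem_CX]
      cases e <;> cases e' <;> cases d <;> cases d' <;> simp
    have hg1 : -g0 ∈ CX e d := by
      change (-(z e - z e'), -(z d - z d'), -0, -0) ∈ CX e d
      rw [mem_CX]
      cases e <;> cases e' <;> cases d <;> cases d' <;> simp
    have hr : RegOn (UX (k := k) (e', d')) g0 := regOn_CX hg0
    have h2' : -g0 ∈ reg k MX (piP y) := mem_reg_of_CX k h2 hg1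
    have h3 : piP y ∈ nz (chi (UX (k := k) (e', d')) g0 hr) := by
      rw [mem_nz_chi hr h1]
      exact h2'
    have h4 : y ∈ nz (pull piP (UX (e', d')) (chi (UX (k := k) (e', d')) g0 hr)) :=
      (mem_nz_pull _ _ _).mpr h3
    rw [mem_nz_iff (gen_mem_pre (e', d')) _ h1, tL_pull, tL_chi] at h4
    have h5 : -g0 ∈ reg k MP y := by
      rw [mem_reg]
      have : (VB.mono (-g0) : LF k) = (VB.mono g0)⁻¹ := by
        apply eq_inv_of_mul_eq_one_left
        rw [← mono_add, neg_add_cancel, mono_zero]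
      rw [this]
      exact h4.2
    have a1 : ((z e - z e', 0, 0, 0) : Gp) ∈ reg k MP y := by
      apply mem_reg_DP hw'
      rw [mem_CP]
      cases e <;> cases e' <;> cases d' <;> simp
    have a2 : ((0, z d - z d', 0, 0) : Gp) ∈ reg k MP y := by
      apply mem_reg_DP hw'
      rw [mem_CP]
      cases e' <;> cases d <;> cases d' <;> simp
    have b1 : ((z e' - z e, 0, 0, 0) : Gp) ∈ reg k MP y := by
      have := add_mem h5 a2
      convert this using 1
      simp [g0]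
    have b2 : ((0, z d' - z d, 0, 0) : Gp) ∈ reg k MP y := by
      have := add_mem h5 a1
      convert this using 1
      simp [g0]
    have h6 : y ∈ DP (e, d, t) := by
      rw [DP, mem_tO_iff k MP y hw (l := 1) (by rw [tdeg_wP, tdeg_wP]), tinc_wP, tinc_wP]
      have h7 : -((((2 - z t) * z e, (1 + z t) * z d, z t, 1) : Gp) -
          1 • (((2 - z t) * z e', (1 + z t) * z d', z t, 1) : Gp)) =
          ((2 - z t) * (z e' - z e), (1 + z t) * (z d' - z d), 0, 0) := by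
        rw [one_smul, neg_sub, Prod.mk_sub_mk, Prod.mk_sub_mk, Prod.mk_sub_mk, sub_self, sub_self,
          mul_sub, mul_sub]
      rw [h7]
      exact comb_mem e d e' d' t (reg k MP y) b1 b2
    cases t
    · exact Or.inl h6
    · exact Or.inr h6
  · exact sup_le (DP_le (i.1, i.2, false)) (DP_le (i.1, i.2, true))

end

end Pool.Agent.Helper72.VB
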