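import Mathlib
import Pool.Agent.Helper72.TorPi

open AlgebraicGeometry CategoryTheory Limits TopologicalSpace Opposite HomogeneousLocalization
open AddMonoidAlgebra

universe u

namespace Pool.Agent.Helper72.VB

/-- exponents of the local generators of `𝒪(1)` -/
def oP (w : Bool × Bool × Bool) : Gp :=
  ((2 - z w.2.2) * z w.1, z w.2.2 * z w.2.1, z w.2.2, 0)

/-- exponents of the local generators of the ample sheaf -/
def aP (w : Bool × Bool × Bool) : Gp :=
  ((2 - z w.2.2) * z w.1, (1 + z w.2.2) * z w.2.1, z w.2.2, 0)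

lemma gp_ext {a b : Gp} (h1 : a.1 = b.1) (h2 : a.2.1 = b.2.1) (h3 : a.2.2.1 = b.2.2.1)
    (h4 : a.2.2.2 = b.2.2.2) : a = b :=
  Prod.ext h1 (Prod.ext h2 (Prod.ext h3 h4))

lemma oP_gg (w w' : Bool × Bool × Bool) : oP w' - oP w ∈ CP w.1 w.2.1 w.2.2 := by
  obtain ⟨e, d, t⟩ := w
  obtain ⟨e', d', t'⟩ := w'
  simp only [oP, Prod.mk_sub_mk, mem_CP]
  cases e <;> cases d <;> cases t <;> cases e' <;> cases d' <;> cases t' <;> simp

lemma aP_gg (w w' : Bool × Bool × Bool) : aP w' - aP w ∈ CP w.1 w.2.1 w.2.2 := by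
  obtain ⟨e, d, t⟩ := w
  obtain ⟨e', d', t'⟩ := w'
  simp only [aP, Prod.mk_sub_mk, mem_CP]
  cases e <;> cases d <;> cases t <;> cases e' <;> cases d' <;> cases t' <;> simp

/-- the index of a section in the frame -/
def tb (a : Fin 2) : Bool := decide (a = 0)

section

variable {k : Type u} [Field k]

lemma regOn_DP {w : Bool × Bool × Bool} {g : Gp} (hg : g ∈ CP w.1 w.2.1 w.2.2) :
    RegOn (DP (k := k) w) g := regOn_CP hg

section

variable {o : Bool × Bool × Bool → Gp} (ho : ∀ w w', o w' - o w ∈ CP w.1 w.2.1 w.2.2)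

include ho

lemma regOn_gg (w w' : Bool × Bool × Bool) : RegOn (DP (k := k) w) (o w' - o w) :=
  regOn_DP (ho w w')

lemma regOn_gg1 (w w' : Bool × Bool × Bool) : RegOn (DP (k := k) w ⊓ DP w') (o w' - o w) :=
  (regOn_gg ho w w').mono inf_le_left

lemma regOn_gg2 (w w' : Bool × Bool × Bool) :
    RegOn (DP (k := k) w ⊓ DP w') (-(o w' - o w)) := by
  rw [neg_sub]
  exact (regOn_gg ho w' w).mono inf_le_right

end

lemma LO_cocycle {o : Bool × Bool × Bool → Gp}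
    (ho : ∀ w w', o w' - o w ∈ CP w.1 w.2.1 w.2.2) :
    IsLCocycle (DP (k := k)) fun i j ↦ chiU _ (o j - o i) (regOn_gg1 ho i j) (regOn_gg2 ho i j) := by
  intro i j l W hi hj hl
  change resU _ (chiU _ _ _ _) * resU _ (chiU _ _ _ _) = resU _ (chiU _ _ _ _)
  rw [resU_chiU, resU_chiU, resU_chiU, chiU_mul]
  apply chiU_congr
  abel

/-- the line sheaf with local generators with the exponents `o` -/
noncomputable def LO (o : Bool × Bool × Bool → Gp)
    (ho : ∀ w w', o w' - o w ∈ CP w.1 w.2.1 w.2.2) : LSheaf (TX k MP) where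
  ι := Bool × Bool × Bool
  U := DP
  cover := DP_cover
  g i j := chiU _ (o j - o i) (regOn_gg1 ho i j) (regOn_gg2 ho i j)
  cocycle := LO_cocycle ho

/-- the sheaf `𝒪(1)` -/
noncomputable def O1P : LSheaf (TX k MP) := LO oP oP_gg

/-- the ample sheaf -/
noncomputable def AP : LSheaf (TX k MP) := LO aP aP_gg

lemma regOn_xP (i : Bool × Bool) (t : Bool) (α : Bool × Bool × Bool) (W : (TX k MP).Opens) :
    RegOn (W ⊓ DP (k := k) α) (oP (i.1, i.2, t) - oP α) :=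
  (regOn_gg oP_gg α (i.1, i.2, t)).mono inf_le_right

/-- the tautological sections of `𝒪(1)` -/
noncomputable def xP (i : Bool × Bool) (a : Fin 2) (α : Bool × Bool × Bool) :
    Sec (TX k MP) (piP ⁻¹ᵁ UX i ⊓ DP α) :=
  chi _ (oP (i.1, i.2, tb a) - oP α) (regOn_xP i (tb a) α _)

lemma xP_isSection' (i : Bool × Bool) (a : Fin 2) (α β : Bool × Bool × Bool)
    {V : (TX k MP).Opens} (h1 : V ≤ piP ⁻¹ᵁ UX i ⊓ DP α) (h2 : V ≤ DP α ⊓ DP β)
    (h3 : V ≤ piP ⁻¹ᵁ UX i ⊓ DP β) :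
    res h1 (xP i a α) = res h2 (chi _ (oP β - oP α) (regOn_gg1 oP_gg α β)) *
      res h3 (xP i a β) := by
  rw [xP, xP, res_chi, res_chi, res_chi, chi_mul]
  exact chi_congr _ (by abel)

lemma xP_isSection (i : Bool × Bool) (a : Fin 2) :
    (O1P (k := k)).IsSection (piP ⁻¹ᵁ UX i) (xP i a) :=
  fun α β ↦ xP_isSection' i a α β (inf_le_inf_left _ inf_le_left) inf_le_right
    (inf_le_inf_left _ inf_le_right)

/-- the exponents of the transition functions -/
lemma oX_oP (i j : Bool × Bool) (α : Gp) :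
    oX 1 1 j - oX 1 1 i + (oP (i.1, i.2, true) - α) = oP (j.1, j.2, true) - α ∧
    oX 2 0 j - oX 2 0 i + (oP (i.1, i.2, false) - α) = oP (j.1, j.2, false) - α := by
  constructor
  · apply gp_ext <;> simp [oX, oP]
  · apply gp_ext <;> simp [oX, oP]

lemma oX_split (a b : ℤ) (ha : 0 ≤ a) (hb : 0 ≤ b) (i j : Bool × Bool) :
    oX a b j - oX a b i ∈ CX i.1 i.2 := by
  obtain ⟨e, d⟩ := i
  obtain ⟨e', d'⟩ := j
  simp only [oX, Prod.mk_sub_mk, mem_CX]
  cases e <;> cases d <;> cases e' <;> cases d' <;> simp [ha, hb]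

lemma regOn_pull_tr (a b : ℤ) (ha : 0 ≤ a) (hb : 0 ≤ b) (i j : Bool × Bool) :
    RegOn (piP (k := k) ⁻¹ᵁ (UX i ⊓ UX j)) (oX a b j - oX a b i) := by
  intro y hy
  have h1 : y ∈ piP (k := k) ⁻¹ᵁ (UX i) := hy.1
  rw [pre_UX] at h1
  have h2 := oX_split a b ha hb i j
  rcases h1 with h1 | h1
  · exact mem_reg_DP h1 (CX_subset_CP _ h2)
  · exact mem_reg_DP h1 (CX_subset_CP _ h2)

lemma pull_tr (a b : ℤ) (ha : 0 ≤ a) (hb : 0 ≤ b) (i j : Bool × Bool) :
    pull piP (UX i ⊓ UX j) (tr (k := k) a b i j).val =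
      chi _ (oX a b j - oX a b i) (regOn_pull_tr a b ha hb i j) := by
  apply tsec_ext
  intro hV
  rw [tL_chi]
  have h0 : (0 : Gp) ∈ CX j.1 j.2 := by
    change ((0, 0, 0, 0) : Gp) ∈ CX j.1 j.2
    rw [mem_CX]
    simp
  have hr : RegOn (UX (k := k) i ⊓ UX j) (oX a b j - oX a b i + 0) := by
    rw [add_zero]
    exact regOn_oX a b i j
  have e : (tr (k := k) a b i j).val = chi _ (oX a b j - oX a b i + 0) hr :=
    (chi_congr hr (add_zero _)).symm
  rw [e]
  exact (tL_pull_chi (k := k) i j (oX_split a b ha hb i j) h0 hr).trans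
    (congrArg _ (add_zero _))

lemma xP_trans (i j : Bool × Bool) (b : Fin 2) (α : Bool × Bool × Bool)
    (W : (TX k MP).Opens) (hij : W ≤ piP ⁻¹ᵁ (UX i ⊓ UX j))
    (hi : W ≤ piP ⁻¹ᵁ UX i ⊓ DP α) (hj : W ≤ piP ⁻¹ᵁ UX j ⊓ DP α) :
    res hj (xP j b α) =
      ∑ a, res hij (pull piP (UX i ⊓ UX j) (((dg (tr (k := k) 1 1 i j) (tr 2 0 i j)) :
        Matrix (Fin 2) (Fin 2) (Sec (TX k MX) (UX i ⊓ UX j))) a b)) *
        res hi (xP i a α) := by
  rw [Fin.sum_univ_two]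
  have g00 : ((dg (tr (k := k) 1 1 i j) (tr 2 0 i j)) :
        Matrix (Fin 2) (Fin 2) (Sec (TX k MX) (UX i ⊓ UX j))) 0 0 = (tr 1 1 i j).val := rfl
  have g11 : ((dg (tr (k := k) 1 1 i j) (tr 2 0 i j)) :
        Matrix (Fin 2) (Fin 2) (Sec (TX k MX) (UX i ⊓ UX j))) 1 1 = (tr 2 0 i j).val := rfl
  have g01 : ((dg (tr (k := k) 1 1 i j) (tr 2 0 i j)) :
        Matrix (Fin 2) (Fin 2) (Sec (TX k MX) (UX i ⊓ UX j))) 0 1 = 0 := rfl
  have g10 : ((dg (tr (k := k) 1 1 i j) (tr 2 0 i j)) :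
        Matrix (Fin 2) (Fin 2) (Sec (TX k MX) (UX i ⊓ UX j))) 1 0 = 0 := rfl
  have hb : b = 0 ∨ b = 1 := by omega
  rcases hb with rfl | rfl
  · rw [g00, g10, map_zero, map_zero, zero_mul, add_zero,
      pull_tr 1 1 (by norm_num) (by norm_num) i j, xP, xP, res_chi, res_chi, res_chi, chi_mul]
    exact (chi_congr _ (oX_oP i j _).1).symm
  · rw [g01, g11, map_zero, map_zero, zero_mul, zero_add,
      pull_tr 2 0 (by norm_num) (by norm_num) i j, xP, xP, res_chi, res_chi, res_chi, chi_mul]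
    exact (chi_congr _ (oX_oP i j _).2).symm

/-- the nonvanishing locus of a tautological section -/
lemma nonvan_xP (i : Bool × Bool) (a : Fin 2) :
    ⨆ α, nz (xP (k := k) i a α) = DP (i.1, i.2, tb a) := by
  apply le_antisymm
  · refine iSup_le fun α y hy ↦ ?_
    have hyV : y ∈ piP ⁻¹ᵁ UX i ⊓ DP α := nz_le _ hy
    have h1 : -(oP (i.1, i.2, tb a) - oP α) ∈ reg k MP y := by
      rw [xP, mem_nz_chi _ hyV] at hy
      exact hy
    have h2 : y ∈ DP (i.1, i.2, false) ⊔ DP (i.1, i.2, true) := by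
      rw [← pre_UX]
      exact hyV.1
    have key : ∀ t : Bool, y ∈ DP (i.1, i.2, t) → y ∈ DP (i.1, i.2, tb a) := by
      intro t ht
      have h3 : oP (i.1, i.2, t) - oP α ∈ reg k MP y := mem_reg_DP hyV.2 (oP_gg α _)
      have h4 := add_mem h1 h3
      have ht' : y ∈ tO k MP (wP i.1 i.2 t) := ht
      have h5 : y ∈ tO k MP (wP i.1 i.2 (tb a)) := by
        rw [mem_tO_iff k MP y ht' (l := 1) (by rw [tdeg_wP, tdeg_wP]), tinc_wP, tinc_wP]
        convert h4 using 1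
        apply gp_ext <;> simp [oP] <;> ring
      exact h5
    rcases h2 with h2 | h2
    · exact key false h2
    · exact key true h2
  · intro y hy
    have hyV : y ∈ piP ⁻¹ᵁ UX i ⊓ DP (i.1, i.2, tb a) := ⟨DP_le (i.1, i.2, tb a) hy, hy⟩
    refine Opens.mem_iSup.mpr ⟨(i.1, i.2, tb a), ?_⟩
    rw [xP, mem_nz_chi _ hyV, sub_self, neg_zero]
    exact zero_mem _

end

end Pool.Agent.Helper72.VB
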