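import Mathlib
import Pool.Agent.Helper72.TorPB

open AlgebraicGeometry CategoryTheory Limits TopologicalSpace Opposite HomogeneousLocalization
open AddMonoidAlgebra

universe u

namespace Pool.Agent.Helper72.VB

section

variable {k : Type u} [Field k]

lemma coeff_shift (Z : LR k) (m g : Gp) :
    (Z * single m (1 : k)).coeff g = Z.coeff (g - m) := by
  rw [AddMonoidAlgebra.coeff_mul_single_eq_coeff_mul (x := Z) (r := (1 : k)) (m := m) (m₁ := g)
    (g - m) (fun a _ ↦ eq_sub_iff_add_eq.symm), mul_one]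

lemma DP_le' (i : Bool × Bool) (t : Bool) : DP (k := k) (i.1, i.2, t) ≤ piP ⁻¹ᵁ UX i :=
  DP_le (i.1, i.2, t)

/-- the exponent of the coordinate -/
def tau (i : Bool × Bool) (t : Bool) : Gp := oP (i.1, i.2, !t) - oP (i.1, i.2, t)

lemma tau_mem (i : Bool × Bool) (t : Bool) : tau i t ∈ CP i.1 i.2 t := oP_gg (i.1, i.2, t) _

lemma tau_eq (i : Bool × Bool) (t : Bool) :
    tau i t = (-sg t * z i.1, sg t * z i.2, sg t, 0) := by
  apply gp_ext <;> cases t <;> simp [tau, oP, sg] <;> ring

lemma regOn_tau (i : Bool × Bool) (t : Bool) : RegOn (DP (k := k) (i.1, i.2, t)) (tau i t) :=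
  regOn_DP (tau_mem i t)

/-- functions on a chart of `X`, as functions on a chart of `P` -/
noncomputable def pl (i : Bool × Bool) (t : Bool) :
    Sec (TX k MX) (UX i) →+* Sec (TX k MP) (DP (i.1, i.2, t)) :=
  (res (DP_le' i t)).comp (pull piP (UX i))

lemma tL_pl (i : Bool × Bool) (t : Bool) (a : Sec (TX k MX) (UX i)) :
    tL _ (DP_gen _) (pl i t a) = tL _ (UX_gen i) a := tL_pull i a

/-- the coordinate homomorphism -/
noncomputable def cP (i : Bool × Bool) (t : Bool) :
    Polynomial (Sec (TX k MX) (UX i)) →+* Sec (TX k MP) (DP (i.1, i.2, t)) :=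
  Polynomial.eval₂RingHom (pl i t) (chi _ (tau i t) (regOn_tau i t))

lemma cP_C (i : Bool × Bool) (t : Bool) (a : Sec (TX k MX) (UX i)) :
    cP i t (Polynomial.C a) = pl i t a := Polynomial.eval₂_C _ _

lemma cP_X (i : Bool × Bool) (t : Bool) :
    cP (k := k) i t Polynomial.X = chi _ (tau i t) (regOn_tau i t) := Polynomial.eval₂_X _ _

lemma mono_nsmul (n : ℕ) (g : Gp) : (VB.mono g : LF k) ^ n = VB.mono (n • g) := by
  have := mono_zpow (k := k) g n
  simpa using this

lemma cP_injective (i : Bool × Bool) (t : Bool) : Function.Injective (cP (k := k) i t) := by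
  rw [injective_iff_map_eq_zero]
  intro p hp
  choose Z hZ hs using fun n : ℕ ↦ support_UX i (p.coeff n)
  have h1 := congrArg (tL _ (DP_gen (i.1, i.2, t))) hp
  rw [map_zero, cP, Polynomial.coe_eval₂RingHom, Polynomial.eval₂_eq_sum_range, map_sum] at h1
  have h2 : ∀ n, tL _ (DP_gen (i.1, i.2, t)) (pl i t (p.coeff n) *
      chi _ (tau i t) (regOn_tau i t) ^ n) =
      algebraMap (LR k) (LF k) (Z n * single (n • tau i t) 1) := by
    intro n
    rw [map_mul, map_pow, tL_pl, tL_chi, mono_nsmul, hZ, map_mul]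
    rfl
  rw [Finset.sum_congr rfl fun n _ ↦ h2 n, ← map_sum,
    map_eq_zero_iff _ (IsFractionRing.injective (LR k) (LF k))] at h1
  ext n
  rw [Polynomial.coeff_zero]
  by_cases hn : p.natDegree < n
  · exact Polynomial.coeff_eq_zero_of_natDegree_lt hn
  push Not at hn
  apply tL_injective _ (UX_gen i)
  rw [map_zero, hZ]
  have h3 : Z n = 0 := by
    ext g
    by_contra hg
    have hg' := hs n g (Finsupp.mem_support_iff.mpr hg)
    apply hg
    have h4 := congrArg (fun Y : LR k ↦ Y.coeff (g + n • tau i t)) h1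
    simp only [AddMonoidAlgebra.coeff_sum, Finsupp.finsetSum_apply,
      AddMonoidAlgebra.coeff_zero, Finsupp.coe_zero, Pi.zero_apply, coeff_shift] at h4
    rw [Finset.sum_eq_single n] at h4
    · rw [add_sub_cancel_right] at h4
      exact h4
    · intro m _ hm
      by_contra h5
      have h6 := (hs m _ (Finsupp.mem_support_iff.mpr h5)).1
      have h7 := hg'.1
      rw [tau_eq] at h6
      simp only [Prod.smul_mk, Prod.snd_sub, Prod.snd_add, Prod.fst_sub, Prod.fst_add,
        nsmul_eq_mul, h7, zero_add] at h6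
      apply hm
      cases t <;> simp [sg] at h6 <;> omega
    · intro h
      exact absurd (Finset.mem_range.mpr (by omega)) h
  rw [h3, map_zero]

lemma cP_surjective (i : Bool × Bool) (t : Bool) : Function.Surjective (cP (k := k) i t) := by
  rw [← RingHom.range_eq_top, eq_top_iff]
  intro s _
  refine sec_mem_subring (v := wP i.1 i.2 t) (by rw [tdeg_wP]; exact one_pos) (CP i.1 i.2 t)
    (fun g l m hd h ↦ CP_of hd h) (fun g hg ↦ regOn_CP hg) _ ?_ ?_ s
  · intro c
    refine ⟨Polynomial.C (const (TXto k MX) (UX i) c), ?_⟩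
    rw [cP_C]
    apply tL_injective _ (DP_gen (i.1, i.2, t))
    rw [tL_pl, tL_const]
    exact (tL_const _ _ c).symm
  · rintro g hg
    obtain ⟨n, hn⟩ : ∃ n : ℕ, (n : ℤ) * sg t = g.2.2.1 :=
      ⟨g.2.2.1.natAbs, natAbs_sg hg.2.2.2⟩
    have h1 : g - n • tau i t ∈ CX i.1 i.2 := by
      rw [tau_eq]
      obtain ⟨p, q, j, l⟩ := g
      obtain ⟨h1, h2, h3, h4⟩ := mem_CP.mp hg
      simp only at hn
      simp only [Prod.smul_mk, Prod.mk_sub_mk, mem_CX, nsmul_eq_mul, mul_zero, sub_zero]
      refine ⟨by rw [hn, sub_self], h1, ?_, ?_⟩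
      · convert h2 using 2
        rw [← hn]
        ring
      · convert h3 using 2
        rw [← hn]
        ring
    refine ⟨Polynomial.C (chi (UX i) _ (regOn_UX h1)) * Polynomial.X ^ n, ?_⟩
    rw [map_mul, map_pow, cP_C, cP_X]
    apply tL_injective _ (DP_gen (i.1, i.2, t))
    rw [map_mul, map_pow, tL_pl, tL_chi, tL_chi, mono_nsmul, ← mono_add, sub_add_cancel]
    exact (tL_chi _ _).symm

end

end Pool.Agent.Helper72.VB
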