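import Mathlib
import Pool.Agent.Helper72.TorCoord

open AlgebraicGeometry CategoryTheory Limits TopologicalSpace Opposite HomogeneousLocalization
open AddMonoidAlgebra

universe u

namespace Pool.Agent.Helper72.VB

/-- the other index -/
@[instance_reducible]
def ob (a : Fin 2) : Unique {b : Fin 2 // b ≠ a} where
  default := ⟨1 - a, by fin_cases a <;> decide⟩
  uniq := by
    rintro ⟨b, hb⟩
    apply Subtype.ext
    fin_cases a <;> fin_cases b <;> first | rfl | exact absurd rfl hb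

section

variable {k : Type u} [Field k]

/-- the coordinate -/
noncomputable def tP (i : Bool × Bool) (a : Fin 2) (_ : {b : Fin 2 // b ≠ a}) :
    Sec (TX k MP) (DP (i.1, i.2, tb a)) :=
  chi _ (tau i (tb a)) (regOn_tau i (tb a))

lemma isPolyRing (i : Bool × Bool) (a : Fin 2) :
    IsPolyRing (pl i (tb a)) (tP (k := k) i a) := by
  let := ob a
  have h : (MvPolynomial.eval₂Hom (pl i (tb a)) (tP (k := k) i a)) =
      (cP i (tb a)).comp (MvPolynomial.uniqueAlgEquiv (Sec (TX k MX) (UX i))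
        {b : Fin 2 // b ≠ a}).toRingEquiv.toRingHom := by
    apply MvPolynomial.ringHom_ext
    · intro c
      rw [MvPolynomial.coe_eval₂Hom, MvPolynomial.eval₂_C]
      have h : (MvPolynomial.uniqueAlgEquiv (Sec (TX k MX) (UX i)) {b : Fin 2 // b ≠ a})
          (MvPolynomial.C c) = Polynomial.C c :=
        (MvPolynomial.uniqueAlgEquiv (Sec (TX k MX) (UX i)) {b : Fin 2 // b ≠ a}).commutes c
      exact ((congrArg (cP i (tb a)) h).trans (cP_C i (tb a) c)).symm
    · intro b
      rw [MvPolynomial.coe_eval₂Hom, MvPolynomial.eval₂_X]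
      have h : (MvPolynomial.uniqueAlgEquiv (Sec (TX k MX) (UX i)) {b : Fin 2 // b ≠ a})
          (MvPolynomial.X b) = Polynomial.X := by
        simp [MvPolynomial.uniqueAlgEquiv]
      exact ((congrArg (cP i (tb a)) h).trans (cP_X i (tb a))).symm
  rw [IsPolyRing, h]
  exact (show Function.Bijective (cP (k := k) i (tb a)) from
    ⟨cP_injective i (tb a), cP_surjective i (tb a)⟩).comp
    (MvPolynomial.uniqueAlgEquiv (Sec (TX k MX) (UX i)) {b : Fin 2 // b ≠ a}).bijective

lemma tb_ne {a b : Fin 2} (h : b ≠ a) : tb b = !tb a := by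
  fin_cases a <;> fin_cases b <;> first | rfl | exact absurd rfl h

lemma tP_trans (i : Bool × Bool) (a : Fin 2) (b : {b : Fin 2 // b ≠ a})
    (α : Bool × Bool × Bool) (W : (TX k MP).Opens) (hW : W ≤ DP (i.1, i.2, tb a))
    (hα : W ≤ piP ⁻¹ᵁ UX i ⊓ DP α) :
    res hW (tP i a b) * res hα (xP i a α) = res hα (xP i b.1 α) := by
  rw [tP, xP, xP, res_chi, res_chi, res_chi, chi_mul]
  refine chi_congr _ ?_
  rw [tau, tb_ne b.2]
  abel

lemma hasCoords (i : Bool × Bool) (a : Fin 2) (W0 : (TX k MP).Opens)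
    (h0 : W0 = DP (i.1, i.2, tb a)) (hle : W0 ≤ piP ⁻¹ᵁ UX i) :
    HasCoords piP (O1P (k := k)) (xP i) a W0 hle := by
  subst h0
  exact ⟨tP i a, isPolyRing i a, fun b α W hW hα ↦ tP_trans i a b α W hW (le_inf (hW.trans hle) hα)⟩

lemma le_xP (i : Bool × Bool) (a : Fin 2) :
    (O1P (k := k)).nonvan (piP ⁻¹ᵁ UX i) (xP i a) ≤ piP ⁻¹ᵁ UX i :=
  (nonvan_xP (k := k) i a).le.trans (DP_le' i _)

lemma generate_xP (i : Bool × Bool) :
    ⨆ a, (O1P (k := k)).nonvan (piP ⁻¹ᵁ UX i) (xP i a) = piP ⁻¹ᵁ UX i := by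
  apply le_antisymm
  · exact iSup_le fun a ↦ le_xP i a
  · refine (pre_UX i).le.trans (sup_le ?_ ?_)
    · exact (nonvan_xP i 1).ge.trans
        (le_iSup (fun a ↦ (O1P (k := k)).nonvan (piP ⁻¹ᵁ UX i) (xP i a)) 1)
    · exact (nonvan_xP i 0).ge.trans
        (le_iSup (fun a ↦ (O1P (k := k)).nonvan (piP ⁻¹ᵁ UX i) (xP i a)) 0)

lemma affine_xP (i : Bool × Bool) (a : Fin 2) :
    IsAffineOpen ((O1P (k := k)).nonvan (piP ⁻¹ᵁ UX i) (xP i a)) := by
  change IsAffineOpen (⨆ α, nz (xP (k := k) i a α))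
  rw [nonvan_xP]
  exact isAffineOpen_DP _

/-- the projective bundle of `E` -/
noncomputable def PB : ProjBundle (E (k := k)) where
  P := TX k MP
  π := piP
  O1 := O1P
  x := xP
  isSection := xP_isSection
  trans i j b α W hi hj hα := xP_trans i j b α W (le_inf hi hj) (le_inf hi hα) (le_inf hj hα)
  generate := generate_xP
  affine := affine_xP
  coord i a := hasCoords i a _ (nonvan_xP (k := k) i a) (le_xP i a)

end

end Pool.Agent.Helper72.VB
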