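import Mathlib
import Pool.Agent.Helper72.TorBun

open AlgebraicGeometry CategoryTheory Limits TopologicalSpace Opposite HomogeneousLocalization
open AddMonoidAlgebra

universe u

namespace Pool.Agent.Helper72.VB

lemma tinc_wP_aP (w : Bool × Bool × Bool) :
    tinc MP (wP w.1 w.2.1 w.2.2) = aP w + (0, 0, 0, 1) := by
  rw [tinc_wP]
  apply gp_ext <;> simp [aP]

section

variable {k : Type u} [Field k]

instance compactSpace_P : CompactSpace (TX k MP) := by
  constructor
  have h : (Set.univ : Set (TX k MP)) = ⋃ w, (DP (k := k) w : Set (TX k MP)) := by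
    have := congrArg (fun W : (TX k MP).Opens ↦ (W : Set (TX k MP))) (DP_cover (k := k))
    simp only [Opens.coe_iSup, Opens.coe_top] at this
    exact this.symm
  rw [h]
  exact isCompact_iUnion fun w ↦ (isAffineOpen_DP w).isCompact

/-- the chart `w` is the locus where the section with exponent `aP w` does not vanish -/
lemma mem_DP_iff {w w' : Bool × Bool × Bool} {y : TX k MP} (hy : y ∈ DP w') :
    y ∈ DP w ↔ -(aP w - aP w') ∈ reg k MP y := by
  have h : y ∈ tO k MP (wP w'.1 w'.2.1 w'.2.2) := hy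
  change y ∈ tO k MP (wP w.1 w.2.1 w.2.2) ↔ _
  rw [mem_tO_iff k MP y h (l := 1) (by rw [tdeg_wP, tdeg_wP]), tinc_wP_aP, tinc_wP_aP, one_smul,
    add_sub_add_right_eq_sub]

lemma regOn_top {w w' : Bool × Bool × Bool} : RegOn (⊤ ⊓ DP (k := k) w') (aP w - aP w') :=
  (regOn_gg aP_gg w' w).mono inf_le_right

/-- a section of the ample sheaf -/
noncomputable def yP (w : Bool × Bool × Bool) (w' : Bool × Bool × Bool) :
    Sec (TX k MP) (⊤ ⊓ DP w') :=
  chi _ (aP w - aP w') regOn_top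

lemma yP_isSection' (w α β : Bool × Bool × Bool)
    {V : (TX k MP).Opens} (h1 : V ≤ ⊤ ⊓ DP α) (h2 : V ≤ DP α ⊓ DP β)
    (h3 : V ≤ ⊤ ⊓ DP β) (u : (Sec (TX k MP) (DP α ⊓ DP β))ˣ)
    (hu : u = chiU _ (aP β - aP α) (regOn_gg1 aP_gg α β) (regOn_gg2 aP_gg α β)) :
    res h1 (yP w α) = res h2 (u : Sec (TX k MP) (DP α ⊓ DP β)) * res h3 (yP w β) := by
  rw [hu, chiU_val, yP, yP, res_chi, res_chi, res_chi, chi_mul]
  exact chi_congr _ (by abel)

lemma yP_isSection (w : Bool × Bool × Bool) :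
    ((AP (k := k)).pow (1 : ℕ)).IsSection ⊤ (yP w) := by
  intro α β
  refine yP_isSection' w α β (inf_le_inf_left _ inf_le_left) inf_le_right
    (inf_le_inf_left _ inf_le_right) _ ?_
  exact zpow_one _

lemma nonvan_yP (w : Bool × Bool × Bool) : ⨆ α, nz (yP (k := k) w α) = DP w := by
  apply le_antisymm
  · refine iSup_le fun α y hy ↦ ?_
    have hyV : y ∈ ⊤ ⊓ DP α := nz_le _ hy
    rw [yP, mem_nz_chi _ hyV] at hy
    exact (mem_DP_iff hyV.2).mpr hy
  · intro y hy
    have hyV : y ∈ ⊤ ⊓ DP w := ⟨trivial, hy⟩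
    refine Opens.mem_iSup.mpr ⟨w, ?_⟩
    rw [yP, mem_nz_chi _ hyV, sub_self, neg_zero]
    exact zero_mem _

theorem AP_ample : (AP (k := k)).IsAmple := by
  refine ⟨compactSpace_P, fun y ↦ ?_⟩
  obtain ⟨w, hw⟩ := exists_wP k y
  have h : ((AP (k := k)).pow (1 : ℕ)).nonvan ⊤ (yP w) = DP w := nonvan_yP w
  refine ⟨1, one_pos, yP w, yP_isSection w, ?_, ?_⟩
  · rw [h]
    exact hw
  · rw [h]
    exact isAffineOpen_DP w

end

end Pool.Agent.Helper72.VB
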