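import Mathlib
import Pool.Agent.Helper72.VBGlue

open AlgebraicGeometry CategoryTheory Limits TopologicalSpace Opposite

universe u v

namespace Pool.Agent.Helper72.VB

section

variable {P X : Scheme.{u}}

/-- the prime ideal of a point -/
lemma prime_of_point {U : X.Opens} (hU : IsAffineOpen U) (x : X) (hx : x ∈ U) :
    ∃ 𝔭 : Ideal (Sec X U), 𝔭.IsPrime ∧ ∀ t, t ∈ 𝔭 ↔ x ∉ nz t := by
  have h0 : x ∈ Set.range hU.fromSpec := by
    rw [hU.range_fromSpec]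
    exact hx
  obtain ⟨x', rfl⟩ := h0
  refine ⟨(show PrimeSpectrum Γ(X, U) from x').asIdeal,
    (show PrimeSpectrum Γ(X, U) from x').isPrime, fun t ↦ ?_⟩
  have h1 : hU.fromSpec x' ∈ nz t ↔
      x' ∈ hU.fromSpec ⁻¹ᵁ (X.basicOpen (show Γ(X, U) from t)) := Iff.rfl
  rw [h1, hU.fromSpec_preimage_basicOpen]
  exact (not_not (a := t ∈ (show PrimeSpectrum Γ(X, U) from x').asIdeal)).symm

/-- the point of a prime ideal -/
lemma point_of_prime {D : P.Opens} (hD : IsAffineOpen D) {R : Type v} [CommRing R]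
    (σ : Sec P D →+* R) (𝔭 : Ideal R) (h𝔭 : 𝔭.IsPrime) :
    ∃ y ∈ D, ∀ t, y ∈ nz t ↔ σ t ∉ 𝔭 := by
  let y' : PrimeSpectrum Γ(P, D) := ⟨𝔭.comap σ, Ideal.comap_isPrime σ 𝔭⟩
  have h2 : hD.fromSpec y' ∈ Set.range hD.fromSpec := ⟨_, rfl⟩
  rw [hD.range_fromSpec] at h2
  refine ⟨hD.fromSpec y', h2, fun t ↦ ?_⟩
  have h1 : hD.fromSpec y' ∈ nz t ↔
      (show Spec Γ(P, D) from y') ∈ hD.fromSpec ⁻¹ᵁ (P.basicOpen (show Γ(P, D) from t)) := Iff.rfl
  rw [h1, hD.fromSpec_preimage_basicOpen]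
  exact Iff.rfl

/-- functions separate the points of an affine open set -/
lemma point_ext {W : X.Opens} (hW : IsAffineOpen W) {y y' : X} (hy : y ∈ W) (hy' : y' ∈ W)
    (h : ∀ f : Sec X W, y ∈ nz f ↔ y' ∈ nz f) : y = y' := by
  have h0 : y ∈ Set.range hW.fromSpec := by
    rw [hW.range_fromSpec]
    exact hy
  have h0' : y' ∈ Set.range hW.fromSpec := by
    rw [hW.range_fromSpec]
    exact hy'
  obtain ⟨x, rfl⟩ := h0
  obtain ⟨x', rfl⟩ := h0'
  congr 1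
  apply PrimeSpectrum.ext
  ext f
  have h2 : ∀ x : Spec Γ(X, W), hW.fromSpec x ∈ nz (show Sec X W from f) ↔
      f ∉ (show PrimeSpectrum Γ(X, W) from x).asIdeal := by
    intro x
    have h1 : hW.fromSpec x ∈ nz (show Sec X W from f) ↔
      x ∈ hW.fromSpec ⁻¹ᵁ (X.basicOpen f) := Iff.rfl
    rw [h1, hW.fromSpec_preimage_basicOpen]
    exact Iff.rfl
  have h3 := h f
  rw [h2, h2] at h3
  exact not_iff_not.mp h3

lemma nz_mul {V : X.Opens} (a b : Sec X V) : nz (a * b) = nz a ⊓ nz b :=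
  Scheme.basicOpen_mul _ _ _

lemma nz_res {V W : X.Opens} (h : V ≤ W) (a : Sec X W) : nz (res h a) = V ⊓ nz a :=
  Scheme.basicOpen_res _ _ _

lemma mem_nz_pow {V : X.Opens} {a : Sec X V} {y : X} (h : y ∈ nz a) (n : ℕ) :
    y ∈ nz (a ^ n) := by
  have h0 : y ∈ V := nz_le _ h
  induction n with
  | zero =>
    rw [pow_zero]
    have : nz (1 : Sec X V) = V := Scheme.basicOpen_of_isUnit _ isUnit_one
    rw [this]
    exact h0
  | succ n ih =>
    rw [pow_succ, nz_mul]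
    exact ⟨ih, h⟩

/-- a section of `θ` gives points in the fibres -/
lemma exists_point' {U : X.Opens} {D : P.Opens} {θ : Sec X U →+* Sec P D} {π : P ⟶ X}
    {hU : IsAffineOpen U} (h : D.ι ≫ π = D.toSpecΓ ≫ spc θ ≫ hU.fromSpec)
    (hD : IsAffineOpen D) (σ : Sec P D →+* Sec X U) (hσ : ∀ a, σ (θ a) = a)
    (x : X) (hx : x ∈ U) :
    ∃ y : P, y ∈ D ∧ π y = x ∧ ∀ t : Sec P D, y ∈ nz t ↔ x ∈ nz (σ t) := by
  have h0 : x ∈ Set.range hU.fromSpec := by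
    rw [hU.range_fromSpec]
    exact hx
  obtain ⟨x', rfl⟩ := h0
  let τ : Spec Γ(X, U) ⟶ Spec Γ(P, D) := Spec.map (CommRingCat.ofHom σ : Γ(P, D) ⟶ Γ(X, U))
  have hτ : τ ≫ spc θ = 𝟙 _ := by
    rw [spc, ← Spec.map_comp, ← Spec.map_id]
    congr 1
    ext a
    exact hσ a
  refine ⟨hD.fromSpec (τ x'), ?_, ?_, ?_⟩
  · have h2 : hD.fromSpec (τ x') ∈ Set.range hD.fromSpec := ⟨_, rfl⟩
    rw [hD.range_fromSpec] at h2
    exact h2
  · have h3 : π (hD.fromSpec (τ x')) = (τ ≫ hD.fromSpec ≫ π) x' := rfl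
    rw [h3, fromSpec_comp h hD, ← Category.assoc, hτ, Category.id_comp]
  · intro t
    have h4 : hD.fromSpec (τ x') ∈ nz t ↔
      τ x' ∈ hD.fromSpec ⁻¹ᵁ (P.basicOpen (show Γ(P, D) from t)) := Iff.rfl
    have h5 : hU.fromSpec x' ∈ nz (σ t) ↔
      x' ∈ hU.fromSpec ⁻¹ᵁ (X.basicOpen (show Γ(X, U) from σ t)) := Iff.rfl
    rw [h4, h5, hD.fromSpec_preimage_basicOpen, hU.fromSpec_preimage_basicOpen]
    exact Iff.rfl

/-- extension of functions with denominators -/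
lemma exists_pow_mul {D : P.Opens} (hD : IsAffineOpen D) {W : P.Opens} (u : Sec P D)
    (hu : nz u ≤ W) (f : Sec P W) :
    ∃ (M : ℕ) (v : Sec P D), res (nz_le u) v = res (nz_le u) u ^ M * res hu f := by
  obtain ⟨M, v, hv⟩ := exists_eq_pow_mul_of_isAffineOpen P D hD (show Γ(P, D) from u)
    (show Γ(P, P.basicOpen (show Γ(P, D) from u)) from res hu f)
  exact ⟨M, v, hv⟩

end

end Pool.Agent.Helper72.VB
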