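import Mathlib
import Pool.Agent.Helper72.TorBase
import Pool.Agent.Helper72.VBPoint

open AlgebraicGeometry CategoryTheory Limits TopologicalSpace Opposite HomogeneousLocalization
open AddMonoidAlgebra

universe u

namespace Pool.Agent.Helper72.VB

section

variable {k : Type u} [Field k]

/-- coordinates on a chart of `P` -/
noncomputable def cPe (i : Bool × Bool) (t : Bool) :
    Polynomial (Sec (TX k MX) (UX i)) ≃+* Sec (TX k MP) (DP (i.1, i.2, t)) :=
  RingEquiv.ofBijective (cP i t) ⟨cP_injective i t, cP_surjective i t⟩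

lemma regU1 (i : Bool × Bool) : RegOn (UX (k := k) i) (sg i.1, 0, 0, 0) := regX1 i.1 i.2

lemma regU2 (i : Bool × Bool) : RegOn (UX (k := k) i) (0, sg i.2, 0, 0) := regX2 i.1 i.2

/-- coordinates on a chart of `X` -/
noncomputable def coordU (i : Bool × Bool) :
    MvPolynomial (Fin 2) k →+* Sec (TX k MX) (UX i) := coordX i.1 i.2

lemma coordU_C (i : Bool × Bool) (c : k) :
    coordU i (MvPolynomial.C c) = const (TXto k MX) (UX i) c := MvPolynomial.eval₂_C _ _ _

lemma coordU_X0 (i : Bool × Bool) :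
    coordU i (MvPolynomial.X 0) = chi (UX (k := k) i) (sg i.1, 0, 0, 0) (regU1 i) :=
  MvPolynomial.eval₂_X _ _ _

lemma coordU_X1 (i : Bool × Bool) :
    coordU i (MvPolynomial.X 1) = chi (UX (k := k) i) (0, sg i.2, 0, 0) (regU2 i) :=
  MvPolynomial.eval₂_X _ _ _

/-- coordinates on a chart of `X` -/
noncomputable def cXe (i : Bool × Bool) :
    MvPolynomial (Fin 2) k ≃+* Sec (TX k MX) (UX i) :=
  RingEquiv.ofBijective (coordU i) (coordX_bijective i.1 i.2)

/-- restriction of functions to the section `T = 0` -/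
noncomputable def sgm (i : Bool × Bool) :
    Sec (TX k MP) (DP (i.1, i.2, false)) →+* Sec (TX k MX) (UX i) :=
  Polynomial.constantCoeff.comp (cPe i false).symm.toRingHom

lemma sgm_cP (i : Bool × Bool) (p : Polynomial (Sec (TX k MX) (UX i))) :
    sgm i (cP i false p) = Polynomial.constantCoeff p := by
  have h : (cPe i false).symm (cP i false p) = p := (cPe i false).symm_apply_apply p
  exact congrArg Polynomial.constantCoeff h

lemma sgm_pl (i : Bool × Bool) (a : Sec (TX k MX) (UX i)) : sgm i (pl i false a) = a := by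
  rw [← cP_C, sgm_cP, Polynomial.constantCoeff_apply, Polynomial.coeff_C_zero]

lemma sgm_tau (i : Bool × Bool) :
    sgm (k := k) i (chi _ (tau i false) (regOn_tau i false)) = 0 := by
  rw [← cP_X, sgm_cP, Polynomial.constantCoeff_apply, Polynomial.coeff_X_zero]

lemma pl_const (i : Bool × Bool) (c : k) :
    pl i false (const (TXto k MX) (UX i) c) = const (TXto k MP) (DP (i.1, i.2, false)) c := by
  apply tL_injective _ (DP_gen _)
  rw [tL_pl, tL_const]
  exact (tL_const _ _ c).symm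

lemma sgm_const (i : Bool × Bool) (c : k) :
    sgm i (const (TXto k MP) (DP (i.1, i.2, false)) c) = const (TXto k MX) (UX i) c := by
  rw [← pl_const, sgm_pl]

lemma pl_chi (i : Bool × Bool) {g : Gp} (hg : g ∈ CX i.1 i.2)
    (h : RegOn (DP (k := k) (i.1, i.2, false)) g) :
    pl i false (chi _ g (regOn_UX hg)) = chi _ g h := by
  apply tL_injective _ (DP_gen _)
  rw [tL_pl, tL_chi, tL_chi]

/-- monomials on the section -/
lemma sgm_chi0 (i : Bool × Bool) {g : Gp} (hg : g ∈ CX i.1 i.2)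
    (h : RegOn (DP (k := k) (i.1, i.2, false)) g) :
    sgm i (chi _ g h) = chi _ g (regOn_UX hg) := by
  rw [← pl_chi i hg h, sgm_pl]

lemma sgm_chi1 (i : Bool × Bool) {g : Gp} (hg : g ∈ CP i.1 i.2 false) (hj : g.2.2.1 ≠ 0)
    (h : RegOn (DP (k := k) (i.1, i.2, false)) g) :
    sgm i (chi _ g h) = 0 := by
  have h1 : g - tau i false ∈ CP i.1 i.2 false := by
    rw [tau_eq]
    obtain ⟨p, q, j, l⟩ := g
    obtain ⟨h1, h2, h3, h4⟩ := mem_CP.mp hg
    simp only [ne_eq] at hj
    simp only [z_false] at h4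
    simp only [Prod.mk_sub_mk, mem_CP, sub_zero, sg, z_false]
    refine ⟨h1, ?_, ?_, ?_⟩
    · convert h2 using 2
      ring
    · convert h3 using 2
      ring
    · omega
  have h2 : chi _ g h = chi _ (g - tau i false) (regOn_DP (w := (i.1, i.2, false)) h1) *
      chi _ (tau i false) (regOn_tau i false) := by
    rw [chi_mul]
    exact chi_congr _ (sub_add_cancel _ _).symm
  rw [h2, map_mul, sgm_tau, mul_zero]

/-- restriction of functions to the curve `T = 0`, `b = 0` -/
noncomputable def phi (i : Bool × Bool) :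
    Sec (TX k MP) (DP (i.1, i.2, false)) →+* Polynomial k :=
  ((MvPolynomial.eval₂Hom Polynomial.C ![Polynomial.X, 0]).comp (cXe i).symm.toRingHom).comp
    (sgm i)

lemma phi_eq (i : Bool × Bool) (t : Sec (TX k MP) (DP (i.1, i.2, false)))
    (p : MvPolynomial (Fin 2) k) (h : sgm i t = coordU i p) :
    phi i t = MvPolynomial.eval₂ Polynomial.C ![Polynomial.X, 0] p := by
  have h1 : (cXe i).symm (sgm i t) = p := by
    rw [h]
    exact (cXe i).symm_apply_apply p
  exact congrArg (MvPolynomial.eval₂Hom Polynomial.C ![Polynomial.X, 0]) h1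

lemma phi_const (i : Bool × Bool) (c : k) :
    phi i (const (TXto k MP) (DP (i.1, i.2, false)) c) = Polynomial.C c := by
  rw [phi_eq i _ (MvPolynomial.C c), MvPolynomial.eval₂_C]
  rw [sgm_const, coordU_C]

lemma phi_chi0 (i : Bool × Bool) {p : ℤ} (hg : (p, 0, 0, 0) ∈ CX i.1 i.2)
    (h : RegOn (DP (k := k) (i.1, i.2, false)) (p, 0, 0, 0)) :
    phi i (chi _ (p, 0, 0, 0) h) = Polynomial.X ^ p.natAbs := by
  rw [phi_eq i _ (MvPolynomial.X 0 ^ p.natAbs), MvPolynomial.eval₂_pow, MvPolynomial.eval₂_X]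
  · rfl
  rw [sgm_chi0 i hg]
  apply tL_injective _ (UX_gen i)
  rw [tL_chi, map_pow, map_pow, coordU_X0, tL_chi, mono_nsmul]
  congr 1
  have := natAbs_sg (mem_CX.mp hg).2.2.1
  rw [Int.natCast_natAbs] at this
  simp [this]

lemma phi_chi1 (i : Bool × Bool) {g : Gp} (hg : g ∈ CP i.1 i.2 false)
    (hj : ¬ (g.2.1 = 0 ∧ g.2.2.1 = 0)) (h : RegOn (DP (k := k) (i.1, i.2, false)) g) :
    phi i (chi _ g h) = 0 := by
  by_cases hj' : g.2.2.1 = 0
  · obtain ⟨p, q, j, l⟩ := g
    simp only at hj'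
    subst hj'
    have hq : q ≠ 0 := fun h ↦ hj ⟨h, rfl⟩
    obtain ⟨h1, h2, h3, h4⟩ := mem_CP.mp hg
    subst h1
    have hX : ((p, q, 0, 0) : Gp) ∈ CX i.1 i.2 := by
      rw [mem_CX]
      simp only [mul_zero, add_zero, sub_zero] at h2 h3
      exact ⟨rfl, rfl, h2, h3⟩
    have e1 := natAbs_sg (mem_CX.mp hX).2.2.1
    have e2 := natAbs_sg (mem_CX.mp hX).2.2.2
    rw [phi_eq i _ (MvPolynomial.X 0 ^ p.natAbs * MvPolynomial.X 1 ^ q.natAbs),
      MvPolynomial.eval₂_mul, MvPolynomial.eval₂_pow, MvPolynomial.eval₂_pow,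
      MvPolynomial.eval₂_X, MvPolynomial.eval₂_X]
    · have : (![Polynomial.X, 0] : Fin 2 → Polynomial k) 1 = 0 := rfl
      rw [this, zero_pow (by omega), mul_zero]
    rw [sgm_chi0 i hX]
    apply tL_injective _ (UX_gen i)
    rw [tL_chi, map_mul, map_pow, map_pow, coordU_X0, coordU_X1, map_mul, map_pow, map_pow,
      tL_chi, tL_chi, mono_nsmul, mono_nsmul, ← mono_add]
    congr 1
    rw [Int.natCast_natAbs] at e1 e2
    simp [e1, e2]
  · have h1 := sgm_chi1 i hg hj' h
    rw [phi_eq i _ 0 (h1.trans (map_zero _).symm), MvPolynomial.eval₂_zero]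

/-- the coordinate `a` -/
noncomputable def alp (i : Bool × Bool) : Polynomial k →+* Sec (TX k MX) (UX i) :=
  Polynomial.eval₂RingHom (const (TXto k MX) (UX i)) (chi _ (sg i.1, 0, 0, 0) (regU1 i))

lemma alp_C (i : Bool × Bool) (c : k) :
    alp i (Polynomial.C c) = const (TXto k MX) (UX i) c := Polynomial.eval₂_C _ _

lemma alp_X (i : Bool × Bool) {p : ℤ} (hg : (p, 0, 0, 0) ∈ CX i.1 i.2) :
    alp (k := k) i (Polynomial.X ^ p.natAbs) = chi _ (p, 0, 0, 0) (regOn_UX hg) := by
  rw [map_pow, alp, Polynomial.coe_eval₂RingHom, Polynomial.eval₂_X]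
  apply tL_injective _ (UX_gen i)
  rw [map_pow, tL_chi, tL_chi, mono_nsmul]
  congr 1
  have := natAbs_sg (mem_CX.mp hg).2.2.1
  rw [Int.natCast_natAbs] at this
  simp [this]

end

end Pool.Agent.Helper72.VB
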