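import Mathlib
import Pool.Agent.Helper72.TorPhi

open AlgebraicGeometry CategoryTheory Limits TopologicalSpace Opposite HomogeneousLocalization
open AddMonoidAlgebra

universe u

namespace Pool.Agent.Helper72.VB

section

variable {k : Type u} [Field k]

lemma expand (i : Bool × Bool) (t : Sec (TX k MP) (DP (i.1, i.2, false))) (Z : LR k)
    (hZ : tL _ (DP_gen _) t = algebraMap (LR k) (LF k) Z)
    (hs : ∀ g ∈ Z.coeff.support, g ∈ CP i.1 i.2 false) :
    t = ∑ g ∈ Z.coeff.support.attach,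
      const (TXto k MP) (DP (i.1, i.2, false)) (Z.coeff g.1) *
        chi _ g.1 (regOn_DP (w := (i.1, i.2, false)) (hs g.1 g.2)) := by
  apply tL_injective _ (DP_gen _)
  rw [hZ, map_sum]
  have e1 : Z = ∑ g ∈ Z.coeff.support.attach, single g.1 (Z.coeff g.1) := by
    conv_lhs => rw [← sum_coeff_single Z]
    rw [Finsupp.sum, ← Finset.sum_attach]
  conv_lhs => rw [e1]
  rw [map_sum]
  refine Finset.sum_congr rfl fun g _ ↦ ?_
  rw [map_mul, tL_const, tL_chi, VB.mono, ← map_mul, single_mul_single, zero_add, mul_one]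

/-- a Laurent polynomial restricted to the curve -/
noncomputable def PhiZ (Z : LR k) : Polynomial k :=
  ∑ g ∈ Z.coeff.support.attach, Polynomial.C (Z.coeff g.1) *
    (if g.1.2.1 = 0 ∧ g.1.2.2.1 = 0 then Polynomial.X ^ g.1.1.natAbs else 0)

lemma phi_chi (i : Bool × Bool) {g : Gp} (hg : g ∈ CP i.1 i.2 false)
    (h : RegOn (DP (k := k) (i.1, i.2, false)) g) :
    phi i (chi _ g h) =
      if g.2.1 = 0 ∧ g.2.2.1 = 0 then Polynomial.X ^ g.1.natAbs else 0 := by
  split_ifs with hj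
  · obtain ⟨p, q, j, l⟩ := g
    simp only at hj
    obtain ⟨rfl, rfl⟩ := hj
    obtain ⟨h1, h2, h3, h4⟩ := mem_CP.mp hg
    subst h1
    have hX : ((p, 0, 0, 0) : Gp) ∈ CX i.1 i.2 := by
      rw [mem_CX]
      simp only [mul_zero, add_zero, sub_zero] at h2 h3
      exact ⟨rfl, rfl, h2, by simp⟩
    exact phi_chi0 i hX h
  · exact phi_chi1 i hg hj h

lemma phi_expand (i : Bool × Bool) (t : Sec (TX k MP) (DP (i.1, i.2, false))) (Z : LR k)
    (hZ : tL _ (DP_gen _) t = algebraMap (LR k) (LF k) Z)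
    (hs : ∀ g ∈ Z.coeff.support, g ∈ CP i.1 i.2 false) : phi i t = PhiZ Z := by
  rw [expand i t Z hZ hs, map_sum, PhiZ]
  refine Finset.sum_congr rfl fun g _ ↦ ?_
  rw [map_mul, phi_const, phi_chi i (hs g.1 g.2)]

lemma alp_phi_chi (i : Bool × Bool) {g : Gp} (hg : g ∈ CP i.1 i.2 false)
    (hq : g.2.2.1 = 0 → g.2.1 = 0)
    (h : RegOn (DP (k := k) (i.1, i.2, false)) g) :
    alp i (phi i (chi _ g h)) = sgm i (chi _ g h) := by
  by_cases hj : g.2.2.1 = 0
  · have hq' := hq hj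
    obtain ⟨p, q, j, l⟩ := g
    simp only at hj hq'
    subst hj hq'
    obtain ⟨h1, h2, h3, h4⟩ := mem_CP.mp hg
    subst h1
    have hX : ((p, 0, 0, 0) : Gp) ∈ CX i.1 i.2 := by
      rw [mem_CX]
      simp only [mul_zero, add_zero, sub_zero] at h2 h3
      exact ⟨rfl, rfl, h2, by simp⟩
    rw [phi_chi0 i hX h, alp_X i hX, sgm_chi0 i hX]
  · rw [phi_chi1 i hg (fun h ↦ hj h.2), sgm_chi1 i hg hj, map_zero]

lemma alp_phi (i : Bool × Bool) (t : Sec (TX k MP) (DP (i.1, i.2, false))) (Z : LR k)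
    (hZ : tL _ (DP_gen _) t = algebraMap (LR k) (LF k) Z)
    (hs : ∀ g ∈ Z.coeff.support, g ∈ CP i.1 i.2 false)
    (hq : ∀ g ∈ Z.coeff.support, g.2.2.1 = 0 → g.2.1 = 0) :
    alp i (phi i t) = sgm i t := by
  rw [expand i t Z hZ hs, map_sum, map_sum, map_sum]
  refine Finset.sum_congr rfl fun g _ ↦ ?_
  rw [map_mul, map_mul, map_mul, phi_const, alp_C, sgm_const,
    alp_phi_chi i (hs g.1 g.2) (hq g.1 g.2)]

/-- functions on the union of two charts -/
lemma two_charts (e : Bool) (t : ∀ d : Bool, Sec (TX k MP) (DP (e, d, false)))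
    (h : tL _ (DP_gen _) (t false) = tL _ (DP_gen _) (t true)) :
    ∃ Z : LR k, ∀ d, tL _ (DP_gen _) (t d) = algebraMap (LR k) (LF k) Z ∧
      (∀ g ∈ Z.coeff.support, g ∈ CP e d false) ∧
      ∀ g ∈ Z.coeff.support, g.2.2.1 = 0 → g.2.1 = 0 := by
  obtain ⟨Z0, h0, s0⟩ := support_DP (e, false, false) (t false)
  obtain ⟨Z1, h1, s1⟩ := support_DP (e, true, false) (t true)
  have hZ : Z0 = Z1 := IsFractionRing.injective (LR k) (LF k) (h0.symm.trans (h.trans h1))
  subst hZ
  have hq : ∀ g ∈ Z0.coeff.support, g.2.2.1 = 0 → g.2.1 = 0 := by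
    intro g hg hj
    have a0 := (s0 g hg).2.2.1
    have a1 := (s1 g hg).2.2.1
    simp [hj] at a0 a1
    omega
  refine ⟨Z0, fun d ↦ ?_⟩
  cases d
  · exact ⟨h0, s0, hq⟩
  · exact ⟨h1, s1, hq⟩

lemma phi_two (e : Bool) (t : ∀ d : Bool, Sec (TX k MP) (DP (e, d, false)))
    (h : tL _ (DP_gen _) (t false) = tL _ (DP_gen _) (t true)) (d d' : Bool) :
    phi (e, d) (t d) = phi (e, d') (t d') := by
  obtain ⟨Z, hZ⟩ := two_charts e t h
  rw [phi_expand (e, d) (t d) Z (hZ d).1 (hZ d).2.1,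
    phi_expand (e, d') (t d') Z (hZ d').1 (hZ d').2.1]

lemma alp_two (e : Bool) (t : ∀ d : Bool, Sec (TX k MP) (DP (e, d, false)))
    (h : tL _ (DP_gen _) (t false) = tL _ (DP_gen _) (t true)) (d : Bool) :
    alp (e, d) (phi (e, d) (t d)) = sgm (e, d) (t d) := by
  obtain ⟨Z, hZ⟩ := two_charts e t h
  exact alp_phi (e, d) (t d) Z (hZ d).1 (hZ d).2.1 (hZ d).2.2

/-- a function `u` on the union of two charts whose nonvanishing locus is contained in an affine
open set vanishes on the section `T = 0` -/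
theorem not_mem_nz (e : Bool) (u : ∀ d : Bool, Sec (TX k MP) (DP (e, d, false)))
    (h : tL _ (DP_gen _) (u false) = tL _ (DP_gen _) (u true)) (W : (TX k MP).Opens)
    (hW : IsAffineOpen W) (hu : ∀ d, nz (u d) ≤ W) (d : Bool) (x : TX k MX) (hx : x ∈ UX (e, d)) :
    x ∉ nz (sgm (e, d) (u d)) := by
  intro hxu
  obtain ⟨𝔓, h𝔓, h𝔓'⟩ := prime_of_point (isAffineOpen_UX (e, d)) x hx
  let 𝔭 : Ideal (Polynomial k) := 𝔓.comap (alp (e, d))
  have h𝔭 : 𝔭.IsPrime := Ideal.comap_isPrime _ 𝔓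
  have hu0 : ∀ d', phi (e, d') (u d') ∉ 𝔭 := by
    intro d' hmem
    rw [phi_two e u h d' d] at hmem
    have h1 : alp (e, d) (phi (e, d) (u d)) ∈ 𝔓 := hmem
    rw [alp_two e u h d, h𝔓'] at h1
    exact h1 hxu
  choose y hyD hy using fun d' : Bool ↦
    point_of_prime (isAffineOpen_DP (k := k) (e, d', false)) (phi (e, d')) 𝔭 h𝔭
  have hyu : ∀ d', y d' ∈ nz (u d') := fun d' ↦ (hy d' _).mpr (hu0 d')
  have hyW : ∀ d', y d' ∈ W := fun d' ↦ hu d' (hyu d')
  have hgenW : tgen k MP ∈ W := tgen_mem (hyW false)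
  have heq : y false = y true := by
    refine point_ext hW (hyW false) (hyW true) fun f ↦ ?_
    choose M0 v0 hv0 using fun d' : Bool ↦
      exists_pow_mul (isAffineOpen_DP (k := k) (e, d', false)) (u d') (hu d') f
    have hv1 : ∀ d', tL _ (DP_gen _) (v0 d') =
        tL _ (DP_gen _) (u d') ^ M0 d' * tL _ hgenW f := by
      intro d'
      have h2 := congrArg (tL _ (tgen_mem (hyu d'))) (hv0 d')
      rw [map_mul, map_pow, tL_res, tL_res, tL_res] at h2
      exact h2
    obtain ⟨v, hv⟩ : ∃ v : ∀ d' : Bool, Sec (TX k MP) (DP (e, d', false)),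
        ∀ d', tL _ (DP_gen _) (v d') =
          tL _ (DP_gen _) (u d') ^ (M0 false + M0 true) * tL _ hgenW f := by
      refine ⟨fun d' ↦ u d' ^ (M0 (!d')) * v0 d', fun d' ↦ ?_⟩
      simp only
      rw [map_mul, map_pow, hv1]
      cases d'
      · simp only [Bool.not_false]
        ring
      · simp only [Bool.not_true]
        ring
    have hvv : tL _ (DP_gen _) (v false) = tL _ (DP_gen _) (v true) := by
      rw [hv, hv, h]
    have key : ∀ d', y d' ∈ nz f ↔ phi (e, d') (v d') ∉ 𝔭 := by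
      intro d'
      rw [← hy]
      have h3 : res (inf_le_left : DP (k := k) (e, d', false) ⊓ W ≤ _) (v d') =
          res (inf_le_left : DP (k := k) (e, d', false) ⊓ W ≤ _)
            (u d' ^ (M0 false + M0 true)) * res inf_le_right f := by
        apply tsec_ext
        intro hV
        rw [map_mul, tL_res, tL_res, tL_res, map_pow]
        exact hv d'
      have h4 := congrArg nz h3
      rw [nz_mul, nz_res, nz_res, nz_res] at h4
      have h5 : y d' ∈ (DP (k := k) (e, d', false) ⊓ W) ⊓ nz (v d') ↔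
          y d' ∈ (DP (k := k) (e, d', false) ⊓ W ⊓ nz (u d' ^ (M0 false + M0 true))) ⊓
            (DP (k := k) (e, d', false) ⊓ W ⊓ nz f) := by
        rw [h4]
      have h6 : y d' ∈ nz (u d' ^ (M0 false + M0 true)) := mem_nz_pow (hyu d') _
      constructor
      · intro hf
        exact (h5.mpr ⟨⟨⟨hyD d', hyW d'⟩, h6⟩, ⟨⟨hyD d', hyW d'⟩, hf⟩⟩).2
      · intro hf
        exact (h5.mp ⟨⟨hyD d', hyW d'⟩, hf⟩).2.2
    rw [key, key, phi_two e v hvv false true]
  have h7 : y true ∈ DP (e, false, false) := by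
    rw [← heq]
    exact hyD false
  rw [mem_DP_iff (hyD true)] at h7
  have h8 : aP (e, false, false) - aP (e, true, false) = (0, -1, 0, 0) := by
    apply gp_ext <;> simp [aP]
  rw [h8] at h7
  have h9 : ((0, -1, 0, 0) : Gp) ∈ CP e true false := by
    rw [mem_CP]
    cases e <;> simp
  have h10 : y true ∈ nz (chi (DP (k := k) (e, true, false)) (0, -1, 0, 0) (regOn_DP h9)) :=
    (mem_nz_chi _ (hyD true)).mpr h7
  rw [hy, phi_chi (e, true) h9] at h10
  simp at h10

end

end Pool.Agent.Helper72.VB
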