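import Mathlib
import Pool.Agent.Helper72.TorCurve

open AlgebraicGeometry CategoryTheory Limits TopologicalSpace Opposite HomogeneousLocalization
open AddMonoidAlgebra

universe u

namespace Pool.Agent.Helper72.VB

/-- nonvanishing does not depend on the chart -/
lemma nz_trans {P : Scheme.{u}} {L : LSheaf P} {W : P.Opens} {s : ∀ i, Sec P (W ⊓ L.U i)}
    (hs : L.IsSection W s) {i : L.ι} (j : L.ι) {y : P} (hy : y ∈ nz (s i)) (hj : y ∈ L.U j) :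
    y ∈ nz (s j) := by
  have h0 : res (inf_le_inf_left W inf_le_left) (s i) =
      res inf_le_right ((L.g i j).val) * res (inf_le_inf_left W inf_le_right) (s j) := hs i j
  have h1 := congrArg nz h0
  rw [nz_mul, nz_res, nz_res, nz_res] at h1
  have hyV : y ∈ W ⊓ L.U i := nz_le _ hy
  have h2 : y ∈ W ⊓ (L.U i ⊓ L.U j) ⊓ nz (s i) := ⟨⟨hyV.1, hyV.2, hj⟩, hy⟩
  rw [h1] at h2
  exact h2.2.2

section

variable {k : Type u} [Field k]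

lemma tL_zpow {M : AddSubmonoid Gn} [TPt M] {V : (TX k M).Opens} (hV : tgen k M ∈ V)
    (u : (Sec (TX k M) V)ˣ) (p : ℤ) :
    tL V hV ((u ^ p : (Sec (TX k M) V)ˣ) : Sec (TX k M) V) = (tL V hV (u : Sec (TX k M) V)) ^ p := by
  have h1 : ((Units.map (tL V hV).toMonoidHom (u ^ p) : (LF k)ˣ) : LF k) =
      (((Units.map (tL V hV).toMonoidHom u : (LF k)ˣ) : LF k)) ^ p := by
    rw [map_zpow, Units.val_zpow_eq_zpow_val]
  exact h1

lemma tL_unit_ne_zero {M : AddSubmonoid Gn} [TPt M] {V : (TX k M).Opens} (hV : tgen k M ∈ V)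
    (u : (Sec (TX k M) V)ˣ) : tL V hV (u : Sec (TX k M) V) ≠ 0 :=
  (Units.map (tL V hV).toMonoidHom u).ne_zero

variable (A : LSheaf (TX k MP))

/-- transition functions of `𝒪(n) ⊗ A⁻¹` -/
lemma tensor_trans (n : ℕ) (s : ∀ i, Sec (TX k MP) (⊤ ⊓ ((O1P.pow n).tensor (A.pow (-1))).U i))
    (hs : ((O1P.pow n).tensor (A.pow (-1))).IsSection ⊤ s) (w w' : Bool × Bool × Bool)
    (κ κ' : A.ι) (hw : oP w = oP w') (h1 : tgen k MP ∈ ⊤ ⊓ (DP w ⊓ A.U κ))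
    (h2 : tgen k MP ∈ ⊤ ⊓ (DP w' ⊓ A.U κ')) (h3 : tgen k MP ∈ A.U κ ⊓ A.U κ') :
    tL _ h1 (s (w, κ)) = (tL _ h3 ((A.g κ κ').val))⁻¹ * tL _ h2 (s (w', κ')) := by
  have hV : tgen k MP ∈ ⊤ ⊓ ((DP w ⊓ A.U κ) ⊓ (DP w' ⊓ A.U κ')) :=
    ⟨trivial, h1.2, h2.2⟩
  refine (congrArg (tL _ hV) (hs (w, κ) (w', κ'))).trans ?_
  refine ((tL _ hV).map_mul _ _).trans ?_
  have h4 : tL _ hV (res (inf_le_right : ⊤ ⊓ ((DP w ⊓ A.U κ) ⊓ (DP w' ⊓ A.U κ')) ≤ _)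
      ((((O1P.pow n).tensor (A.pow (-1))).g (w, κ) (w', κ')).val)) =
      tL _ (DP_gen2 w w') (((O1P.g w w') ^ (n : ℤ)).val) *
        tL _ h3 (((A.g κ κ') ^ (-1 : ℤ)).val) := by
    have h5 : ((((O1P.pow n).tensor (A.pow (-1))).g (w, κ) (w', κ')).val) =
      (resU (V := (DP w ⊓ A.U κ) ⊓ (DP w' ⊓ A.U κ')) (W := DP w ⊓ DP w')
        (inf_le_inf inf_le_left inf_le_left) ((O1P.g w w') ^ (n : ℤ))).val *
      (resU (V := (DP w ⊓ A.U κ) ⊓ (DP w' ⊓ A.U κ')) (W := A.U κ ⊓ A.U κ')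
        (inf_le_inf inf_le_right inf_le_right) ((A.g κ κ') ^ (-1 : ℤ))).val := rfl
    rw [h5, map_mul, map_mul]
    rfl
  have h6 : tL _ (DP_gen2 (k := k) w w') (((O1P (k := k)).g w w').val) = 1 := by
    refine (tL_chi (regOn_gg1 oP_gg w w') (DP_gen2 w w')).trans ?_
    rw [hw, sub_self, mono_zero]
  have h7 : tL _ (DP_gen2 (k := k) w w') ((((O1P (k := k)).g w w') ^ (n : ℤ)).val) = 1 :=
    (tL_zpow (DP_gen2 w w') (O1P.g w w') n).trans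
      ((congrArg (fun z : LF k ↦ z ^ (n : ℤ)) h6).trans (one_zpow _))
  have h8 : tL _ h3 (((A.g κ κ') ^ (-1 : ℤ)).val) = (tL _ h3 ((A.g κ κ').val))⁻¹ :=
    (tL_zpow h3 (A.g κ κ') (-1)).trans (zpow_neg_one _)
  have h9 : tL _ (DP_gen2 (k := k) w w') ((((O1P (k := k)).g w w') ^ (n : ℤ)).val) *
      tL _ h3 (((A.g κ κ') ^ (-1 : ℤ)).val) = (tL _ h3 ((A.g κ κ').val))⁻¹ :=
    (congrArg₂ (fun a b : LF k ↦ a * b) h7 h8).trans (one_mul _)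
  exact (congrArg (fun a : LF k ↦ a * _) (h4.trans h9))

/-- transition functions of `A^m` -/
lemma pow_trans (m : ℕ) (t : ∀ i, Sec (TX k MP) (⊤ ⊓ (A.pow m).U i))
    (ht : (A.pow m).IsSection ⊤ t) (κ κ' : A.ι) (h1 : tgen k MP ∈ ⊤ ⊓ A.U κ)
    (h2 : tgen k MP ∈ ⊤ ⊓ A.U κ') (h3 : tgen k MP ∈ A.U κ ⊓ A.U κ') :
    tL _ h1 (t κ) = (tL _ h3 ((A.g κ κ').val)) ^ m * tL _ h2 (t κ') := by
  have hV : tgen k MP ∈ ⊤ ⊓ (A.U κ ⊓ A.U κ') := ⟨trivial, h3⟩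
  refine (congrArg (tL _ hV) (ht κ κ')).trans ?_
  refine ((tL _ hV).map_mul _ _).trans ?_
  have h4 : tL _ h3 ((((A.pow m).g κ κ')).val) = (tL _ h3 ((A.g κ κ').val)) ^ (m : ℤ) :=
    tL_zpow h3 (A.g κ κ') m
  rw [zpow_natCast] at h4
  rw [← h4]
  rfl

/-- sections of `𝒪(n) ⊗ A⁻¹` vanish on the section `T = 0` -/
theorem base_aux (hA : A.IsAmple) (n : ℕ)
    (s : ∀ i, Sec (TX k MP) (⊤ ⊓ ((O1P.pow n).tensor (A.pow (-1))).U i))
    (hs : ((O1P.pow n).tensor (A.pow (-1))).IsSection ⊤ s) (e d : Bool) (x : TX k MX)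
    (hx : x ∈ UX (e, d)) (y : TX k MP) (hyD : y ∈ DP (e, d, false))
    (hy : ∀ t : Sec (TX k MP) (DP (e, d, false)), y ∈ nz t ↔ x ∈ nz (sgm (e, d) t)) :
    y ∉ ((O1P.pow n).tensor (A.pow (-1))).nonvan ⊤ s := by
  intro hmem
  obtain ⟨⟨α, κ⟩, hακ⟩ := Opens.mem_iSup.mp hmem
  obtain ⟨m, hm, t, ht, hyt, haff⟩ := hA.2 y
  have hyV : y ∈ ⊤ ⊓ (DP α ⊓ A.U κ) := nz_le _ hακ
  have hyκ : y ∈ A.U κ := hyV.2.2
  have hκ : tgen k MP ∈ A.U κ := tgen_mem hyκ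
  have g1 : ∀ (w : Bool × Bool × Bool) (κ' : A.ι), tgen k MP ∈ A.U κ' →
      tgen k MP ∈ ⊤ ⊓ (DP w ⊓ A.U κ') := fun w κ' h ↦ ⟨trivial, DP_gen w, h⟩
  have g2 : ∀ (κ' : A.ι), tgen k MP ∈ A.U κ' → tgen k MP ∈ ⊤ ⊓ A.U κ' :=
    fun κ' h ↦ ⟨trivial, h⟩
  -- the value does not depend on the chart of `A`
  have hZ : ∀ (w : Bool × Bool × Bool) (κ' : A.ι) (h : tgen k MP ∈ A.U κ'),
      tL _ (g1 w κ hκ) (s (w, κ)) ^ m * tL _ (g2 κ hκ) (t κ) =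
        tL _ (g1 w κ' h) (s (w, κ')) ^ m * tL _ (g2 κ' h) (t κ') := by
    intro w κ' h
    have h3 : tgen k MP ∈ A.U κ ⊓ A.U κ' := ⟨hκ, h⟩
    rw [tensor_trans A n s hs w w κ κ' rfl (g1 w κ hκ) (g1 w κ' h) h3,
      pow_trans A m t ht κ κ' (g2 κ hκ) (g2 κ' h) h3, mul_pow, inv_pow]
    have h4 : tL _ h3 ((A.g κ κ').val) ^ m ≠ 0 := pow_ne_zero _ (tL_unit_ne_zero h3 _)
    field_simp
  have hreg : ∀ (w : Bool × Bool × Bool), ∀ z ∈ DP (k := k) w,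
      tL _ (g1 w κ hκ) (s (w, κ)) ^ m * tL _ (g2 κ hκ) (t κ) ∈
        (toL (tG k MP) (tψ k MP) (tψ_injective k MP) z).range := by
    intro w z hz
    have hzA : z ∈ ⨆ i, A.U i := by
      rw [A.cover]
      trivial
    obtain ⟨κ', hκ'⟩ := Opens.mem_iSup.mp hzA
    have h := tgen_mem hκ'
    rw [hZ w κ' h]
    exact Subring.mul_mem _ (Subring.pow_mem _ (tL_mem (g1 w κ' h) _ ⟨trivial, hz, hκ'⟩) _)
      (tL_mem (g2 κ' h) _ ⟨trivial, hκ'⟩)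
  choose u hu using fun w : Bool × Bool × Bool ↦ exists_tL_eq (DP w) _ (hreg w)
  have hnz : ∀ (w : Bool × Bool × Bool) (κ' : A.ι) (z : TX k MP), z ∈ DP w → z ∈ A.U κ' →
      (z ∈ nz (u w) ↔ z ∈ nz ((s (w, κ')) ^ m) ∧ z ∈ nz (t κ')) := by
    intro w κ' z hz hκ'
    have h := tgen_mem hκ'
    have h1 : res (inf_le_left : DP (k := k) w ⊓ A.U κ' ≤ _) (u w) =
        res (W := ⊤ ⊓ (DP w ⊓ A.U κ')) (le_inf le_top le_rfl) ((s (w, κ')) ^ m) *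
          res (W := ⊤ ⊓ A.U κ') (le_inf le_top inf_le_right) (t κ') := by
      apply tsec_ext
      intro hV
      rw [map_mul, tL_res, tL_res, tL_res, hu]
      refine (hZ w κ' h).trans (congrArg (fun a : LF k ↦ a * tL _ (g2 κ' h) (t κ')) ?_)
      exact ((tL _ (g1 w κ' h)).map_pow _ _).symm
    have h2 := congrArg nz h1
    rw [nz_mul, nz_res, nz_res, nz_res] at h2
    have h3 : z ∈ DP (k := k) w ⊓ A.U κ' := ⟨hz, hκ'⟩
    constructor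
    · intro h4
      have h5 : z ∈ DP (k := k) w ⊓ A.U κ' ⊓ nz (u w) := ⟨h3, h4⟩
      rw [h2] at h5
      exact ⟨h5.1.2, h5.2.2⟩
    · intro h4
      have h5 : z ∈ (DP (k := k) w ⊓ A.U κ' ⊓ nz ((s (w, κ')) ^ m)) ⊓
          (DP (k := k) w ⊓ A.U κ' ⊓ nz (t κ')) := ⟨⟨h3, h4.1⟩, ⟨h3, h4.2⟩⟩
      exact (h2.ge h5).2
  have key := not_mem_nz e (fun d' ↦ u (e, d', false)) ?_ ((A.pow m).nonvan ⊤ t) haff ?_ d x hx
  · apply key
    rw [← hy]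
    refine (hnz (e, d, false) κ y hyD hyκ).mpr ⟨?_, ?_⟩
    · refine mem_nz_pow ?_ m
      exact nz_trans hs (i := (α, κ)) ((e, d, false), κ) hακ ⟨hyD, hyκ⟩
    · obtain ⟨κ', hκ'⟩ := Opens.mem_iSup.mp hyt
      exact nz_trans ht κ hκ' hyκ
  · change tL _ _ (u (e, false, false)) = tL _ _ (u (e, true, false))
    rw [hu, hu]
    have h3 : tgen k MP ∈ A.U κ ⊓ A.U κ := ⟨hκ, hκ⟩
    have h5 : ((A.g κ κ : (Sec (TX k MP) (A.U κ ⊓ A.U κ))ˣ)) = 1 := by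
      have h6 := A.cocycle κ κ κ (A.U κ ⊓ A.U κ) inf_le_left inf_le_left inf_le_left
      exact mul_eq_left.mp h6
    rw [tensor_trans A n s hs (e, false, false) (e, true, false) κ κ rfl
      (g1 (e, false, false) κ hκ) (g1 (e, true, false) κ hκ) h3, h5, Units.val_one, map_one,
      inv_one, one_mul]
  · intro d' z hz
    have hzD : z ∈ DP (e, d', false) := nz_le _ hz
    have hzA : z ∈ ⨆ i, A.U i := by
      rw [A.cover]
      trivial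
    obtain ⟨κ', hκ'⟩ := Opens.mem_iSup.mp hzA
    exact Opens.mem_iSup.mpr ⟨κ', ((hnz (e, d', false) κ' z hzD hκ').mp hz).2⟩

/-- the essential base locus of `E`, for any ample sheaf, is all of `X` -/
theorem essBase_eq (hA : A.IsAmple) : piP '' (O1P.essBase A) = Set.univ := by
  rw [Set.eq_univ_iff_forall]
  intro x
  obtain ⟨⟨e, d⟩, hx⟩ := exists_vX k x
  have hx' : x ∈ UX (e, d) := hx
  obtain ⟨y, hyD, hyx, hy⟩ := exists_point' (piP_chart (e, d, false))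
    (isAffineOpen_DP (e, d, false)) (sgm (e, d)) (fun a ↦ by
      rw [← res_pull_piP]
      exact sgm_pl (e, d) a) x hx'
  refine ⟨y, ?_, hyx⟩
  refine Set.mem_iInter₂.mpr fun n _ ↦ ?_
  exact fun s hs ↦ base_aux A hA n s hs e d x hx' y hyD hy

end

end Pool.Agent.Helper72.VB
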